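import Pool.Agent.MP_8c130c_co.Defs

section

namespace Pool.Agent.MP_8c130c_co

open Pointwise

variable {d : ℕ}

/-- The truncated cone over `Q` between heights `1` and `H`. -/
def trunc (Q : Set (Fin d → ℝ)) (H : ℝ) : Set (Fin (d + 1) → ℝ) :=
  {p | 1 ≤ p 0 ∧ p 0 ≤ H ∧ ∃ x ∈ Q, Fin.tail p = p 0 • x}

/-- The point at height `h` over `x`. -/
def pt (h : ℝ) (x : Fin d → ℝ) : Fin (d + 1) → ℝ := Fin.cons h (h • x)

@[simp] lemma pt_zero (h : ℝ) (x : Fin d → ℝ) : pt h x 0 = h := by simp [pt]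

@[simp] lemma pt_tail (h : ℝ) (x : Fin d → ℝ) : Fin.tail (pt h x) = h • x := by simp [pt]

@[simp] lemma pt_succ (h : ℝ) (x : Fin d → ℝ) (i : Fin d) : pt h x i.succ = h * x i := by
  simp [pt]

lemma mem_trunc {Q : Set (Fin d → ℝ)} {H : ℝ} {p : Fin (d + 1) → ℝ} :
    p ∈ trunc Q H ↔ ∃ h, 1 ≤ h ∧ h ≤ H ∧ ∃ x ∈ Q, p = pt h x := by
  constructor
  · rintro ⟨h1, h2, x, hx, hp⟩
    refine ⟨p 0, h1, h2, x, hx, ?_⟩
    rw [pt, ← hp, Fin.cons_self_tail]
  · rintro ⟨h, h1, h2, x, hx, rfl⟩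
    exact ⟨by simpa, by simpa, x, hx, by simp⟩

lemma dot_pt (w : Fin (d + 1) → ℝ) (h : ℝ) (x : Fin d → ℝ) :
    w ⬝ᵥ pt h x = h * (Fin.tail w ⬝ᵥ x + w 0) := by
  simp only [dotProduct, Fin.sum_univ_succ, pt_zero, pt_succ, Fin.tail, mul_add, Finset.mul_sum]
  rw [add_comm]
  congr 1
  · exact Finset.sum_congr rfl fun i _ => by ring
  · ring

lemma convex_trunc {Q : Set (Fin d → ℝ)} (hQ : Convex ℝ Q) (H : ℝ) : Convex ℝ (trunc Q H) := by
  intro p hp q hq a b ha hb hab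
  obtain ⟨h, h1, h2, x, hx, rfl⟩ := mem_trunc.1 hp
  obtain ⟨k, k1, k2, y, hy, rfl⟩ := mem_trunc.1 hq
  have hs : 1 ≤ a * h + b * k := by nlinarith
  have hs0 : a * h + b * k ≠ 0 := by linarith
  refine mem_trunc.2 ⟨a * h + b * k, hs, by nlinarith,
    (a * h / (a * h + b * k)) • x + (b * k / (a * h + b * k)) • y, ?_, ?_⟩
  · refine hQ hx hy (by positivity) (by positivity) ?_
    field_simp
  · funext i
    refine Fin.cases ?_ (fun j => ?_) i
    · simp
    · simp only [Pi.add_apply, Pi.smul_apply, pt_succ, smul_eq_mul]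
      field_simp

/-- The affine map `x ↦ pt h x`. -/
noncomputable def ptMap (h : ℝ) : (Fin d → ℝ) →ᵃ[ℝ] (Fin (d + 1) → ℝ) where
  toFun := pt h
  linear :=
    { toFun := fun x => Fin.cons 0 (h • x)
      map_add' := fun x y => by
        funext i
        refine Fin.cases ?_ (fun j => ?_) i <;> simp
      map_smul' := fun c x => by
        funext i
        refine Fin.cases ?_ (fun j => ?_) i
        · simp
        · simp; ring }
  map_vadd' := fun x y => by
    funext i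
    refine Fin.cases ?_ (fun j => ?_) i <;> simp [mul_add]

@[simp] lemma ptMap_apply (h : ℝ) (x : Fin d → ℝ) : ptMap h x = pt h x := rfl

/-- The integral point at height `h` over `v`. -/
def ptZ (h : ℤ) (v : Fin d → ℤ) : Fin (d + 1) → ℤ := Fin.cons h (h • v)

lemma toReal_ptZ (h : ℤ) (v : Fin d → ℤ) : toReal (ptZ h v) = pt h (toReal v) := by
  funext i
  refine Fin.cases ?_ (fun j => ?_) i <;> simp [toReal, ptZ]

lemma trunc_eq_convexHull (V : Finset (Fin d → ℤ)) (H : ℤ) (hH : 1 < H) :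
    trunc (convexHull ℝ (toReal '' (V : Set (Fin d → ℤ)))) H =
      convexHull ℝ (toReal '' ((V.image (ptZ 1) ∪ V.image (ptZ H) : Finset _) :
        Set (Fin (d + 1) → ℤ))) := by
  have hH' : (1 : ℝ) < H := by exact_mod_cast hH
  apply Set.Subset.antisymm
  · intro p hp
    obtain ⟨h, h1, h2, x, hx, rfl⟩ := mem_trunc.1 hp
    have key : ∀ k : ℤ, (k = 1 ∨ k = H) → pt (k : ℝ) x ∈ convexHull ℝ (toReal ''
        ((V.image (ptZ 1) ∪ V.image (ptZ H) : Finset _) : Set (Fin (d + 1) → ℤ))) := by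
      intro k hk
      have h1 : ptMap (k : ℝ) x ∈ ptMap (k : ℝ) '' convexHull ℝ (toReal '' (V : Set (Fin d → ℤ))) :=
        ⟨x, hx, rfl⟩
      rw [AffineMap.image_convexHull] at h1
      refine convexHull_mono ?_ h1
      rintro _ ⟨_, ⟨v, hv, rfl⟩, rfl⟩
      refine ⟨ptZ k v, ?_, by simp [toReal_ptZ]⟩
      simp only [Finset.coe_union, Finset.coe_image, Set.mem_union, Set.mem_image]
      rcases hk with rfl | rfl
      · exact Or.inl ⟨v, hv, rfl⟩
      · exact Or.inr ⟨v, hv, rfl⟩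
    have k1 := key 1 (Or.inl rfl)
    have k2 := key H (Or.inr rfl)
    have hne : (H : ℝ) - 1 ≠ 0 := by linarith
    have := (convex_convexHull ℝ _) k1 k2 (a := (H - h) / (H - 1)) (b := (h - 1) / (H - 1))
      (div_nonneg (by linarith) (by linarith)) (div_nonneg (by linarith) (by linarith))
      (by field_simp; ring)
    convert this using 1
    funext i
    refine Fin.cases ?_ (fun j => ?_) i
    · simp; field_simp; ring
    · simp; field_simp; ring
  · refine convexHull_min ?_ (convex_trunc (convex_convexHull ℝ _) _)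
    rintro _ ⟨p, hp, rfl⟩
    simp only [Finset.coe_union, Finset.coe_image, Set.mem_union, Set.mem_image] at hp
    rcases hp with ⟨v, hv, rfl⟩ | ⟨v, hv, rfl⟩
    · rw [toReal_ptZ]
      exact mem_trunc.2 ⟨_, by simp, by simpa using hH'.le, _,
        subset_convexHull ℝ _ ⟨v, hv, rfl⟩, rfl⟩
    · rw [toReal_ptZ]
      exact mem_trunc.2 ⟨_, hH'.le, le_rfl, _, subset_convexHull ℝ _ ⟨v, hv, rfl⟩, rfl⟩

lemma nonempty_of_span {Q : Set (Fin d → ℝ)} (hQ : affineSpan ℝ Q = ⊤) : Q.Nonempty := by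
  by_contra h
  rw [Set.not_nonempty_iff_eq_empty] at h
  rw [h, AffineSubspace.span_empty] at hQ
  exact absurd hQ bot_ne_top

lemma affineSpan_trunc {Q : Set (Fin d → ℝ)} (hQ : affineSpan ℝ Q = ⊤) {H : ℝ} (hH : 1 < H) :
    affineSpan ℝ (trunc Q H) = ⊤ := by
  have key : ∀ k : ℝ, 1 ≤ k → k ≤ H → ∀ x, pt k x ∈ affineSpan ℝ (trunc Q H) := by
    intro k k1 k2 x
    have h1 : ptMap k x ∈ (affineSpan ℝ Q).map (ptMap k) :=
      AffineSubspace.mem_map_of_mem _ (by rw [hQ]; trivial)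
    rw [AffineSubspace.map_span] at h1
    refine affineSpan_mono ℝ ?_ h1
    rintro _ ⟨y, hy, rfl⟩
    exact mem_trunc.2 ⟨k, k1, k2, y, hy, rfl⟩
  rw [eq_top_iff]
  intro p _
  have hne : H - 1 ≠ 0 := by linarith
  have h1 := key 1 le_rfl hH.le (Fin.tail p)
  have h2 := key 1 le_rfl hH.le 0
  have h3 := key H hH.le le_rfl 0
  have := AffineSubspace.smul_vsub_vadd_mem _ ((p 0 - 1) / (H - 1)) h3 h2 h1
  convert this using 1
  funext i
  refine Fin.cases ?_ (fun j => ?_) i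
  · simp; field_simp; ring
  · simp [Fin.tail]

lemma isLatticePolytope_trunc {Q : Set (Fin d → ℝ)} (hQ : IsLatticePolytope Q) (H : ℤ)
    (hH : 1 < H) : IsLatticePolytope (trunc Q H) := by
  obtain ⟨⟨V, rfl⟩, hs⟩ := hQ
  exact ⟨⟨_, trunc_eq_convexHull V H hH⟩, affineSpan_trunc hs (by exact_mod_cast hH)⟩

lemma isIDP_of_trunc {Q : Set (Fin d → ℝ)} {H : ℝ} (hH : 1 ≤ H) (h : IsIDP (trunc Q H)) :
    IsIDP Q := by
  intro t ht z hz
  obtain ⟨x, hx, hxz⟩ := Set.mem_smul_set.1 hz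
  have hz' : toReal (Fin.cons (t : ℤ) z : Fin (d + 1) → ℤ) ∈ (t : ℝ) • trunc Q H := by
    refine Set.mem_smul_set.2 ⟨pt 1 x, mem_trunc.2 ⟨1, le_rfl, hH, x, hx, rfl⟩, ?_⟩
    funext i
    refine Fin.cases ?_ (fun j => ?_) i
    · simp [toReal]
    · have := congrFun hxz j
      simpa [toReal] using this
  obtain ⟨y, hy, hsum⟩ := h t ht _ hz'
  have h0 : ∑ j, y j 0 = (t : ℤ) := by
    have := congrFun hsum 0
    simpa using this.symm
  have h1 : ∀ j, 1 ≤ y j 0 := fun j => by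
    have := (hy j).1
    simp only [toReal] at this
    exact_mod_cast this
  have h2 : ∀ j, y j 0 = 1 := by
    have hs : ∑ j : Fin t, (y j 0 - 1) = 0 := by
      rw [Finset.sum_sub_distrib, h0]; simp
    have := (Finset.sum_eq_zero_iff_of_nonneg (fun j _ => sub_nonneg.2 (h1 j))).1 hs
    intro j
    have := this j (Finset.mem_univ _)
    linarith
  refine ⟨fun j => Fin.tail (y j), fun j => ?_, ?_⟩
  · obtain ⟨-, -, x, hx, hx'⟩ := hy j
    have h3 : toReal (y j) 0 = 1 := by simp [toReal, h2 j]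
    rw [h3, one_smul] at hx'
    have : toReal (Fin.tail (y j)) = x := by
      rw [← hx']; rfl
    rwa [this]
  · funext i
    have := congrFun hsum i.succ
    simpa [Fin.tail] using this

end Pool.Agent.MP_8c130c_co

end

section

namespace Pool.Agent.MP_8c130c_co

open Pointwise

variable {d : ℕ}

lemma IsLatticePolytope.isCompact {P : Set (Fin d → ℝ)} (hP : IsLatticePolytope P) :
    IsCompact P := by
  obtain ⟨⟨V, rfl⟩, -⟩ := hP
  exact (V.finite_toSet.image _).isCompact_convexHull ℝ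

lemma le_widthAlong {P : Set (Fin d → ℝ)} (hP : IsCompact P) (u : Fin d → ℤ) {x y : Fin d → ℝ}
    (hx : x ∈ P) (hy : y ∈ P) : |toReal u ⬝ᵥ x - toReal u ⬝ᵥ y| ≤ widthAlong u P := by
  refine le_csSup ?_ ⟨x, hx, y, hy, rfl⟩
  have hc : Continuous fun p : (Fin d → ℝ) × (Fin d → ℝ) =>
      |toReal u ⬝ᵥ p.1 - toReal u ⬝ᵥ p.2| := by
    fun_prop
  have := ((hP.prod hP).image hc).bddAbove
  refine this.mono ?_
  rintro _ ⟨x, hx, y, hy, rfl⟩
  exact ⟨(x, y), ⟨hx, hy⟩, rfl⟩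

lemma toReal_dot (u v : Fin d → ℤ) : toReal u ⬝ᵥ toReal v = ((u ⬝ᵥ v : ℤ) : ℝ) := by
  simp [toReal, dotProduct]

/-- A nonzero integral functional takes two different values on the generating points. -/
lemma exists_ne_of_span (V : Finset (Fin d → ℤ))
    (hs : affineSpan ℝ (convexHull ℝ (toReal '' (V : Set (Fin d → ℤ)))) = ⊤)
    {w : Fin d → ℤ} (hw : w ≠ 0) : ∃ v ∈ V, ∃ v' ∈ V, w ⬝ᵥ v ≠ w ⬝ᵥ v' := by
  by_contra hcon
  push Not at hcon
  rw [affineSpan_convexHull] at hs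
  obtain ⟨_, v₀, hv₀, rfl⟩ := nonempty_of_span hs
  have key : ∀ x : Fin d → ℝ, toReal w ⬝ᵥ x = toReal w ⬝ᵥ toReal v₀ := by
    intro x
    have hx : x ∈ affineSpan ℝ (toReal '' (V : Set (Fin d → ℤ))) := by rw [hs]; trivial
    refine affineSpan_induction hx ?_ ?_
    · rintro _ ⟨v, hv, rfl⟩
      rw [toReal_dot, toReal_dot, hcon v hv v₀ hv₀]
    · intro c a b e ha hb he
      simp only [vsub_eq_sub, vadd_eq_add, dotProduct_add, dotProduct_smul, dotProduct_sub, ha, hb,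
        he]
      simp
  apply hw
  funext i
  have h1 := key (Pi.single i 1)
  have h2 := key 0
  rw [← h2] at h1
  simpa [toReal] using h1

lemma le_latticeWidth_trunc {Q : Set (Fin d → ℝ)} (hQ : IsLatticePolytope Q) (H : ℤ)
    (hH : 1 < H) : (H : ℝ) - 1 ≤ latticeWidth (trunc Q H) := by
  have hc := (isLatticePolytope_trunc hQ H hH).isCompact
  have hH' : (1 : ℝ) < H := by exact_mod_cast hH
  refine le_csInf ⟨_, Pi.single 0 1, by simp, rfl⟩ ?_
  rintro _ ⟨u, hu, rfl⟩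
  obtain ⟨⟨V, rfl⟩, hs⟩ := hQ
  have htail : Fin.tail (toReal u) = toReal (Fin.tail u) := rfl
  by_cases hw : Fin.tail u = 0
  · have hu0 : u 0 ≠ 0 := by
      intro h0
      apply hu
      rw [← Fin.cons_self_tail u, hw, h0]
      funext i
      refine Fin.cases ?_ (fun j => ?_) i <;> simp
    obtain ⟨x, hx⟩ := nonempty_of_span hs
    refine le_trans ?_ (le_widthAlong hc u (mem_trunc.2 ⟨H, hH'.le, le_rfl, x, hx, rfl⟩)
      (mem_trunc.2 ⟨1, le_rfl, hH'.le, x, hx, rfl⟩))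
    rw [dot_pt, dot_pt, htail, hw]
    have h1 : toReal (0 : Fin d → ℤ) ⬝ᵥ x = 0 := by simp [toReal, dotProduct]
    have h2 : (1 : ℝ) ≤ |toReal u 0| := by
      simp only [toReal]
      exact_mod_cast Int.one_le_abs hu0
    rw [h1, zero_add, ← sub_mul, abs_mul, abs_of_pos (by linarith)]
    nlinarith
  · obtain ⟨v, hv, v', hv', hne⟩ := exists_ne_of_span V hs hw
    refine le_trans ?_ (le_widthAlong hc u
      (mem_trunc.2 ⟨H, hH'.le, le_rfl, _, subset_convexHull ℝ _ ⟨v, hv, rfl⟩, rfl⟩)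
      (mem_trunc.2 ⟨H, hH'.le, le_rfl, _, subset_convexHull ℝ _ ⟨v', hv', rfl⟩, rfl⟩))
    rw [dot_pt, dot_pt, htail, toReal_dot, toReal_dot, ← mul_sub, abs_mul, abs_of_pos (by linarith)]
    have h2 : (1 : ℝ) ≤ |((Fin.tail u ⬝ᵥ v : ℤ) : ℝ) + toReal u 0 -
        (((Fin.tail u ⬝ᵥ v' : ℤ) : ℝ) + toReal u 0)| := by
      rw [add_sub_add_right_eq_sub]
      exact_mod_cast Int.one_le_abs (sub_ne_zero.2 hne)
    nlinarith

end Pool.Agent.MP_8c130c_co

end

section

namespace Pool.Agent.MP_8c130c_co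

open Pointwise

variable {d : ℕ}

/-- The vectors of the lifted basis. -/
noncomputable def liftVec (b : Module.Basis (Fin d) ℤ (Fin d → ℤ)) (v : Fin d → ℤ) (ε : ℤ) :
    Fin (d + 1) → Fin (d + 1) → ℤ :=
  Fin.cons (Fin.cons ε 0) fun i => Fin.cons (-(b i ⬝ᵥ v)) (b i)

lemma exists_liftBasis (b : Module.Basis (Fin d) ℤ (Fin d → ℤ)) (v : Fin d → ℤ) (ε : ℤ)
    (hε : ε * ε = 1) :
    ∃ b' : Module.Basis (Fin (d + 1)) ℤ (Fin (d + 1) → ℤ), ∀ j, b' j = liftVec b v ε j := by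
  have hli : LinearIndependent ℤ (liftVec b v ε) := by
    rw [Fintype.linearIndependent_iff]
    intro g hg
    have h1 : ∑ i : Fin d, g i.succ • b i = 0 := by
      funext k
      have := congrFun hg k.succ
      simpa [liftVec, Fin.sum_univ_succ] using this
    have h2 := Fintype.linearIndependent_iff.1 b.linearIndependent _ h1
    have h3 : g 0 * ε = 0 := by
      have := congrFun hg 0
      simpa [liftVec, Fin.sum_univ_succ, h2] using this
    have h4 : g 0 = 0 := by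
      have : g 0 * ε * ε = 0 := by rw [h3, zero_mul]
      rwa [mul_assoc, hε, mul_one] at this
    intro j
    exact Fin.cases h4 h2 j
  have hsp : ⊤ ≤ Submodule.span ℤ (Set.range (liftVec b v ε)) := by
    intro w _
    rw [Submodule.mem_span_range_iff_exists_fun]
    refine ⟨Fin.cons (ε * (w 0 + Fin.tail w ⬝ᵥ v)) fun i => b.repr (Fin.tail w) i, ?_⟩
    have hs := b.sum_repr (Fin.tail w)
    funext k
    refine Fin.cases ?_ (fun k => ?_) k
    · have h2 : Fin.tail w ⬝ᵥ v = ∑ i, b.repr (Fin.tail w) i * (b i ⬝ᵥ v) := by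
        conv_lhs => rw [← hs]
        simp only [sum_dotProduct, smul_dotProduct, smul_eq_mul]
      simp only [liftVec, Fin.sum_univ_succ, Fin.cons_zero, Fin.cons_succ,
        Pi.smul_apply, Finset.sum_apply, smul_eq_mul, mul_neg, Finset.sum_neg_distrib]
      rw [← h2, mul_comm ε, mul_assoc, hε]
      ring
    · have := congrFun hs k
      simpa [liftVec, Fin.sum_univ_succ, Fin.tail] using this
  exact ⟨Module.Basis.mk hli hsp, fun j => by simp⟩

lemma isUnimodularCone_lift {C : Set (Fin d → ℝ)} (hC : IsUnimodularCone C) (v : Fin d → ℤ)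
    (ε : ℤ) (hε : ε * ε = 1) (δ : Prop) :
    IsUnimodularCone {w : Fin (d + 1) → ℝ | Fin.tail w ∈ C ∧
      0 ≤ ε * (Fin.tail w ⬝ᵥ toReal v + w 0) ∧ (δ → Fin.tail w ⬝ᵥ toReal v + w 0 = 0)} := by
  classical
  obtain ⟨b, S, rfl⟩ := hC
  obtain ⟨b', hb'⟩ := exists_liftBasis b v ε hε
  have hε' : (ε : ℝ) * ε = 1 := by exact_mod_cast hε
  refine ⟨b', S.map (Fin.succEmb d) ∪ (if δ then ∅ else {0}), ?_⟩
  have hdisj : Disjoint (S.map (Fin.succEmb d)) (if δ then ∅ else {0}) := by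
    split_ifs
    · simp
    · simp
  have hsum : ∀ c : Fin (d + 1) → ℝ,
      ∑ j ∈ S.map (Fin.succEmb d) ∪ (if δ then ∅ else {0}), c j • toReal (b' j) =
        Fin.cons ((if δ then 0 else c 0 * ε) -
          (∑ i ∈ S, c i.succ • toReal (b i)) ⬝ᵥ toReal v) (∑ i ∈ S, c i.succ • toReal (b i)) := by
    intro c
    rw [Finset.sum_union hdisj, Finset.sum_map]
    funext k
    refine Fin.cases ?_ (fun k => ?_) k
    · simp only [Fin.coe_succEmb, hb', liftVec, Pi.add_apply, Finset.sum_apply, Pi.smul_apply,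
        Fin.cons_succ, Fin.cons_zero, sum_dotProduct, smul_dotProduct, toReal_dot, smul_eq_mul]
      split_ifs
      · simp [toReal]
      · simp [toReal]; ring
    · simp only [Fin.coe_succEmb, hb', liftVec, Pi.add_apply, Finset.sum_apply, Pi.smul_apply,
        Fin.cons_succ, smul_eq_mul]
      split_ifs
      · simp [toReal]
      · simp [toReal]
  ext w
  simp only [Set.mem_ofPred_eq, hsum]
  constructor
  · rintro ⟨⟨c, hc, hw⟩, h1, h2⟩
    refine ⟨Fin.cons (ε * (Fin.tail w ⬝ᵥ toReal v + w 0)) c, ?_, ?_⟩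
    · intro j
      refine Fin.cases ?_ (fun j => ?_) j
      · simpa using h1
      · simpa using hc j
    · simp only [Fin.cons_succ, Fin.cons_zero]
      rw [← hw]
      conv_lhs => rw [← Fin.cons_self_tail w]
      congr 1
      split_ifs with h
      · linarith [h2 h]
      · rw [mul_comm (ε : ℝ), mul_assoc, hε']; ring
  · rintro ⟨c, hc, rfl⟩
    simp only [Fin.tail_cons, Fin.cons_zero]
    refine ⟨⟨fun i => c i.succ, fun i => hc _, rfl⟩, ?_, ?_⟩
    · split_ifs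
      · simp
      · have : (ε : ℝ) * (c 0 * ε) = c 0 := by
          rw [mul_comm (c 0), ← mul_assoc, hε', one_mul]
        simpa [this] using hc 0
    · intro h
      simp [h]

lemma exists_dot (l : StrongDual ℝ (Fin d → ℝ)) : ∃ a : Fin d → ℝ, ∀ p, l p = a ⬝ᵥ p := by
  refine ⟨fun i => l (Pi.single i 1), fun p => ?_⟩
  conv_lhs => rw [pi_eq_sum_univ' p]
  simp [dotProduct, mul_comm]

lemma exists_max_vertex (V : Finset (Fin d → ℤ)) (hV : V.Nonempty) (u : Fin d → ℝ) :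
    ∃ v ∈ V, ∀ y ∈ convexHull ℝ (toReal '' (V : Set (Fin d → ℤ))), u ⬝ᵥ y ≤ u ⬝ᵥ toReal v := by
  obtain ⟨v, hv, hmax⟩ := V.exists_max_image (fun v => u ⬝ᵥ toReal v) hV
  refine ⟨v, hv, fun y hy => ?_⟩
  have hconv : Convex ℝ {y : Fin d → ℝ | u ⬝ᵥ y ≤ u ⬝ᵥ toReal v} := by
    intro x hx y hy a b ha hb hab
    simp only [Set.mem_ofPred_eq, dotProduct_add, dotProduct_smul, smul_eq_mul] at *
    have : u ⬝ᵥ toReal v = a * (u ⬝ᵥ toReal v) + b * (u ⬝ᵥ toReal v) := by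
      rw [← add_mul, hab, one_mul]
    nlinarith
  refine convexHull_min ?_ hconv hy
  rintro _ ⟨x, hx, rfl⟩
  exact hmax x hx

lemma isDelzant_trunc {Q : Set (Fin d → ℝ)} (hQ : IsLatticePolytope Q) (hD : IsDelzant Q)
    {H : ℝ} (hH : 1 < H) : IsDelzant (trunc Q H) := by
  intro G hG hGne
  obtain ⟨l, hl⟩ := hG hGne
  obtain ⟨a, ha⟩ := exists_dot l
  obtain ⟨⟨V, hV⟩, hs⟩ := hQ
  have hVne : V.Nonempty := by
    obtain ⟨x, hx⟩ := nonempty_of_span hs
    rw [hV] at hx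
    obtain ⟨_, v, hv, -⟩ := convexHull_nonempty_iff.1 ⟨x, hx⟩
    exact ⟨v, hv⟩
  obtain ⟨v, hv, hmax⟩ := exists_max_vertex V hVne (Fin.tail a)
  rw [← hV] at hmax
  have hvQ : toReal v ∈ Q := by rw [hV]; exact subset_convexHull ℝ _ ⟨v, hv, rfl⟩
  set F : Set (Fin d → ℝ) := {x ∈ Q | ∀ y ∈ Q, Fin.tail a ⬝ᵥ y ≤ Fin.tail a ⬝ᵥ x} with hF
  have hvF : toReal v ∈ F := ⟨hvQ, hmax⟩
  have hFe : IsExposed ℝ Q F := fun _ =>
    ⟨LinearMap.toContinuousLinearMap ((dotProductBilin ℝ ℝ) (Fin.tail a)), by simp [hF]⟩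
  have hN := hD F hFe ⟨_, hvF⟩
  set s : ℝ := Fin.tail a ⬝ᵥ toReal v + a 0 with hs_def
  have hFval : ∀ x ∈ F, Fin.tail a ⬝ᵥ x = Fin.tail a ⬝ᵥ toReal v := fun x hx =>
    le_antisymm (hmax x hx.1) (hx.2 _ hvQ)
  have hGmem : ∀ p, p ∈ G ↔ ∃ h, 1 ≤ h ∧ h ≤ H ∧ (∀ k, 1 ≤ k → k ≤ H → k * s ≤ h * s) ∧
      ∃ x ∈ F, p = pt h x := by
    intro p
    rw [hl]
    simp only [Set.mem_ofPred_eq, ha]
    constructor
    · rintro ⟨hp, hp'⟩
      obtain ⟨h, h1, h2, x, hx, rfl⟩ := mem_trunc.1 hp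
      have hxF : x ∈ F := by
        refine ⟨hx, fun y hy => ?_⟩
        have := hp' _ (mem_trunc.2 ⟨h, h1, h2, y, hy, rfl⟩)
        rw [dot_pt, dot_pt] at this
        have := le_of_mul_le_mul_left this (by linarith)
        linarith
      refine ⟨h, h1, h2, fun k k1 k2 => ?_, x, hxF, rfl⟩
      have := hp' _ (mem_trunc.2 ⟨k, k1, k2, _, hvQ, rfl⟩)
      rwa [dot_pt, dot_pt, hFval x hxF] at this
    · rintro ⟨h, h1, h2, h3, x, hx, rfl⟩
      refine ⟨mem_trunc.2 ⟨h, h1, h2, x, hx.1, rfl⟩, fun q hq => ?_⟩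
      obtain ⟨k, k1, k2, y, hy, rfl⟩ := mem_trunc.1 hq
      rw [dot_pt, dot_pt, hFval x hx]
      refine le_trans ?_ (h3 k k1 k2)
      exact mul_le_mul_of_nonneg_left (by linarith [hmax y hy]) (by linarith)
  have hNmem : ∀ w, w ∈ normalCone (trunc Q H) G ↔ Fin.tail w ∈ normalCone Q F ∧
      ∀ h, 1 ≤ h → h ≤ H → (∀ k, 1 ≤ k → k ≤ H → k * s ≤ h * s) → ∀ k, 1 ≤ k → k ≤ H →
        k * (Fin.tail w ⬝ᵥ toReal v + w 0) ≤ h * (Fin.tail w ⬝ᵥ toReal v + w 0) := by
    intro w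
    constructor
    · intro hw
      constructor
      · intro x hx y hy
        obtain ⟨p, hp⟩ := hGne
        obtain ⟨h, h1, h2, h3, -⟩ := (hGmem p).1 hp
        have := hw _ ((hGmem _).2 ⟨h, h1, h2, h3, x, hx, rfl⟩) _
          (mem_trunc.2 ⟨h, h1, h2, y, hy, rfl⟩)
        rw [dot_pt, dot_pt] at this
        have := le_of_mul_le_mul_left this (by linarith)
        linarith
      · intro h h1 h2 h3 k k1 k2
        have := hw _ ((hGmem _).2 ⟨h, h1, h2, h3, _, hvF, rfl⟩) _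
          (mem_trunc.2 ⟨k, k1, k2, _, hvQ, rfl⟩)
        rwa [dot_pt, dot_pt] at this
    · rintro ⟨hw, hw'⟩ p hp q hq
      obtain ⟨h, h1, h2, h3, x, hx, rfl⟩ := (hGmem p).1 hp
      obtain ⟨k, k1, k2, y, hy, rfl⟩ := mem_trunc.1 hq
      rw [dot_pt, dot_pt]
      have e1 : Fin.tail w ⬝ᵥ x = Fin.tail w ⬝ᵥ toReal v :=
        le_antisymm (hw _ hvF _ hx.1) (hw _ hx _ hvQ)
      rw [e1]
      refine le_trans ?_ (hw' h h1 h2 h3 k k1 k2)
      exact mul_le_mul_of_nonneg_left (by linarith [hw _ hvF _ hy]) (by linarith)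
  rcases lt_trichotomy s 0 with hs0 | hs0 | hs0
  · convert isUnimodularCone_lift hN v (-1) (by norm_num) False using 1
    ext w
    rw [hNmem]
    simp only [Set.mem_ofPred_eq, Int.cast_neg, Int.cast_one, false_imp_iff, and_true]
    refine and_congr_right fun _ => ⟨fun h => ?_, fun h0 h h1 h2 h3 k k1 k2 => ?_⟩
    · have := h 1 le_rfl hH.le (fun k k1 _ => by nlinarith) H hH.le le_rfl
      nlinarith
    · have := h3 1 le_rfl hH.le
      have h4 : h = 1 := by nlinarith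
      subst h4
      nlinarith
  · convert isUnimodularCone_lift hN v 1 (by norm_num) True using 1
    ext w
    rw [hNmem]
    simp only [Set.mem_ofPred_eq, Int.cast_one, true_imp_iff]
    refine and_congr_right fun _ => ⟨fun h => ?_, fun h0 h h1 h2 h3 k k1 k2 => ?_⟩
    · have h1 := h 1 le_rfl hH.le (fun k k1 _ => by simp [hs0]) H hH.le le_rfl
      have h2 := h H hH.le le_rfl (fun k k1 _ => by simp [hs0]) 1 le_rfl hH.le
      have h3 : Fin.tail w ⬝ᵥ toReal v + w 0 = 0 := by nlinarith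
      simp [h3]
    · simp [h0.2]
  · convert isUnimodularCone_lift hN v 1 (by norm_num) False using 1
    ext w
    rw [hNmem]
    simp only [Set.mem_ofPred_eq, Int.cast_one, false_imp_iff, and_true]
    refine and_congr_right fun _ => ⟨fun h => ?_, fun h0 h h1 h2 h3 k k1 k2 => ?_⟩
    · have := h H hH.le le_rfl (fun k _ k2 => by nlinarith) 1 le_rfl hH.le
      nlinarith
    · have := h3 H hH.le le_rfl
      have h4 : h = H := by nlinarith
      subst h4
      nlinarith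

theorem oda_of_width_bound (d : ℕ) (N : ℝ)
    (hN : ∀ P : Set (Fin (d + 1) → ℝ), IsLatticePolytope P → IsDelzant P →
      N ≤ latticeWidth P → IsIDP P) (Q : Set (Fin d → ℝ)) (hQ : IsLatticePolytope Q)
    (hD : IsDelzant Q) : IsIDP Q := by
  obtain ⟨H, hH1, hH2⟩ : ∃ H : ℤ, 1 < H ∧ N ≤ (H : ℝ) - 1 := by
    refine ⟨max 2 (⌈N⌉ + 1), by omega, ?_⟩
    have h1 : ((⌈N⌉ + 1 : ℤ) : ℝ) ≤ ((max 2 (⌈N⌉ + 1) : ℤ) : ℝ) := by
      exact_mod_cast le_max_right _ _
    have h2 := Int.le_ceil N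
    push_cast at h1 ⊢
    linarith
  have hH' : (1 : ℝ) < H := by exact_mod_cast hH1
  exact isIDP_of_trunc hH'.le (hN _ (isLatticePolytope_trunc hQ H hH1)
    (isDelzant_trunc hQ hD hH') (hH2.trans (le_latticeWidth_trunc hQ H hH1)))

end Pool.Agent.MP_8c130c_co

end
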