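import Mathlib
import Pool.Agent.Mg.F8c130c.G986728
import Pool.Agent.MP_8c130c_co.Defs

section

/-!
A finite subdivision check: for the matrix with rows `(1,a,p)`, `(-b,1,q)`, `(c,d,1)`, where
`|p| ≤ a ≤ 1`, `|q| ≤ b ≤ 1`, `|d| ≤ c ≤ 1`, one of seven vectors `u` is a combination of the rows
with coefficients of `ℓ¹`-norm at most `3`.
-/

namespace Pool.Agent.MP_8c130c_co.Beta

section defs
variable {R : Type} [CommRing R]

def det (s a p b q c d : R) : R := s * (s * s - q * d) + a * (q * c + b * s) + p * (-b * d - s * c)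

def c1 (s b q c d x y z : R) : R := (s * s - q * d) * x + (q * c + b * s) * y + (-b * d - s * c) * z

def c2 (s a p c d x y z : R) : R := (d * p - s * a) * x + (s * s - c * p) * y + (c * a - d * s) * z

def c3 (s a p b q x y z : R) : R := (a * q - p * s) * x + (-p * b - s * q) * y + (s * s + a * b) * z

def G [LinearOrder R] (s a p b q c d x y z : R) : R :=
  3 * det s a p b q c d -
    s * (|c1 s b q c d x y z| + |c2 s a p c d x y z| + |c3 s a p b q x y z|)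

end defs

lemma G_cast (s a p b q c d x y z : ℤ) :
    ((G s a p b q c d x y z : ℤ) : ℝ) = G (s : ℝ) a p b q c d x y z := by
  simp only [G, det, c1, c2, c3]
  push_cast
  ring

lemma conc {s l m n D1 D2 D3 X1 X2 X3 Y1 Y2 Y3 Z1 Z2 Z3 D X Y Z : ℝ} (hs : 0 ≤ s) (hl : 0 ≤ l)
    (hm : 0 ≤ m) (hn : 0 ≤ n) (h1 : 0 ≤ 3 * D1 - s * (|X1| + |Y1| + |Z1|))
    (h2 : 0 ≤ 3 * D2 - s * (|X2| + |Y2| + |Z2|)) (h3 : 0 ≤ 3 * D3 - s * (|X3| + |Y3| + |Z3|))
    (hD : D = l * D1 + m * D2 + n * D3) (hX : X = l * X1 + m * X2 + n * X3)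
    (hY : Y = l * Y1 + m * Y2 + n * Y3) (hZ : Z = l * Z1 + m * Z2 + n * Z3) :
    0 ≤ 3 * D - s * (|X| + |Y| + |Z|) := by
  have key : ∀ u v w : ℝ, |l * u + m * v + n * w| ≤ l * |u| + m * |v| + n * |w| := by
    intro u v w
    calc |l * u + m * v + n * w| ≤ |l * u| + |m * v| + |n * w| := abs_add_three _ _ _
      _ = l * |u| + m * |v| + n * |w| := by
        rw [abs_mul, abs_mul, abs_mul, abs_of_nonneg hl, abs_of_nonneg hm, abs_of_nonneg hn]
  have k1 := mul_le_mul_of_nonneg_left (key X1 X2 X3) hs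
  have k2 := mul_le_mul_of_nonneg_left (key Y1 Y2 Y3) hs
  have k3 := mul_le_mul_of_nonneg_left (key Z1 Z2 Z3) hs
  have k4 := mul_nonneg hl h1
  have k5 := mul_nonneg hm h2
  have k6 := mul_nonneg hn h3
  rw [hD, hX, hY, hZ]
  nlinarith

/-- A triangle with integer vertices. -/
structure Tri where
  x1 : ℤ
  y1 : ℤ
  x2 : ℤ
  y2 : ℤ
  x3 : ℤ
  y3 : ℤ

def Tri.Mem (T : Tri) (a p : ℝ) : Prop :=
  ∃ l m n : ℝ, 0 ≤ l ∧ 0 ≤ m ∧ 0 ≤ n ∧ l + m + n = 1 ∧
    a = l * T.x1 + m * T.x2 + n * T.x3 ∧ p = l * T.y1 + m * T.y2 + n * T.y3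

def Tri.all (T : Tri) (f : ℤ → ℤ → Bool) : Bool := f T.x1 T.y1 && f T.x2 T.y2 && f T.x3 T.y3

def Tri.rot (T : Tri) : Tri := ⟨T.x2, T.y2, T.x3, T.y3, T.x1, T.y1⟩

def Tri.rotn (T : Tri) : ℕ → Tri
  | 0 => T
  | 1 => T.rot
  | _ => T.rot.rot

def Tri.ok (T : Tri) : Bool :=
  decide (2 * ((T.x1 + T.x2) / 2) = T.x1 + T.x2) && decide (2 * ((T.y1 + T.y2) / 2) = T.y1 + T.y2)

def Tri.left (T : Tri) : Tri := ⟨T.x1, T.y1, (T.x1 + T.x2) / 2, (T.y1 + T.y2) / 2, T.x3, T.y3⟩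

def Tri.right (T : Tri) : Tri := ⟨(T.x1 + T.x2) / 2, (T.y1 + T.y2) / 2, T.x2, T.y2, T.x3, T.y3⟩

lemma Tri.mem_rot {T : Tri} {a p : ℝ} (h : T.Mem a p) : T.rot.Mem a p := by
  obtain ⟨l, m, n, hl, hm, hn, hs, ha, hp⟩ := h
  exact ⟨m, n, l, hm, hn, hl, by linarith, by simp only [Tri.rot]; linarith,
    by simp only [Tri.rot]; linarith⟩

lemma Tri.mem_rotn {T : Tri} {a p : ℝ} (h : T.Mem a p) (e : ℕ) : (T.rotn e).Mem a p := by
  match e with
  | 0 => exact h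
  | 1 => exact Tri.mem_rot h
  | _ + 2 => exact Tri.mem_rot (Tri.mem_rot h)

lemma Tri.mem_split {T : Tri} {a p : ℝ} (h : T.Mem a p) (hok : T.ok = true) :
    T.left.Mem a p ∨ T.right.Mem a p := by
  obtain ⟨l, m, n, hl, hm, hn, hs, ha, hp⟩ := h
  simp only [Tri.ok, Bool.and_eq_true, decide_eq_true_eq] at hok
  have hx : (2 : ℝ) * (((T.x1 + T.x2) / 2 : ℤ) : ℝ) = T.x1 + T.x2 := by exact_mod_cast hok.1
  have hy : (2 : ℝ) * (((T.y1 + T.y2) / 2 : ℤ) : ℝ) = T.y1 + T.y2 := by exact_mod_cast hok.2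
  rcases le_total m l with h | h
  · left
    refine ⟨l - m, 2 * m, n, by linarith, by linarith, hn, by linarith, ?_, ?_⟩
    · simp only [Tri.left]; linear_combination ha - m * hx
    · simp only [Tri.left]; linear_combination hp - m * hy
  · right
    refine ⟨2 * l, m - l, n, by linarith, by linarith, hn, by linarith, ?_, ?_⟩
    · simp only [Tri.right]; linear_combination ha - l * hx
    · simp only [Tri.right]; linear_combination hp - l * hy

/-- The seven vectors. -/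
def vec : ℕ → ℤ × ℤ × ℤ
  | 0 => (1, 1, 1)
  | 1 => (1, 1, -1)
  | 2 => (1, -1, 1)
  | 3 => (1, -1, -1)
  | 4 => (2, 0, 0)
  | 5 => (0, 2, 0)
  | _ => (0, 0, 2)

def leafOk (s : ℤ) (A B C : Tri) (u : ℤ × ℤ × ℤ) : Bool :=
  A.all fun a p => B.all fun b q => C.all fun c d =>
    decide (0 ≤ G s a p b q c d u.1 u.2.1 u.2.2)

lemma leaf_sound {s : ℤ} (hs : 0 ≤ s) {A B C : Tri} {u : ℤ × ℤ × ℤ}
    (h : leafOk s A B C u = true) {a p b q c d : ℝ} (hA : A.Mem a p) (hB : B.Mem b q)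
    (hC : C.Mem c d) : 0 ≤ G (s : ℝ) a p b q c d u.1 u.2.1 u.2.2 := by
  have hs' : (0 : ℝ) ≤ s := by exact_mod_cast hs
  have h3 : ∀ a p b q : ℤ, (C.all fun c d => decide (0 ≤ G s a p b q c d u.1 u.2.1 u.2.2)) = true →
      0 ≤ G (s : ℝ) a p b q c d u.1 u.2.1 u.2.2 := by
    intro a p b q h
    simp only [Tri.all, Bool.and_eq_true, decide_eq_true_eq] at h
    obtain ⟨⟨h1, h2⟩, h3⟩ := h
    have h1' := (Int.cast_nonneg (R := ℝ) h1)
    have h2' := (Int.cast_nonneg (R := ℝ) h2)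
    have h3' := (Int.cast_nonneg (R := ℝ) h3)
    rw [G_cast] at h1' h2' h3'
    obtain ⟨l, m, n, hl, hm, hn, hsum, rfl, rfl⟩ := hC
    obtain rfl : n = 1 - l - m := by linarith
    exact conc hs' hl hm hn h1' h2' h3' (by simp only [det]; ring) (by simp only [c1]; ring)
      (by simp only [c2]; ring) (by simp only [c3]; ring)
  have h2 : ∀ a p : ℤ, (B.all fun b q => C.all fun c d =>
      decide (0 ≤ G s a p b q c d u.1 u.2.1 u.2.2)) = true →
      0 ≤ G (s : ℝ) a p b q c d u.1 u.2.1 u.2.2 := by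
    intro a p h
    rw [Tri.all, Bool.and_eq_true, Bool.and_eq_true] at h
    obtain ⟨⟨k1, k2⟩, k3⟩ := h
    obtain ⟨l, m, n, hl, hm, hn, hsum, rfl, rfl⟩ := hB
    obtain rfl : n = 1 - l - m := by linarith
    exact conc hs' hl hm hn (h3 _ _ _ _ k1) (h3 _ _ _ _ k2) (h3 _ _ _ _ k3)
      (by simp only [det]; ring) (by simp only [c1]; ring)
      (by simp only [c2]; ring) (by simp only [c3]; ring)
  rw [leafOk, Tri.all, Bool.and_eq_true, Bool.and_eq_true] at h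
  obtain ⟨⟨k1, k2⟩, k3⟩ := h
  obtain ⟨l, m, n, hl, hm, hn, hsum, rfl, rfl⟩ := hA
  obtain rfl : n = 1 - l - m := by linarith
  exact conc hs' hl hm hn (h2 _ _ k1) (h2 _ _ k2) (h2 _ _ k3)
    (by simp only [det]; ring) (by simp only [c1]; ring)
    (by simp only [c2]; ring) (by simp only [c3]; ring)

/-- A subdivision tree. -/
inductive Tree where
  | leaf : ℕ → Tree
  | split : ℕ → ℕ → Tree → Tree → Tree

def check (s : ℤ) : Tree → Tri → Tri → Tri → Bool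
  | .leaf k, A, B, C => leafOk s A B C (vec k)
  | .split 0 e l r, A, B, C =>
      (A.rotn e).ok && check s l (A.rotn e).left B C && check s r (A.rotn e).right B C
  | .split 1 e l r, A, B, C =>
      (B.rotn e).ok && check s l A (B.rotn e).left C && check s r A (B.rotn e).right C
  | .split (_ + 2) e l r, A, B, C =>
      (C.rotn e).ok && check s l A B (C.rotn e).left && check s r A B (C.rotn e).right

lemma check_sound {s : ℤ} (hs : 0 ≤ s) {a p b q c d : ℝ} (t : Tree) :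
    ∀ A B C : Tri, check s t A B C = true → A.Mem a p → B.Mem b q → C.Mem c d →
      ∃ k, 0 ≤ G (s : ℝ) a p b q c d (vec k).1 (vec k).2.1 (vec k).2.2 := by
  induction t with
  | leaf k => exact fun A B C h hA hB hC => ⟨k, leaf_sound hs h hA hB hC⟩
  | split i e l r ihl ihr =>
    intro A B C h hA hB hC
    match i with
    | 0 =>
      simp only [check, Bool.and_eq_true] at h
      rcases Tri.mem_split (Tri.mem_rotn hA e) h.1.1 with h' | h'
      · exact ihl _ _ _ h.1.2 h' hB hC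
      · exact ihr _ _ _ h.2 h' hB hC
    | 1 =>
      simp only [check, Bool.and_eq_true] at h
      rcases Tri.mem_split (Tri.mem_rotn hB e) h.1.1 with h' | h'
      · exact ihl _ _ _ h.1.2 hA h' hC
      · exact ihr _ _ _ h.2 hA h' hC
    | _ + 2 =>
      simp only [check, Bool.and_eq_true] at h
      rcases Tri.mem_split (Tri.mem_rotn hC e) h.1.1 with h' | h'
      · exact ihl _ _ _ h.1.2 hA hB h'
      · exact ihr _ _ _ h.2 hA hB h'

def theTree : Tree :=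
  (.split 2 0 (.split 2 2 (.split 1 0 (.split 0 0 (.split 0 2 (.split 0 2 (.leaf 0) (.split 0 1
  (.split 1 2 (.split 1 2 (.split 2 2 (.split 0 2 (.leaf 0) (.split 0 1 (.leaf 4) (.split 1 2
  (.leaf 0) (.split 1 1 (.split 1 2 (.leaf 0) (.split 0 1 (.split 0 2 (.leaf 4) (.leaf 0))
  (.leaf 4))) (.leaf 0))))) (.leaf 4)) (.split 2 2 (.leaf 0) (.split 1 1 (.split 2 1 (.split 0
  2 (.leaf 0) (.split 0 1 (.leaf 4) (.split 1 2 (.split 2 2 (.leaf 0) (.leaf 4)) (.leaf 0))))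
  (.leaf 0)) (.leaf 4)))) (.leaf 4)) (.leaf 0))) (.leaf 0)) (.split 1 2 (.split 0 1 (.split 2 2
  (.leaf 0) (.leaf 1)) (.split 1 2 (.split 2 2 (.leaf 4) (.split 0 1 (.split 0 2 (.split 0 2
  (.split 1 2 (.split 1 2 (.leaf 4) (.leaf 3)) (.leaf 4)) (.leaf 3)) (.leaf 4)) (.split 0 1
  (.leaf 0) (.split 0 1 (.leaf 3) (.leaf 0))))) (.split 2 2 (.leaf 0) (.split 2 1 (.split 0 1
  (.split 0 2 (.split 1 1 (.leaf 5) (.split 1 1 (.split 2 2 (.leaf 0) (.leaf 3)) (.leaf 5)))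
  (.leaf 4)) (.split 2 2 (.leaf 0) (.leaf 6))) (.leaf 0))))) (.leaf 3))) (.split 0 0 (.split 0
  2 (.split 0 2 (.leaf 0) (.split 1 1 (.split 1 2 (.split 1 2 (.leaf 2) (.split 1 1 (.split 0 1
  (.split 1 2 (.leaf 2) (.split 2 2 (.split 2 2 (.split 2 2 (.split 2 2 (.split 0 2 (.leaf 0)
  (.split 0 1 (.leaf 4) (.leaf 0))) (.leaf 4)) (.leaf 0)) (.split 0 2 (.split 2 1 (.leaf 0)
  (.split 2 1 (.leaf 2) (.leaf 0))) (.split 0 1 (.leaf 4) (.split 0 1 (.split 0 2 (.leaf 4)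
  (.leaf 0)) (.leaf 4))))) (.leaf 4))) (.leaf 0)) (.leaf 2))) (.leaf 2)) (.split 0 1 (.split 2
  2 (.split 0 2 (.leaf 0) (.split 0 1 (.leaf 4) (.split 1 1 (.split 1 2 (.leaf 2) (.leaf 0))
  (.split 1 1 (.split 0 1 (.split 0 2 (.split 2 2 (.leaf 4) (.split 2 1 (.leaf 0) (.leaf 4)))
  (.leaf 0)) (.leaf 4)) (.leaf 2))))) (.split 1 1 (.split 1 2 (.leaf 2) (.split 1 1 (.leaf 5)
  (.leaf 2))) (.split 1 1 (.split 2 1 (.leaf 2) (.split 2 1 (.leaf 4) (.leaf 2))) (.leaf 2))))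
  (.leaf 0)))) (.leaf 0)) (.split 1 1 (.split 0 1 (.leaf 2) (.split 0 1 (.split 1 2 (.split 1 2
  (.leaf 2) (.leaf 4)) (.leaf 2)) (.leaf 2))) (.split 0 1 (.split 2 2 (.leaf 0) (.leaf 1))
  (.split 0 1 (.split 1 1 (.split 1 2 (.leaf 2) (.leaf 5)) (.split 1 1 (.split 0 2 (.leaf 2)
  (.leaf 4)) (.leaf 2))) (.split 1 1 (.split 1 2 (.leaf 2) (.leaf 5)) (.leaf 2))))))) (.leaf
  0)) (.split 0 0 (.split 1 0 (.split 0 2 (.split 1 2 (.split 2 1 (.split 2 2 (.split 2 2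
  (.leaf 2) (.split 0 2 (.leaf 0) (.split 0 1 (.split 2 1 (.split 2 2 (.leaf 2) (.split 1 2
  (.split 0 2 (.leaf 0) (.split 0 1 (.leaf 4) (.split 1 2 (.leaf 0) (.split 1 1 (.split 1 2
  (.leaf 0) (.split 2 1 (.split 2 2 (.leaf 2) (.leaf 0)) (.leaf 2))) (.leaf 0))))) (.leaf 0)))
  (.leaf 2)) (.leaf 0)))) (.leaf 2)) (.split 0 2 (.split 1 2 (.split 1 2 (.leaf 0) (.split 2 1
  (.leaf 2) (.split 2 1 (.leaf 0) (.leaf 2)))) (.leaf 0)) (.split 1 2 (.split 2 1 (.split 1 2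
  (.split 0 1 (.split 2 2 (.leaf 2) (.leaf 4)) (.leaf 0)) (.leaf 2)) (.split 2 1 (.split 0 1
  (.split 1 2 (.split 0 2 (.leaf 0) (.split 0 1 (.leaf 4) (.leaf 0))) (.split 2 2 (.leaf 2)
  (.split 2 1 (.split 0 2 (.leaf 0) (.split 0 1 (.leaf 4) (.split 1 1 (.split 1 2 (.leaf 0)
  (.split 0 1 (.split 0 2 (.leaf 4) (.leaf 0)) (.leaf 4))) (.leaf 0)))) (.leaf 2)))) (.leaf 0))
  (.leaf 2))) (.split 0 1 (.split 2 1 (.split 2 2 (.leaf 2) (.split 1 1 (.split 2 1 (.split 2 2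
  (.split 0 2 (.split 1 2 (.leaf 2) (.leaf 0)) (.leaf 2)) (.leaf 6)) (.split 0 2 (.split 1 2
  (.leaf 2) (.leaf 0)) (.leaf 2))) (.leaf 4))) (.split 2 1 (.split 1 1 (.leaf 2) (.split 1 1
  (.leaf 0) (.leaf 2))) (.leaf 2))) (.leaf 0))))) (.split 2 1 (.split 2 2 (.split 2 2 (.leaf 2)
  (.split 0 2 (.leaf 0) (.split 0 1 (.leaf 4) (.leaf 0)))) (.leaf 2)) (.split 2 1 (.leaf 3)
  (.split 0 2 (.split 1 1 (.leaf 0) (.split 2 1 (.leaf 0) (.leaf 2))) (.split 0 1 (.leaf 4)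
  (.split 1 1 (.leaf 0) (.split 2 1 (.leaf 0) (.split 2 1 (.leaf 2) (.leaf 0))))))))) (.leaf
  0)) (.split 1 1 (.leaf 2) (.split 2 1 (.leaf 2) (.split 1 1 (.split 2 1 (.split 1 2 (.leaf 2)
  (.split 0 2 (.split 0 2 (.leaf 5) (.split 2 2 (.leaf 2) (.split 0 1 (.split 0 2 (.leaf 5)
  (.split 0 1 (.leaf 4) (.leaf 5))) (.leaf 0)))) (.leaf 0))) (.leaf 2)) (.leaf 2))))) (.split 1
  0 (.split 1 2 (.split 2 1 (.split 0 1 (.leaf 2) (.split 0 1 (.leaf 4) (.leaf 2))) (.split 0 1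
  (.split 1 2 (.split 2 1 (.leaf 1) (.leaf 2)) (.leaf 5)) (.split 1 2 (.split 2 1 (.split 0 1
  (.split 0 2 (.split 1 2 (.split 2 2 (.leaf 2) (.split 2 1 (.leaf 6) (.leaf 2))) (.leaf 2))
  (.leaf 4)) (.leaf 1)) (.leaf 4)) (.split 0 1 (.split 0 2 (.split 2 1 (.split 1 1 (.leaf 1)
  (.split 2 2 (.leaf 2) (.split 2 1 (.leaf 6) (.leaf 2)))) (.leaf 2)) (.leaf 4)) (.split 2 1
  (.split 1 1 (.leaf 5) (.leaf 1)) (.leaf 2)))))) (.leaf 3)) (.split 1 1 (.leaf 2) (.split 2 1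
  (.leaf 2) (.split 1 1 (.split 2 1 (.split 0 1 (.split 0 2 (.split 2 2 (.split 1 2 (.leaf 2)
  (.split 0 2 (.leaf 1) (.leaf 5))) (.leaf 1)) (.leaf 1)) (.split 1 2 (.leaf 2) (.split 0 1
  (.split 2 2 (.leaf 2) (.split 0 2 (.leaf 1) (.split 0 1 (.leaf 4) (.split 0 1 (.leaf 5)
  (.leaf 4))))) (.split 0 1 (.leaf 5) (.leaf 1))))) (.leaf 2)) (.leaf 2)))))))

def T0 : Tri := ⟨64, 64, 64, -64, 0, 0⟩

lemma check_theTree : check 64 theTree T0 T0 T0 = true := by decide +kernel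

lemma mem_T0 {a p : ℝ} (h1 : |p| ≤ a) (h2 : a ≤ 1) : T0.Mem (64 * a) (64 * p) := by
  have := abs_le.mp h1
  refine ⟨(a + p) / 2, (a - p) / 2, 1 - a, by linarith, by linarith, by linarith, by ring, ?_, ?_⟩
  · simp only [T0]; push_cast; ring
  · simp only [T0]; push_cast; ring

theorem beta {a p b q c d : ℝ} (h1 : |p| ≤ a) (h2 : a ≤ 1) (h3 : |q| ≤ b) (h4 : b ≤ 1)
    (h5 : |d| ≤ c) (h6 : c ≤ 1) :
    ∃ k, 0 ≤ G (1 : ℝ) a p b q c d (vec k).1 (vec k).2.1 (vec k).2.2 := by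
  obtain ⟨k, hk⟩ := check_sound (by norm_num) theTree T0 T0 T0 check_theTree (mem_T0 h1 h2)
    (mem_T0 h3 h4) (mem_T0 h5 h6)
  refine ⟨k, ?_⟩
  generalize ((vec k).1 : ℝ) = x at hk ⊢
  generalize ((vec k).2.1 : ℝ) = y at hk ⊢
  generalize ((vec k).2.2 : ℝ) = z at hk ⊢
  have e0 : det ((64 : ℤ) : ℝ) (64 * a) (64 * p) (64 * b) (64 * q) (64 * c) (64 * d) =
      262144 * det 1 a p b q c d := by simp only [det]; push_cast; ring
  have e1 : c1 ((64 : ℤ) : ℝ) (64 * b) (64 * q) (64 * c) (64 * d) x y z =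
      4096 * c1 1 b q c d x y z := by simp only [c1]; push_cast; ring
  have e2 : c2 ((64 : ℤ) : ℝ) (64 * a) (64 * p) (64 * c) (64 * d) x y z =
      4096 * c2 1 a p c d x y z := by simp only [c2]; push_cast; ring
  have e3 : c3 ((64 : ℤ) : ℝ) (64 * a) (64 * p) (64 * b) (64 * q) x y z =
      4096 * c3 1 a p b q x y z := by simp only [c3]; push_cast; ring
  rw [G, e0, e1, e2, e3, abs_mul, abs_mul, abs_mul] at hk
  rw [G]
  norm_num at hk ⊢
  linarith

end Pool.Agent.MP_8c130c_co.Beta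

end

section

/-!
The core inequality: a symmetric convex set in `ℝ³` which is cut off from the points `± e_i` and
`(±1,±1,±1)` by functionals bounded by one on the `e_i` cannot be wide in all the directions of
the body-centred cubic lattice.
-/

namespace Pool.Agent.MP_8c130c_co.Core

structure Cfg (K : ℝ → ℝ → ℝ → Prop) (a12 a13 a21 a23 a31 a32 : ℝ) : Prop where
  comb : ∀ x1 y1 z1 x2 y2 z2 x3 y3 z3 l m n : ℝ, K x1 y1 z1 → K x2 y2 z2 → K x3 y3 z3 →
    |l| + |m| + |n| ≤ 1 →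
    K (l * x1 + m * x2 + n * x3) (l * y1 + m * y2 + n * y3) (l * z1 + m * z2 + n * z3)
  wide : ∀ i j k : ℤ, (i ≠ 0 ∨ j ≠ 0 ∨ k ≠ 0) → i % 2 = j % 2 → j % 2 = k % 2 →
    ∃ x y z, K x y z ∧ 3 ≤ i * x + j * y + k * z
  r1 : ∀ x y z, K x y z → |x + a12 * y + a13 * z| < 1
  r2 : ∀ x y z, K x y z → |a21 * x + y + a23 * z| < 1
  r3 : ∀ x y z, K x y z → |a31 * x + a32 * y + z| < 1
  b12 : |a12| ≤ 1
  b13 : |a13| ≤ 1
  b21 : |a21| ≤ 1
  b23 : |a23| ≤ 1
  b31 : |a31| ≤ 1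
  b32 : |a32| ≤ 1
  corner : ∀ ρ σ τ : ℤ, (ρ = 1 ∨ ρ = -1) → (σ = 1 ∨ σ = -1) → (τ = 1 ∨ τ = -1) →
    ∃ c1 c2 c3 : ℝ, |c1| ≤ 1 ∧ |c2| ≤ 1 ∧ |c3| ≤ 1 ∧ 1 ≤ ρ * c1 + σ * c2 + τ * c3 ∧
      ∀ x y z, K x y z → |c1 * x + c2 * y + c3 * z| < 1

variable {K : ℝ → ℝ → ℝ → Prop} {a12 a13 a21 a23 a31 a32 : ℝ}

lemma Cfg.swap12 (h : Cfg K a12 a13 a21 a23 a31 a32) :
    Cfg (fun x y z => K y x z) a21 a23 a12 a13 a32 a31 where
  comb := fun x1 y1 z1 x2 y2 z2 x3 y3 z3 l m n h1 h2 h3 h4 =>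
    h.comb y1 x1 z1 y2 x2 z2 y3 x3 z3 l m n h1 h2 h3 h4
  wide := fun i j k h0 h1 h2 => by
    obtain ⟨x, y, z, hK, hw⟩ := h.wide j i k (by tauto) (by omega) (by omega)
    exact ⟨y, x, z, hK, by linarith⟩
  r1 := fun x y z hK => by have := h.r2 _ _ _ hK; convert this using 2; ring
  r2 := fun x y z hK => by have := h.r1 _ _ _ hK; convert this using 2; ring
  r3 := fun x y z hK => by have := h.r3 _ _ _ hK; convert this using 2; ring
  b12 := h.b21
  b13 := h.b23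
  b21 := h.b12
  b23 := h.b13
  b31 := h.b32
  b32 := h.b31
  corner := fun ρ σ τ h1 h2 h3 => by
    obtain ⟨c1, c2, c3, k1, k2, k3, k4, k5⟩ := h.corner σ ρ τ h2 h1 h3
    refine ⟨c2, c1, c3, k2, k1, k3, by linarith, fun x y z hK => ?_⟩
    have := k5 _ _ _ hK; convert this using 2; ring

lemma Cfg.swap23 (h : Cfg K a12 a13 a21 a23 a31 a32) :
    Cfg (fun x y z => K x z y) a13 a12 a31 a32 a21 a23 where
  comb := fun x1 y1 z1 x2 y2 z2 x3 y3 z3 l m n h1 h2 h3 h4 =>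
    h.comb x1 z1 y1 x2 z2 y2 x3 z3 y3 l m n h1 h2 h3 h4
  wide := fun i j k h0 h1 h2 => by
    obtain ⟨x, y, z, hK, hw⟩ := h.wide i k j (by tauto) (by omega) (by omega)
    exact ⟨x, z, y, hK, by linarith⟩
  r1 := fun x y z hK => by have := h.r1 _ _ _ hK; convert this using 2; ring
  r2 := fun x y z hK => by have := h.r3 _ _ _ hK; convert this using 2; ring
  r3 := fun x y z hK => by have := h.r2 _ _ _ hK; convert this using 2; ring
  b12 := h.b13
  b13 := h.b12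
  b21 := h.b31
  b23 := h.b32
  b31 := h.b21
  b32 := h.b23
  corner := fun ρ σ τ h1 h2 h3 => by
    obtain ⟨c1, c2, c3, k1, k2, k3, k4, k5⟩ := h.corner ρ τ σ h1 h3 h2
    refine ⟨c1, c3, c2, k1, k3, k2, by linarith, fun x y z hK => ?_⟩
    have := k5 _ _ _ hK; convert this using 2; ring

lemma Cfg.flipZ (h : Cfg K a12 a13 a21 a23 a31 a32) :
    Cfg (fun x y z => K x y (-z)) a12 (-a13) a21 (-a23) (-a31) (-a32) where
  comb := fun x1 y1 z1 x2 y2 z2 x3 y3 z3 l m n h1 h2 h3 h4 => by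
    have := h.comb x1 y1 (-z1) x2 y2 (-z2) x3 y3 (-z3) l m n h1 h2 h3 h4
    convert this using 1; ring
  wide := fun i j k h0 h1 h2 => by
    obtain ⟨x, y, z, hK, hw⟩ := h.wide i j (-k) (by omega) (by omega) (by omega)
    refine ⟨x, y, -z, by simpa using hK, ?_⟩
    push_cast at hw; linarith
  r1 := fun x y z hK => by have := h.r1 _ _ _ hK; convert this using 2; ring
  r2 := fun x y z hK => by have := h.r2 _ _ _ hK; convert this using 2; ring
  r3 := fun x y z hK => by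
    have := h.r3 _ _ _ hK; rw [← abs_neg] at this; convert this using 2; ring
  b12 := h.b12
  b13 := by simpa using h.b13
  b21 := h.b21
  b23 := by simpa using h.b23
  b31 := by simpa using h.b31
  b32 := by simpa using h.b32
  corner := fun ρ σ τ h1 h2 h3 => by
    obtain ⟨c1, c2, c3, k1, k2, k3, k4, k5⟩ := h.corner ρ σ (-τ) h1 h2 (by omega)
    refine ⟨c1, c2, -c3, k1, k2, by simpa using k3, by push_cast at k4; linarith,
      fun x y z hK => ?_⟩
    have := k5 _ _ _ hK; convert this using 2; ring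

lemma Cfg.flipY (h : Cfg K a12 a13 a21 a23 a31 a32) :
    Cfg (fun x y z => K x (-y) z) (-a12) a13 (-a21) (-a23) a31 (-a32) :=
  h.swap23.flipZ.swap23

lemma Cfg.neg (h : Cfg K a12 a13 a21 a23 a31 a32) {x y z : ℝ} (hK : K x y z) :
    K (-x) (-y) (-z) := by
  have := h.comb x y z x y z x y z (-1) 0 0 hK hK hK (by simp)
  simpa using this

lemma plank3 (a b c d e f g h i : ℝ) (ha : 1 ≤ a) (he : 1 ≤ e) (hi : 1 ≤ i) :
    ∃ l m n : ℝ, |l| + |m| + |n| ≤ 3 ∧ 1 ≤ |a * l + b * m + c * n| ∧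
      1 ≤ |d * l + e * m + f * n| ∧ 1 ≤ |g * l + h * m + i * n| := by
  obtain ⟨l, hl, hA⟩ := Ball.plank !![a, b, c; d, e, f; g, h, i]
    (by intro i; fin_cases i <;> simpa)
  refine ⟨l 0, l 1, l 2, ?_, ?_, ?_, ?_⟩
  · simpa [Fin.sum_univ_three] using hl
  · simpa [Matrix.mulVec, dotProduct, Fin.sum_univ_three] using hA 0
  · simpa [Matrix.mulVec, dotProduct, Fin.sum_univ_three] using hA 1
  · simpa [Matrix.mulVec, dotProduct, Fin.sum_univ_three] using hA 2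

lemma Cfg.cube (h : Cfg K a12 a13 a21 a23 a31 a32) (h1 : a12 + a13 ≤ 0) (h2 : a21 + a23 ≤ 0)
    (h3 : a31 + a32 ≤ 0) : False := by
  obtain ⟨x1, y1, z1, k1, w1⟩ := h.wide 1 (-1) (-1) (by simp) (by simp) (by simp)
  obtain ⟨x2, y2, z2, k2, w2⟩ := h.wide (-1) 1 (-1) (by simp) (by simp) (by simp)
  obtain ⟨x3, y3, z3, k3, w3⟩ := h.wide (-1) (-1) 1 (by simp) (by simp) (by simp)
  push_cast at w1 w2 w3
  obtain ⟨l0, l1, l2, hl, e0, e1, e2⟩ := plank3 ((x1 - y1 - z1) / 3) ((x2 - y2 - z2) / 3)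
    ((x3 - y3 - z3) / 3) ((-x1 + y1 - z1) / 3) ((-x2 + y2 - z2) / 3) ((-x3 + y3 - z3) / 3)
    ((-x1 - y1 + z1) / 3) ((-x2 - y2 + z2) / 3) ((-x3 - y3 + z3) / 3) (by linarith) (by linarith)
    (by linarith)
  have hl' : |l0 / 3| + |l1 / 3| + |l2 / 3| ≤ 1 := by
    rw [abs_div, abs_div, abs_div]
    norm_num
    linarith
  have hK := h.comb _ _ _ _ _ _ _ _ _ _ _ _ k1 k2 k3 hl'
  set x := l0 / 3 * x1 + l1 / 3 * x2 + l2 / 3 * x3 with hx
  set y := l0 / 3 * y1 + l1 / 3 * y2 + l2 / 3 * y3 with hy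
  set z := l0 / 3 * z1 + l1 / 3 * z2 + l2 / 3 * z3 with hz
  have f0 : 1 ≤ |x - y - z| := by convert e0 using 2; rw [hx, hy, hz]; ring
  have f1 : 1 ≤ |-x + y - z| := by convert e1 using 2; rw [hx, hy, hz]; ring
  have f2 : 1 ≤ |-x - y + z| := by convert e2 using 2; rw [hx, hy, hz]; ring
  clear_value x y z
  have b12 := abs_le.mp h.b12
  have b13 := abs_le.mp h.b13
  have b21 := abs_le.mp h.b21
  have b23 := abs_le.mp h.b23
  have b31 := abs_le.mp h.b31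
  have b32 := abs_le.mp h.b32
  have key : ∀ x y z, K x y z → 1 ≤ x - y - z → 1 ≤ |-x + y - z| → 1 ≤ |-x - y + z| → False := by
    intro x y z hK f0 f1 f2
    have r1 := abs_lt.mp (h.r1 _ _ _ hK)
    have r2 := abs_lt.mp (h.r2 _ _ _ hK)
    have r3 := abs_lt.mp (h.r3 _ _ _ hK)
    rcases le_abs'.mp f1 with f1 | f1 <;> rcases le_abs'.mp f2 with f2 | f2
    · linarith [mul_nonneg (neg_nonneg.mpr h1) (sub_nonneg.mpr f0),
        mul_nonneg (show 0 ≤ 1 + a13 by linarith) (sub_nonneg.mpr f1),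
        mul_nonneg (show 0 ≤ 1 + a12 by linarith) (sub_nonneg.mpr f2)]
    · linarith [mul_nonneg (neg_nonneg.mpr h2) (sub_nonneg.mpr f1),
        mul_nonneg (show 0 ≤ 1 + a23 by linarith) (sub_nonneg.mpr f0),
        mul_nonneg (show 0 ≤ 1 + a21 by linarith) (sub_nonneg.mpr f2)]
    · linarith [mul_nonneg (neg_nonneg.mpr h3) (sub_nonneg.mpr f2),
        mul_nonneg (show 0 ≤ 1 + a32 by linarith) (sub_nonneg.mpr f0),
        mul_nonneg (show 0 ≤ 1 + a31 by linarith) (sub_nonneg.mpr f1)]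
    · obtain ⟨c1, c2, c3, k1, k2, k3, k4, k5⟩ := h.corner 1 1 1 (by simp) (by simp) (by simp)
      have k6 := abs_lt.mp (k5 _ _ _ hK)
      have k1 := abs_le.mp k1
      have k2 := abs_le.mp k2
      have k3 := abs_le.mp k3
      push_cast at k4
      linarith [mul_nonneg (show 0 ≤ c2 + c3 by linarith) (sub_nonneg.mpr f0),
        mul_nonneg (show 0 ≤ c1 + c3 by linarith) (sub_nonneg.mpr f1),
        mul_nonneg (show 0 ≤ c1 + c2 by linarith) (sub_nonneg.mpr f2)]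
  rcases le_abs'.mp f0 with f0 | f0
  · refine key _ _ _ (h.neg hK) (by linarith) ?_ ?_
    · rw [← abs_neg] at f1; convert f1 using 2; ring
    · rw [← abs_neg] at f2; convert f2 using 2; ring
  · exact key _ _ _ hK f0 f1 f2

lemma strict_aux {X Y Z s t u D w : ℝ} (hs : |s| < 1) (ht : |t| < 1) (hu : |u| < 1)
    (hD : 0 < D) (hw : 3 ≤ w) (hid : D * w = X * s + Y * t + Z * u)
    (hN : |X| + |Y| + |Z| ≤ 3 * D) : False := by
  have h1 : X * s ≤ |X| * |s| := by rw [← abs_mul]; exact le_abs_self _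
  have h2 : Y * t ≤ |Y| * |t| := by rw [← abs_mul]; exact le_abs_self _
  have h3 : Z * u ≤ |Z| * |u| := by rw [← abs_mul]; exact le_abs_self _
  have h4 : 3 * D ≤ D * w := by nlinarith
  have h5 : 0 ≤ |X| * (1 - |s|) := mul_nonneg (abs_nonneg _) (by linarith)
  have h6 : 0 ≤ |Y| * (1 - |t|) := mul_nonneg (abs_nonneg _) (by linarith)
  have h7 : 0 ≤ |Z| * (1 - |u|) := mul_nonneg (abs_nonneg _) (by linarith)
  have h8 : |X| * (1 - |s|) = 0 := by linarith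
  have h9 : |Y| * (1 - |t|) = 0 := by linarith
  have h10 : |Z| * (1 - |u|) = 0 := by linarith
  have hX : |X| = 0 := (mul_eq_zero.mp h8).resolve_right (by linarith)
  have hY : |Y| = 0 := (mul_eq_zero.mp h9).resolve_right (by linarith)
  have hZ : |Z| = 0 := (mul_eq_zero.mp h10).resolve_right (by linarith)
  rw [hX] at h1; rw [hY] at h2; rw [hZ] at h3
  linarith

lemma Cfg.cyc (h : Cfg K a12 a13 a21 a23 a31 a32) (h1 : |a13| ≤ a12) (h2 : |a21| ≤ a23)
    (h3 : |a32| ≤ a31) : False := by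
  have h1 := abs_le.mp h1
  have h2 := abs_le.mp h2
  have h3 := abs_le.mp h3
  have b12 := abs_le.mp h.b12
  have b13 := abs_le.mp h.b13
  have b21 := abs_le.mp h.b21
  have b23 := abs_le.mp h.b23
  have b31 := abs_le.mp h.b31
  have b32 := abs_le.mp h.b32
  rcases le_or_gt a23 a21 with hb | hb
  · exact h.flipY.flipZ.cube (by linarith) (by linarith) (by linarith)
  rcases le_or_gt a31 a32 with hc | hc
  · exact h.flipY.cube (by linarith) (by linarith) (by linarith)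
  obtain ⟨x, y, z, hK, hw⟩ := h.wide 1 1 1 (by simp) (by simp) (by simp)
  push_cast at hw
  have m1 : 0 < (1 - a31) * (1 - a21) + (a23 - a21) * (a31 - a32) := by
    have := mul_nonneg (show 0 ≤ 1 - a31 by linarith) (show 0 ≤ 1 - a21 by linarith)
    have := mul_pos (sub_pos.mpr hb) (sub_pos.mpr hc)
    linarith
  have m2 : 0 ≤ (1 - a12) * (1 - a32) + (a31 - a32) * (a12 - a13) := by
    have := mul_nonneg (show 0 ≤ 1 - a12 by linarith) (show 0 ≤ 1 - a32 by linarith)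
    have := mul_nonneg (show 0 ≤ a31 - a32 by linarith) (show 0 ≤ a12 - a13 by linarith)
    linarith
  have m3 : 0 ≤ (1 - a23) * (1 - a13) + (a12 - a13) * (a23 - a21) := by
    have := mul_nonneg (show 0 ≤ 1 - a23 by linarith) (show 0 ≤ 1 - a13 by linarith)
    have := mul_nonneg (show 0 ≤ a12 - a13 by linarith) (show 0 ≤ a23 - a21 by linarith)
    linarith
  set μ1 := (1 - a31) * (1 - a21) + (a23 - a21) * (a31 - a32) with hμ1
  set μ2 := (1 - a12) * (1 - a32) + (a31 - a32) * (a12 - a13) with hμ2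
  set μ3 := (1 - a23) * (1 - a13) + (a12 - a13) * (a23 - a21) with hμ3
  set D := 1 - a23 * a32 - a12 * a21 - a13 * a31 + a12 * a23 * a31 + a13 * a21 * a32 with hD
  have hsum : 3 * D = μ1 * (1 + a12 + a13) + μ2 * (a21 + 1 + a23) + μ3 * (a31 + a32 + 1) := by
    rw [hD, hμ1, hμ2, hμ3]; ring
  have hN : μ1 + μ2 + μ3 ≤ 3 * D := by
    have := mul_nonneg m1.le (show 0 ≤ a12 + a13 by linarith)
    have := mul_nonneg m2 (show 0 ≤ a21 + a23 by linarith)
    have := mul_nonneg m3 (show 0 ≤ a31 + a32 by linarith)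
    linarith
  refine strict_aux (X := μ1) (Y := μ2) (Z := μ3) (D := D) (h.r1 _ _ _ hK) (h.r2 _ _ _ hK)
    (h.r3 _ _ _ hK) (by linarith) hw ?_ ?_
  · rw [hD, hμ1, hμ2, hμ3]; ring
  · rw [abs_of_pos m1, abs_of_nonneg m2, abs_of_nonneg m3]; exact hN

lemma Cfg.beta (h : Cfg K a12 a13 a21 a23 a31 a32) (h1 : |a13| ≤ a12) (h2 : |a23| ≤ -a21)
    (h3 : |a32| ≤ a31) : False := by
  have b12 := abs_le.mp h.b12
  have b13 := abs_le.mp h.b13
  have b21 := abs_le.mp h.b21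
  have b23 := abs_le.mp h.b23
  have b31 := abs_le.mp h.b31
  have b32 := abs_le.mp h.b32
  obtain ⟨k, hk⟩ := Beta.beta h1 b12.2 h2 (by linarith) h3 b31.2
  have h1 := abs_le.mp h1
  have h2 := abs_le.mp h2
  have h3 := abs_le.mp h3
  rcases le_or_gt a12 a13 with hp | hp
  · exact h.flipZ.cube (by linarith) (by linarith) (by linarith)
  rcases le_or_gt a23 a21 with hq | hq
  · exact h.flipY.flipZ.cube (by linarith) (by linarith) (by linarith)
  have hD : 0 < Beta.det 1 a12 a13 (-a21) a23 a31 a32 := by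
    have d0 : 0 < 1 + a12 * -a21 := by
      have := mul_nonneg (show 0 ≤ a12 by linarith) (show 0 ≤ -a21 by linarith)
      linarith
    have d1 : 0 < (1 - a13) * (1 - a23) + (a12 - a13) * (-a21 + a23) := by
      have := mul_nonneg (show 0 ≤ 1 - a13 by linarith) (show 0 ≤ 1 - a23 by linarith)
      have := mul_pos (show 0 < a12 - a13 by linarith) (show 0 < -a21 + a23 by linarith)
      linarith
    have d2 : 0 < (1 - a13) * (1 + a23) + (a12 + a13) * (-a21 + a23) := by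
      have := mul_pos (show 0 < 1 - a13 by linarith) (show 0 < 1 + a23 by linarith)
      have := mul_nonneg (show 0 ≤ a12 + a13 by linarith) (show 0 ≤ -a21 + a23 by linarith)
      linarith
    have e : Beta.det 1 a12 a13 (-a21) a23 a31 a32 = (1 - a31) * (1 + a12 * -a21) +
        (a31 + a32) / 2 * ((1 - a13) * (1 - a23) + (a12 - a13) * (-a21 + a23)) +
        (a31 - a32) / 2 * ((1 - a13) * (1 + a23) + (a12 + a13) * (-a21 + a23)) := by
      simp only [Beta.det]; ring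
    rw [e]
    have t0 := mul_nonneg (show 0 ≤ 1 - a31 by linarith) d0.le
    have t1 := mul_nonneg (show 0 ≤ (a31 + a32) / 2 by linarith) d1.le
    have t2 := mul_nonneg (show 0 ≤ (a31 - a32) / 2 by linarith) d2.le
    rcases lt_or_ge a31 1 with hc | hc
    · have := mul_pos (show 0 < 1 - a31 by linarith) d0
      linarith
    rcases lt_or_ge a32 0 with hd | hd
    · have := mul_pos (show 0 < (a31 - a32) / 2 by linarith) d2
      linarith
    · have := mul_pos (show 0 < (a31 + a32) / 2 by linarith) d1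
      linarith
  have hv : ((Beta.vec k).1 ≠ 0 ∨ (Beta.vec k).2.1 ≠ 0 ∨ (Beta.vec k).2.2 ≠ 0) ∧
      (Beta.vec k).1 % 2 = (Beta.vec k).2.1 % 2 ∧ (Beta.vec k).2.1 % 2 = (Beta.vec k).2.2 % 2 := by
    match k with
    | 0 | 1 | 2 | 3 | 4 | 5 => simp [Beta.vec]
    | _ + 6 => simp [Beta.vec]
  obtain ⟨x, y, z, hK, hw⟩ := h.wide _ _ _ hv.1 hv.2.1 hv.2.2
  rw [Beta.G, one_mul, sub_nonneg] at hk
  refine strict_aux (h.r1 _ _ _ hK) (h.r2 _ _ _ hK) (h.r3 _ _ _ hK) hD hw ?_ hk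
  simp only [Beta.det, Beta.c1, Beta.c2, Beta.c3]; ring

lemma Cfg.mutual (h : Cfg K a12 a13 a21 a23 a31 a32) (h1 : |a13| ≤ |a12|) (h2 : |a23| ≤ |a21|)
    (h3 : |a32| ≤ |a31|) : False := by
  wlog h12 : 0 ≤ a12 generalizing K a12 a13 a21 a23 a31 a32
  · exact this h.flipY (by simpa using h1) (by simpa using h2) (by simpa using h3) (by linarith)
  wlog h31 : 0 ≤ a31 generalizing K a12 a13 a21 a23 a31 a32
  · exact this h.flipZ (by simpa using h1) (by simpa using h2) (by simpa using h3) h12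
      (by linarith)
  rw [abs_of_nonneg h12] at h1
  rw [abs_of_nonneg h31] at h3
  rcases le_total a21 0 with h21 | h21
  · rw [abs_of_nonpos h21] at h2
    exact h.beta h1 h2 h3
  · rw [abs_of_nonneg h21] at h2
    have h1 := abs_le.mp h1
    have h2 := abs_le.mp h2
    have h3 := abs_le.mp h3
    exact h.flipY.flipZ.cube (by linarith) (by linarith) (by linarith)

lemma Cfg.cyc' (h : Cfg K a12 a13 a21 a23 a31 a32) (h1 : |a13| ≤ |a12|) (h2 : |a21| ≤ |a23|)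
    (h3 : |a32| ≤ |a31|) : False := by
  wlog h12 : 0 ≤ a12 generalizing K a12 a13 a21 a23 a31 a32
  · exact this h.flipY (by simpa using h1) (by simpa using h2) (by simpa using h3) (by linarith)
  wlog h23 : 0 ≤ a23 generalizing K a12 a13 a21 a23 a31 a32
  · exact this h.flipZ (by simpa using h1) (by simpa using h2) (by simpa using h3) h12
      (by linarith)
  rw [abs_of_nonneg h12] at h1
  rw [abs_of_nonneg h23] at h2
  rcases le_total a31 0 with h31 | h31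
  · rw [abs_of_nonpos h31] at h3
    have h1 := abs_le.mp h1
    have h2 := abs_le.mp h2
    have h3 := abs_le.mp h3
    exact h.flipY.cube (by linarith) (by linarith) (by linarith)
  · rw [abs_of_nonneg h31] at h3
    exact h.cyc h1 h2 h3

theorem Cfg.false (h : Cfg K a12 a13 a21 a23 a31 a32) : False := by
  rcases le_total |a13| |a12| with h1 | h1 <;> rcases le_total |a23| |a21| with h2 | h2 <;>
    rcases le_total |a32| |a31| with h3 | h3
  · exact h.mutual h1 h2 h3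
  · exact h.swap12.mutual h2 h1 h3
  · exact h.cyc' h1 h2 h3
  · exact h.swap12.swap23.mutual h2 h3 h1
  · exact h.swap23.mutual h1 h3 h2
  · exact h.swap23.cyc' h1 h3 h2
  · exact h.swap23.swap12.mutual h3 h1 h2
  · exact h.swap12.swap23.swap12.mutual h3 h2 h1

end Pool.Agent.MP_8c130c_co.Core

end

section

/-!
Elementary facts on sublattices of `ℤ³`.
-/

namespace Pool.Agent.MP_8c130c_co.Lattice3

section defs
variable {R : Type} [CommRing R]

def d3 (a b c : Fin 3 → R) : R :=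
  a 0 * (b 1 * c 2 - b 2 * c 1) - a 1 * (b 0 * c 2 - b 2 * c 0) + a 2 * (b 0 * c 1 - b 1 * c 0)

def cr (a b : Fin 3 → R) : Fin 3 → R :=
  ![a 1 * b 2 - a 2 * b 1, a 2 * b 0 - a 0 * b 2, a 0 * b 1 - a 1 * b 0]

@[simp] lemma cr0 (a b : Fin 3 → R) : cr a b 0 = a 1 * b 2 - a 2 * b 1 := rfl
@[simp] lemma cr1 (a b : Fin 3 → R) : cr a b 1 = a 2 * b 0 - a 0 * b 2 := rfl
@[simp] lemma cr2 (a b : Fin 3 → R) : cr a b 2 = a 0 * b 1 - a 1 * b 0 := rfl

lemma dot3 (a b : Fin 3 → R) : a ⬝ᵥ b = a 0 * b 0 + a 1 * b 1 + a 2 * b 2 := by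
  simp [dotProduct, Fin.sum_univ_three]

end defs

lemma forall3 {p : Fin 3 → Prop} : (∀ k, p k) ↔ p 0 ∧ p 1 ∧ p 2 := by
  constructor
  · exact fun h => ⟨h 0, h 1, h 2⟩
  · rintro ⟨h0, h1, h2⟩ k
    fin_cases k <;> assumption

lemma dvd_of_eq {N a b : ℤ} (h : N ∣ a) (e : b = a) : N ∣ b := e ▸ h

lemma descent {N : ℤ} (L : ℤ → ℤ → ℤ → Prop)
    (hsm : ∀ m a b c, L a b c → L (m * a) (m * b) (m * c))
    (h1 : ∀ m a b c, L a b c → L (a + m * N) b c) (h2 : ∀ m a b c, L a b c → L a (b + m * N) c)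
    (h3 : ∀ m a b c, L a b c → L a b (c + m * N)) (n : ℕ) :
    ∀ a b c : ℤ, 0 ≤ a → 0 ≤ b → 0 ≤ c → a + b + c < n → a + b + c < N → 0 < a + b + c → L a b c →
      ∃ a b c : ℤ, L a b c ∧ 0 ≤ a ∧ a ≤ N ∧ 0 ≤ b ∧ b ≤ N ∧ 0 ≤ c ∧ c ≤ N ∧ N ≤ a + b + c ∧
        a + b + c ≤ 2 * N ∧ ((0 < a ∧ a < N) ∨ (0 < b ∧ b < N) ∨ (0 < c ∧ c < N)) := by
  induction n with
  | zero => intro a b c ha hb hc h; omega
  | succ n ih =>
    intro a b c ha hb hc hn hN hpos hL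
    rcases ha.eq_or_lt with rfl | ha'
    · exact ⟨_, _, _, h1 1 _ _ _ hL, by omega⟩
    rcases hb.eq_or_lt with rfl | hb'
    · exact ⟨_, _, _, h2 1 _ _ _ hL, by omega⟩
    rcases hc.eq_or_lt with rfl | hc'
    · exact ⟨_, _, _, h3 1 _ _ _ hL, by omega⟩
    set S := a + b + c with hS
    set m := (N - 1) / S + 1 with hm
    have e1 := Int.emod_add_mul_ediv (N - 1) S
    have e2 := Int.emod_nonneg (N - 1) hpos.ne'
    have e3 := Int.emod_lt_of_pos (N - 1) hpos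
    have e4 : m * a + m * b + m * c = S * ((N - 1) / S) + S := by rw [hm, hS]; ring
    have hm0 : 0 < m := by
      have : 0 ≤ (N - 1) / S := Int.ediv_nonneg (by omega) hpos.le
      omega
    have pa := mul_pos hm0 ha'
    have pb := mul_pos hm0 hb'
    have pc := mul_pos hm0 hc'
    have hL' := hsm m _ _ _ hL
    generalize m * a = a' at *
    generalize m * b = b' at *
    generalize m * c = c' at *
    generalize S * ((N - 1) / S) = q at *
    rcases le_or_gt N a' with k1 | k1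
    · exact ih _ _ _ (by omega) (by omega) (by omega) (by omega) (by omega) (by omega)
        (h1 (-1) _ _ _ hL')
    rcases le_or_gt N b' with k2 | k2
    · exact ih _ _ _ (by omega) (by omega) (by omega) (by omega) (by omega) (by omega)
        (h2 (-1) _ _ _ hL')
    rcases le_or_gt N c' with k3 | k3
    · exact ih _ _ _ (by omega) (by omega) (by omega) (by omega) (by omega) (by omega)
        (h3 (-1) _ _ _ hL')
    exact ⟨_, _, _, hL', by omega⟩

/-- If `v1, v2, v3` span a proper sublattice of finite index, the middle octahedron of their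
parallelepiped contains a lattice point which is not a vertex. -/
lemma exists_oct (v1 v2 v3 : Fin 3 → ℤ) (h : 2 ≤ |d3 v1 v2 v3|) :
    ∃ (N a b c : ℤ) (m : Fin 3 → ℤ), (∀ k, a * v1 k + b * v2 k + c * v3 k = N * m k) ∧
      0 ≤ a ∧ a ≤ N ∧ 0 ≤ b ∧ b ≤ N ∧ 0 ≤ c ∧ c ≤ N ∧ N ≤ a + b + c ∧
        a + b + c ≤ 2 * N ∧ ((0 < a ∧ a < N) ∨ (0 < b ∧ b < N) ∨ (0 < c ∧ c < N)) := by
  set N := |d3 v1 v2 v3| with hN
  have hN0 : 0 < N := by omega
  have hND : N ∣ d3 v1 v2 v3 := (abs_dvd _ _).mpr dvd_rfl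
  let L : ℤ → ℤ → ℤ → Prop := fun a b c => ∀ k, N ∣ a * v1 k + b * v2 k + c * v3 k
  have hsm : ∀ m a b c, L a b c → L (m * a) (m * b) (m * c) := by
    intro m a b c hL k
    exact dvd_of_eq ((hL k).mul_left m) (by ring)
  have h1 : ∀ m a b c, L a b c → L (a + m * N) b c := by
    intro m a b c hL k
    exact dvd_of_eq ((hL k).add (dvd_mul_right N (m * v1 k))) (by ring)
  have h2 : ∀ m a b c, L a b c → L a (b + m * N) c := by
    intro m a b c hL k
    exact dvd_of_eq ((hL k).add (dvd_mul_right N (m * v2 k))) (by ring)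
  have h3 : ∀ m a b c, L a b c → L a b (c + m * N) := by
    intro m a b c hL k
    exact dvd_of_eq ((hL k).add (dvd_mul_right N (m * v3 k))) (by ring)
  suffices hs : ∃ a b c : ℤ, L a b c ∧ 0 ≤ a ∧ a ≤ N ∧ 0 ≤ b ∧ b ≤ N ∧ 0 ≤ c ∧ c ≤ N ∧
      N ≤ a + b + c ∧ a + b + c ≤ 2 * N ∧
      ((0 < a ∧ a < N) ∨ (0 < b ∧ b < N) ∨ (0 < c ∧ c < N)) by
    obtain ⟨a, b, c, hL, hr⟩ := hs
    choose m hm using hL
    exact ⟨N, a, b, c, m, hm, hr⟩
  obtain ⟨a, b, c, hL, hni⟩ : ∃ a b c, L a b c ∧ ¬(N ∣ a ∧ N ∣ b ∧ N ∣ c) := by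
    by_contra hc
    push Not at hc
    have hj : ∀ j, L (cr v2 v3 j) (cr v3 v1 j) (cr v1 v2 j) := by
      rw [forall3]
      refine ⟨?_, ?_, ?_⟩ <;> (simp only [L]; rw [forall3]; refine ⟨?_, ?_, ?_⟩) <;>
        first
          | exact dvd_of_eq hND (by simp only [cr0, cr1, cr2, d3]; ring1)
          | exact dvd_of_eq (dvd_zero N) (by simp only [cr0, cr1, cr2]; ring1)
    choose A hA using fun j => (hc _ _ _ (hj j)).1
    choose B hB using fun j => (hc _ _ _ (hj j)).2.1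
    choose C hC using fun j => (hc _ _ _ (hj j)).2.2
    have e1 : d3 (cr v2 v3) (cr v3 v1) (cr v1 v2) = d3 v1 v2 v3 * d3 v1 v2 v3 := by
      simp only [d3, cr0, cr1, cr2]; ring
    have e2 : d3 (cr v2 v3) (cr v3 v1) (cr v1 v2) = N * N * (N * d3 A B C) := by
      simp only [d3, hA, hB, hC]; ring
    rw [← abs_mul_abs_self, ← hN, e2] at e1
    have e3 : N * d3 A B C = 1 :=
      mul_left_cancel₀ (mul_pos hN0 hN0).ne' (e1.trans (mul_one _).symm)
    have := Int.eq_one_of_mul_eq_one_right hN0.le e3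
    omega
  have hL' : L (a % N) (b % N) (c % N) := by
    have := h1 (-(a / N)) _ _ _ (h2 (-(b / N)) _ _ _ (h3 (-(c / N)) _ _ _ hL))
    rw [Int.emod_def, Int.emod_def, Int.emod_def]
    convert this using 1 <;> ring
  have a0 := Int.emod_nonneg a hN0.ne'
  have b0 := Int.emod_nonneg b hN0.ne'
  have c0 := Int.emod_nonneg c hN0.ne'
  have a1 := Int.emod_lt_of_pos a hN0
  have b1 := Int.emod_lt_of_pos b hN0
  have c1 := Int.emod_lt_of_pos c hN0
  have hpos : 0 < a % N + b % N + c % N := by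
    by_contra hc
    exact hni ⟨Int.dvd_of_emod_eq_zero (by omega), Int.dvd_of_emod_eq_zero (by omega),
      Int.dvd_of_emod_eq_zero (by omega)⟩
  generalize a % N = a' at *
  generalize b % N = b' at *
  generalize c % N = c' at *
  rcases lt_or_ge (a' + b' + c') N with k1 | k1
  · exact descent L hsm h1 h2 h3 N.toNat _ _ _ a0 b0 c0 (by omega) k1 hpos hL'
  rcases le_or_gt (a' + b' + c') (2 * N) with k2 | k2
  · exact ⟨_, _, _, hL', by omega⟩
  · exact descent L hsm h1 h2 h3 N.toNat _ _ _ (by omega) (by omega) (by omega) (by omega)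
      (by omega) (by omega) (h1 1 _ _ _ (h2 1 _ _ _ (h3 1 _ _ _ (hsm (-1) _ _ _ hL'))))

lemma d3_zmod : ∀ a0 a1 a2 b0 b1 b2 c0 c1 c2 : ZMod 2,
    a0 * (b1 * c2 - b2 * c1) - a1 * (b0 * c2 - b2 * c0) + a2 * (b0 * c1 - b1 * c0) = 0 →
    (a0 = 0 ∧ a1 = 0 ∧ a2 = 0) ∨ (b0 = 0 ∧ b1 = 0 ∧ b2 = 0) ∨ (c0 = 0 ∧ c1 = 0 ∧ c2 = 0) ∨
    (b0 - a0 = 0 ∧ b1 - a1 = 0 ∧ b2 - a2 = 0) ∨ (c0 - a0 = 0 ∧ c1 - a1 = 0 ∧ c2 - a2 = 0) ∨
    (b0 - c0 = 0 ∧ b1 - c1 = 0 ∧ b2 - c2 = 0) ∨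
    (b0 + c0 - a0 = 0 ∧ b1 + c1 - a1 = 0 ∧ b2 + c2 - a2 = 0) := by
  decide +kernel

lemma d3_ne_zero (a b c : Fin 3 → ℤ) (h1 : ¬∀ k, a k % 2 = 0) (h2 : ¬∀ k, b k % 2 = 0)
    (h3 : ¬∀ k, c k % 2 = 0) (h4 : ¬∀ k, (b k - a k) % 2 = 0) (h5 : ¬∀ k, (c k - a k) % 2 = 0)
    (h6 : ¬∀ k, (b k - c k) % 2 = 0) (h7 : ¬∀ k, (b k + c k - a k) % 2 = 0) : d3 a b c ≠ 0 := by
  intro h
  have key : ∀ z : ℤ, (z : ZMod 2) = 0 → z % 2 = 0 := fun z hz =>
    Int.emod_eq_zero_of_dvd ((ZMod.intCast_zmod_eq_zero_iff_dvd z 2).mp hz)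
  have h0 := d3_zmod (a 0) (a 1) (a 2) (b 0) (b 1) (b 2) (c 0) (c 1) (c 2) (by
    have := congrArg (Int.cast : ℤ → ZMod 2) h
    simp only [d3] at this
    push_cast at this
    exact this)
  rw [forall3] at h1 h2 h3 h4 h5 h6 h7
  rcases h0 with h | h | h | h | h | h | h
  · exact h1 ⟨key _ h.1, key _ h.2.1, key _ h.2.2⟩
  · exact h2 ⟨key _ h.1, key _ h.2.1, key _ h.2.2⟩
  · exact h3 ⟨key _ h.1, key _ h.2.1, key _ h.2.2⟩
  · exact h4 ⟨key _ (by push_cast; exact h.1), key _ (by push_cast; exact h.2.1),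
      key _ (by push_cast; exact h.2.2)⟩
  · exact h5 ⟨key _ (by push_cast; exact h.1), key _ (by push_cast; exact h.2.1),
      key _ (by push_cast; exact h.2.2)⟩
  · exact h6 ⟨key _ (by push_cast; exact h.1), key _ (by push_cast; exact h.2.1),
      key _ (by push_cast; exact h.2.2)⟩
  · exact h7 ⟨key _ (by push_cast; exact h.1), key _ (by push_cast; exact h.2.1),
      key _ (by push_cast; exact h.2.2)⟩

end Pool.Agent.MP_8c130c_co.Lattice3

end

section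

/-!
A centrally symmetric lattice-bounded polyhedron in `ℝ³` of lattice width at least three, centred at
a half-lattice point, contains a lattice point.
-/

namespace Pool.Agent.MP_8c130c_co.Hollow

open Pool.Agent.MP_8c130c_co Lattice3

variable {ι : Type} {J : Finset ι} {U : ι → Fin 3 → ℤ} {T : ι → ℤ} {x : Fin 3 → ℤ}

/-- `w` is congruent to `x` modulo two. -/
def Od (x w : Fin 3 → ℤ) : Prop := ∀ k, w k % 2 = x k % 2

/-- `w` is congruent to `x` modulo two and satisfies the closed constraints. -/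
def Good (J : Finset ι) (U : ι → Fin 3 → ℤ) (T : ι → ℤ) (x w : Fin 3 → ℤ) : Prop :=
  Od x w ∧ ∀ j ∈ J, |U j ⬝ᵥ w| ≤ T j

/-- Half the sum of two vectors. -/
def hf (a b : Fin 3 → ℤ) : Fin 3 → ℤ := fun k => (a k + b k) / 2

lemma hf_spec {a b : Fin 3 → ℤ} (ha : Od x a) (hb : Od x b) (k : Fin 3) :
    2 * hf a b k = a k + b k := by
  have := ha k
  have := hb k
  simp only [hf]
  omega

lemma d3_hf {w1 w2 w3 : Fin 3 → ℤ} (h1 : Od x w1) (h2 : Od x w2) (h3 : Od x w3) :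
    d3 w1 w2 w3 = 4 * d3 (hf w2 w3) (hf w1 w3) (hf w1 w2) := by
  have e1 : ∀ k, w1 k = hf w1 w3 k + hf w1 w2 k - hf w2 w3 k := fun k => by
    have := hf_spec h1 h2 k; have := hf_spec h1 h3 k; have := hf_spec h2 h3 k; omega
  have e2 : ∀ k, w2 k = hf w2 w3 k + hf w1 w2 k - hf w1 w3 k := fun k => by
    have := hf_spec h1 h2 k; have := hf_spec h1 h3 k; have := hf_spec h2 h3 k; omega
  have e3 : ∀ k, w3 k = hf w2 w3 k + hf w1 w3 k - hf w1 w2 k := fun k => by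
    have := hf_spec h1 h2 k; have := hf_spec h1 h3 k; have := hf_spec h2 h3 k; omega
  generalize hf w2 w3 = v1 at *
  generalize hf w1 w3 = v2 at *
  generalize hf w1 w2 = v3 at *
  simp only [d3, e1, e2, e3]; ring

lemma smaller {N Z d d' : ℤ} (h : N * d' = Z * d) (hd : d ≠ 0) (hZ0 : 0 < |Z|) (hZ : |Z| < N) :
    d' ≠ 0 ∧ |d'| < |d| := by
  have hN : 0 < N := by omega
  have h1 : N * |d'| = |Z| * |d| := by
    rw [← abs_mul, ← h, abs_mul, abs_of_pos hN]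
  have h2 := abs_pos.mpr hd
  constructor
  · rintro rfl
    have := mul_pos hZ0 h2
    simp at h1
    rcases h1 with h1 | h1
    · rw [h1] at hZ0; simp at hZ0
    · exact hd h1
  · by_contra hc
    have h3 := mul_le_mul_of_nonneg_left (not_lt.mp hc) hN.le
    have h4 := mul_lt_mul_of_pos_right hZ h2
    omega

lemma exists_basis (h0 : ¬Od x 0) (n : ℕ) :
    ∀ w1 w2 w3, Good J U T x w1 → Good J U T x w2 → Good J U T x w3 → d3 w1 w2 w3 ≠ 0 →
      |d3 w1 w2 w3| < n → ∃ w1 w2 w3, Good J U T x w1 ∧ Good J U T x w2 ∧ Good J U T x w3 ∧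
        |d3 (hf w2 w3) (hf w1 w3) (hf w1 w2)| = 1 := by
  induction n with
  | zero => intro w1 w2 w3 _ _ _ _ h; exact absurd h (by simp)
  | succ n ih =>
    intro w1 w2 w3 g1 g2 g3 hd hn
    by_cases h1 : |d3 (hf w2 w3) (hf w1 w3) (hf w1 w2)| = 1
    · exact ⟨w1, w2, w3, g1, g2, g3, h1⟩
    have h2 : 2 ≤ |d3 (hf w2 w3) (hf w1 w3) (hf w1 w2)| := by
      have : d3 (hf w2 w3) (hf w1 w3) (hf w1 w2) ≠ 0 := by
        intro h; rw [d3_hf g1.1 g2.1 g3.1, h] at hd; exact hd rfl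
      have := abs_pos.mpr this
      omega
    obtain ⟨N, a, b, c, m, hm, a0, a1, b0, b1, c0, c1, s0, s1, hni⟩ := exists_oct _ _ _ h2
    have hN : 0 < N := by omega
    set w : Fin 3 → ℤ := fun k => 2 * m k - (w1 k + w2 k + w3 k) with hw
    have hwk : ∀ k, N * w k = (b + c - N) * w1 k + (a + c - N) * w2 k + (a + b - N) * w3 k := by
      intro k
      simp only [hw]
      linear_combination -2 * hm k + a * hf_spec g2.1 g3.1 k + b * hf_spec g1.1 g3.1 k +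
        c * hf_spec g1.1 g2.1 k
    have hZ : |b + c - N| + |a + c - N| + |a + b - N| ≤ N := by
      rcases abs_cases (b + c - N) with h | h <;> rcases abs_cases (a + c - N) with h' | h' <;>
        rcases abs_cases (a + b - N) with h'' | h'' <;> omega
    have hod : Od x w := by
      intro k
      have := g1.1 k; have := g2.1 k; have := g3.1 k
      simp only [hw]; omega
    have gw : Good J U T x w := by
      refine ⟨hod, fun j hj => ?_⟩
      have e : N * (U j ⬝ᵥ w) = (b + c - N) * (U j ⬝ᵥ w1) + (a + c - N) * (U j ⬝ᵥ w2) +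
          (a + b - N) * (U j ⬝ᵥ w3) := by
        simp only [dot3]
        linear_combination U j 0 * hwk 0 + U j 1 * hwk 1 + U j 2 * hwk 2
      have k1 := mul_le_mul_of_nonneg_left (g1.2 j hj) (abs_nonneg (b + c - N))
      have k2 := mul_le_mul_of_nonneg_left (g2.2 j hj) (abs_nonneg (a + c - N))
      have k3 := mul_le_mul_of_nonneg_left (g3.2 j hj) (abs_nonneg (a + b - N))
      have hT : 0 ≤ T j := (abs_nonneg _).trans (g1.2 j hj)
      have k4 := mul_le_mul_of_nonneg_right hZ hT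
      have k5 : N * |U j ⬝ᵥ w| ≤ N * T j := by
        rw [← abs_of_pos hN, ← abs_mul, abs_of_pos hN, e]
        refine (abs_add_three _ _ _).trans ?_
        rw [abs_mul, abs_mul, abs_mul]
        linarith
      exact le_of_mul_le_mul_left k5 hN
    have hne : ¬(b + c - N = 0 ∧ a + c - N = 0 ∧ a + b - N = 0) := by
      rintro ⟨e1, e2, e3⟩
      refine h0 fun k => ?_
      have := hwk k
      rw [e1, e2, e3] at this
      have h3 : w k = 0 := by
        rcases mul_eq_zero.mp (this.trans (by ring)) with h | h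
        · omega
        · exact h
      rw [← hod k, h3]; rfl
    have hcase : (0 < |b + c - N| ∧ |b + c - N| < N) ∨ (0 < |a + c - N| ∧ |a + c - N| < N) ∨
        (0 < |a + b - N| ∧ |a + b - N| < N) := by
      rcases abs_cases (b + c - N) with h | h <;> rcases abs_cases (a + c - N) with h' | h' <;>
        rcases abs_cases (a + b - N) with h'' | h'' <;> omega
    rcases hcase with h | h | h
    · have := smaller (d' := d3 w w2 w3) (by
        simp only [d3]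
        linear_combination (w2 1 * w3 2 - w2 2 * w3 1) * hwk 0 -
          (w2 0 * w3 2 - w2 2 * w3 0) * hwk 1 + (w2 0 * w3 1 - w2 1 * w3 0) * hwk 2) hd h.1 h.2
      exact ih _ _ _ gw g2 g3 this.1 (by push_cast at hn; omega)
    · have := smaller (d' := d3 w1 w w3) (by
        simp only [d3]
        linear_combination -(w1 1 * w3 2 - w1 2 * w3 1) * hwk 0 +
          (w1 0 * w3 2 - w1 2 * w3 0) * hwk 1 - (w1 0 * w3 1 - w1 1 * w3 0) * hwk 2) hd h.1 h.2
      exact ih _ _ _ g1 gw g3 this.1 (by push_cast at hn; omega)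
    · have := smaller (d' := d3 w1 w2 w) (by
        simp only [d3]
        linear_combination (w1 1 * w2 2 - w1 2 * w2 1) * hwk 0 -
          (w1 0 * w2 2 - w1 2 * w2 0) * hwk 1 + (w1 0 * w2 1 - w1 1 * w2 0) * hwk 2) hd h.1 h.2
      exact ih _ _ _ g1 g2 gw this.1 (by push_cast at hn; omega)

lemma exists_dual {w1 w2 w3 : Fin 3 → ℤ} (h1 : Od x w1) (h2 : Od x w2) (h3 : Od x w3)
    (hd : |d3 (hf w2 w3) (hf w1 w3) (hf w1 w2)| = 1) (i j k : ℤ) (hij : i % 2 = j % 2)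
    (hjk : j % 2 = k % 2) : ∃ u : Fin 3 → ℤ, u ⬝ᵥ w1 = i ∧ u ⬝ᵥ w2 = j ∧ u ⬝ᵥ w3 = k := by
  have e1 : ∀ k, w1 k = hf w1 w3 k + hf w1 w2 k - hf w2 w3 k := fun k => by
    have := hf_spec h1 h2 k; have := hf_spec h1 h3 k; have := hf_spec h2 h3 k; omega
  have e2 : ∀ k, w2 k = hf w2 w3 k + hf w1 w2 k - hf w1 w3 k := fun k => by
    have := hf_spec h1 h2 k; have := hf_spec h1 h3 k; have := hf_spec h2 h3 k; omega
  have e3 : ∀ k, w3 k = hf w2 w3 k + hf w1 w3 k - hf w1 w2 k := fun k => by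
    have := hf_spec h1 h2 k; have := hf_spec h1 h3 k; have := hf_spec h2 h3 k; omega
  generalize hf w2 w3 = v1 at *
  generalize hf w1 w3 = v2 at *
  generalize hf w1 w2 = v3 at *
  have hδ : d3 v1 v2 v3 * d3 v1 v2 v3 = 1 := by rw [← abs_mul_abs_self, hd]; rfl
  obtain ⟨α, β, γ, rfl, rfl, rfl⟩ : ∃ α β γ : ℤ, i = β + γ - α ∧ j = α + γ - β ∧ k = α + β - γ :=
    ⟨(j + k) / 2, (i + k) / 2, (i + j) / 2, by omega, by omega, by omega⟩
  generalize hδ' : d3 v1 v2 v3 = δ at hδ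
  have hδ2 : δ * d3 v1 v2 v3 = 1 := by rw [hδ', hδ]
  simp only [d3] at hδ2
  refine ⟨fun t => δ * (α * cr v2 v3 t + β * cr v3 v1 t + γ * cr v1 v2 t), ?_, ?_, ?_⟩
  · simp only [dot3, cr0, cr1, cr2, e1]; linear_combination (β + γ - α) * hδ2
  · simp only [dot3, cr0, cr1, cr2, e2]; linear_combination (α + γ - β) * hδ2
  · simp only [dot3, cr0, cr1, cr2, e3]; linear_combination (α + β - γ) * hδ2

lemma cramer {w1 w2 w3 : Fin 3 → ℤ} (hd : d3 w1 w2 w3 ≠ 0) (p : Fin 3 → ℝ) :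
    ∃ a b c : ℝ, ∀ u : Fin 3 → ℤ,
      toReal u ⬝ᵥ p = a * (u ⬝ᵥ w1 : ℤ) + b * (u ⬝ᵥ w2 : ℤ) + c * (u ⬝ᵥ w3 : ℤ) := by
  have hd' : d3 (toReal w1) (toReal w2) (toReal w3) ≠ 0 := by
    have : ((d3 w1 w2 w3 : ℤ) : ℝ) ≠ 0 := by exact_mod_cast hd
    simpa [d3, toReal] using this
  refine ⟨d3 p (toReal w2) (toReal w3) / d3 (toReal w1) (toReal w2) (toReal w3),
    d3 (toReal w1) p (toReal w3) / d3 (toReal w1) (toReal w2) (toReal w3),
    d3 (toReal w1) (toReal w2) p / d3 (toReal w1) (toReal w2) (toReal w3), fun u => ?_⟩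
  field_simp
  simp only [dot3, d3, toReal]
  push_cast
  ring

lemma false_of_basis {I : Finset ι} {D : ι → ℤ} (hJ : J ⊆ I) (hDT : ∀ j ∈ J, D j < T j)
    (hol : ∀ w, Od x w → ∃ j ∈ J, T j ≤ |U j ⬝ᵥ w|)
    (wide : ∀ u : Fin 3 → ℤ, u ≠ 0 → ∃ p : Fin 3 → ℝ,
      (∀ i ∈ I, |toReal (U i) ⬝ᵥ p| ≤ D i) ∧ 3 ≤ toReal u ⬝ᵥ p)
    (hT : ∀ j ∈ J, 0 < T j) {w1 w2 w3 : Fin 3 → ℤ} (g1 : Good J U T x w1) (g2 : Good J U T x w2)
    (g3 : Good J U T x w3) (hd : |d3 (hf w2 w3) (hf w1 w3) (hf w1 w2)| = 1) : False := by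
  have hd0 : d3 w1 w2 w3 ≠ 0 := by
    rw [d3_hf g1.1 g2.1 g3.1]
    intro h
    have : d3 (hf w2 w3) (hf w1 w3) (hf w1 w2) = 0 := by omega
    rw [this] at hd; simp at hd
  let K : ℝ → ℝ → ℝ → Prop := fun a b c =>
    ∀ i ∈ I, |a * (U i ⬝ᵥ w1 : ℤ) + b * (U i ⬝ᵥ w2 : ℤ) + c * (U i ⬝ᵥ w3 : ℤ)| ≤ D i
  have row : ∀ j ∈ J, ∀ t : ℤ, |t| = T j → |((U j ⬝ᵥ w1 : ℤ) : ℝ) / t| ≤ 1 ∧
      |((U j ⬝ᵥ w2 : ℤ) : ℝ) / t| ≤ 1 ∧ |((U j ⬝ᵥ w3 : ℤ) : ℝ) / t| ≤ 1 ∧
      ∀ a b c, K a b c → |((U j ⬝ᵥ w1 : ℤ) : ℝ) / t * a + ((U j ⬝ᵥ w2 : ℤ) : ℝ) / t * b +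
        ((U j ⬝ᵥ w3 : ℤ) : ℝ) / t * c| < 1 := by
    intro j hj t ht
    have ht' : |(t : ℝ)| = T j := by exact_mod_cast ht
    have hT' : (0 : ℝ) < T j := by exact_mod_cast hT j hj
    have hb : ∀ w, Good J U T x w → |((U j ⬝ᵥ w : ℤ) : ℝ) / t| ≤ 1 := by
      intro w gw
      rw [abs_div, ht', div_le_one hT']
      exact_mod_cast gw.2 j hj
    refine ⟨hb _ g1, hb _ g2, hb _ g3, fun a b c hK => ?_⟩
    have h1 := hK j (hJ hj)
    have h2 : (D j : ℝ) < T j := by exact_mod_cast hDT j hj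
    have e : ((U j ⬝ᵥ w1 : ℤ) : ℝ) / t * a + ((U j ⬝ᵥ w2 : ℤ) : ℝ) / t * b +
        ((U j ⬝ᵥ w3 : ℤ) : ℝ) / t * c =
        (a * (U j ⬝ᵥ w1 : ℤ) + b * (U j ⬝ᵥ w2 : ℤ) + c * (U j ⬝ᵥ w3 : ℤ)) / t := by ring
    rw [e, abs_div, ht', div_lt_one hT']
    linarith
  have tight : ∀ w, Good J U T x w → ∃ j ∈ J, |U j ⬝ᵥ w| = T j ∧
      ((U j ⬝ᵥ w : ℤ) : ℝ) / (U j ⬝ᵥ w : ℤ) = 1 := by
    intro w gw
    obtain ⟨j, hj, h⟩ := hol w gw.1
    have h1 := le_antisymm (gw.2 j hj) h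
    refine ⟨j, hj, h1, div_self ?_⟩
    have := hT j hj
    have h2 : U j ⬝ᵥ w ≠ 0 := by intro h3; rw [h3] at h1; simp at h1; omega
    exact_mod_cast h2
  obtain ⟨j1, hj1, t1, o1⟩ := tight _ g1
  obtain ⟨j2, hj2, t2, o2⟩ := tight _ g2
  obtain ⟨j3, hj3, t3, o3⟩ := tight _ g3
  obtain ⟨-, b12, b13, r1⟩ := row j1 hj1 _ t1
  obtain ⟨b21, -, b23, r2⟩ := row j2 hj2 _ t2
  obtain ⟨b31, b32, -, r3⟩ := row j3 hj3 _ t3
  rw [o1] at r1
  rw [o2] at r2
  rw [o3] at r3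
  simp only [one_mul] at r1 r2 r3
  refine Core.Cfg.false (K := K) ⟨?_, ?_, r1, r2, r3, b12, b13, b21, b23, b31, b32, ?_⟩
  · intro x1 y1 z1 x2 y2 z2 x3 y3 z3 l m n k1 k2 k3 hs i hi
    have k1 := k1 i hi
    have k2 := k2 i hi
    have k3 := k3 i hi
    generalize ((U i ⬝ᵥ w1 : ℤ) : ℝ) = A at *
    generalize ((U i ⬝ᵥ w2 : ℤ) : ℝ) = B at *
    generalize ((U i ⬝ᵥ w3 : ℤ) : ℝ) = C at *
    have e : (l * x1 + m * x2 + n * x3) * A + (l * y1 + m * y2 + n * y3) * B +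
        (l * z1 + m * z2 + n * z3) * C = l * (x1 * A + y1 * B + z1 * C) +
        m * (x2 * A + y2 * B + z2 * C) + n * (x3 * A + y3 * B + z3 * C) := by ring
    rw [e]
    refine (abs_add_three _ _ _).trans ?_
    rw [abs_mul, abs_mul, abs_mul]
    have hD : (0 : ℝ) ≤ D i := (abs_nonneg _).trans k1
    have := mul_le_mul_of_nonneg_left k1 (abs_nonneg l)
    have := mul_le_mul_of_nonneg_left k2 (abs_nonneg m)
    have := mul_le_mul_of_nonneg_left k3 (abs_nonneg n)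
    have := mul_le_mul_of_nonneg_right hs hD
    linarith
  · intro i j k h0 hij hjk
    obtain ⟨u, u1, u2, u3⟩ := exists_dual g1.1 g2.1 g3.1 hd i j k hij hjk
    have hu : u ≠ 0 := by
      rintro rfl
      simp only [zero_dotProduct] at u1 u2 u3
      omega
    obtain ⟨p, hp, hup⟩ := wide u hu
    obtain ⟨a, b, c, habc⟩ := cramer hd0 p
    refine ⟨a, b, c, fun i hi => ?_, ?_⟩
    · rw [← habc]; exact hp i hi
    · rw [habc, u1, u2, u3] at hup; linarith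
  · intro ρ σ τ hρ hσ hτ
    obtain ⟨j, hj, h⟩ := hol (fun k => ρ * w1 k + σ * w2 k + τ * w3 k) (by
      intro k
      have := g1.1 k; have := g2.1 k; have := g3.1 k
      beta_reduce
      rcases hρ with rfl | rfl <;> rcases hσ with rfl | rfl <;> rcases hτ with rfl | rfl <;> omega)
    have e : (U j ⬝ᵥ fun k => ρ * w1 k + σ * w2 k + τ * w3 k) =
        ρ * (U j ⬝ᵥ w1) + σ * (U j ⬝ᵥ w2) + τ * (U j ⬝ᵥ w3) := by simp only [dot3]; ring
    rw [e] at h
    have hT' : (0 : ℝ) < T j := by exact_mod_cast hT j hj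
    rcases le_abs'.mp h with h | h
    · obtain ⟨c1, c2, c3, r⟩ := row j hj (-T j) (by rw [abs_neg, abs_of_pos (hT j hj)])
      refine ⟨_, _, _, c1, c2, c3, ?_, r⟩
      have h' : ((ρ * (U j ⬝ᵥ w1) + σ * (U j ⬝ᵥ w2) + τ * (U j ⬝ᵥ w3) : ℤ) : ℝ) ≤ (-T j : ℤ) := by
        exact_mod_cast h
      rw [mul_div_assoc', mul_div_assoc', mul_div_assoc', ← add_div, ← add_div,
        le_div_iff_of_neg (by push_cast; linarith)]
      push_cast at h' ⊢
      linarith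
    · obtain ⟨c1, c2, c3, r⟩ := row j hj (T j) (abs_of_pos (hT j hj))
      refine ⟨_, _, _, c1, c2, c3, ?_, r⟩
      have h' : ((T j : ℤ) : ℝ) ≤ (ρ * (U j ⬝ᵥ w1) + σ * (U j ⬝ᵥ w2) + τ * (U j ⬝ᵥ w3) : ℤ) := by
        exact_mod_cast h
      rw [mul_div_assoc', mul_div_assoc', mul_div_assoc', ← add_div, ← add_div, le_div_iff₀ hT']
      push_cast at h' ⊢
      linarith

theorem hollow (I : Finset ι) (U : ι → Fin 3 → ℤ) (D : ι → ℤ) (x : Fin 3 → ℤ)
    (hD : ∀ i ∈ I, 1 ≤ D i) (hprim : ∀ i ∈ I, ∃ e, U i ⬝ᵥ e = 1)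
    (wide : ∀ u : Fin 3 → ℤ, u ≠ 0 → ∃ p : Fin 3 → ℝ,
      (∀ i ∈ I, |toReal (U i) ⬝ᵥ p| ≤ D i) ∧ 3 ≤ toReal u ⬝ᵥ p) :
    ∃ w, Od x w ∧ ∀ i ∈ I, |U i ⬝ᵥ w| ≤ D i := by
  classical
  by_contra hno
  obtain ⟨J, T, hJ, hDT, hol', htouch⟩ := Push.push (Ω := {w // Od x w}) I
    (fun i w => |U i ⬝ᵥ w.1|) D (by
      intro w
      by_contra hc
      push Not at hc
      exact hno ⟨w.1, w.2, hc⟩)
  have hol : ∀ w, Od x w → ∃ j ∈ J, T j ≤ |U j ⬝ᵥ w| := fun w hw => hol' ⟨w, hw⟩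
  have hT : ∀ j ∈ J, 1 < T j := fun j hj => (hD j (hJ hj)).trans_lt (hDT j hj)
  have htouch' : ∀ j ∈ J, ∃ w, Od x w ∧ |U j ⬝ᵥ w| = T j ∧
      ∀ i ∈ J, i ≠ j → |U i ⬝ᵥ w| < T i := by
    intro j hj
    obtain ⟨w, h1, h2⟩ := htouch j hj
    exact ⟨w.1, w.2, h1, h2⟩
  choose! p po pt ps using htouch'
  have pg : ∀ j ∈ J, Good J U T x (p j) := by
    intro j hj
    refine ⟨po j hj, fun i hi => ?_⟩
    by_cases h : i = j
    · subst h; exact (pt i hi).le
    · exact (ps j hj i hi h).le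
  have h0 : ¬Od x 0 := by
    intro h
    obtain ⟨j, hj, h1⟩ := hol 0 h
    have := hT j hj
    simp at h1; omega
  have hmid : ∀ a ∈ J, ∀ b ∈ J, a ≠ b → ∀ s : ℤ, (s = 1 ∨ s = -1) →
      ¬∀ k, (p a k - s * p b k) % 4 = 0 := by
    intro a ha b hb hab s hs h
    obtain ⟨i, hi, h1⟩ := hol (fun k => (p a k + s * p b k) / 2) (by
      intro k
      have := h k; have := po a ha k; have := po b hb k
      beta_reduce
      rcases hs with rfl | rfl <;> omega)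
    have e : ∀ k, 2 * ((p a k + s * p b k) / 2) = p a k + s * p b k := by
      intro k
      have := po a ha k; have := po b hb k
      rcases hs with rfl | rfl <;> omega
    have e2 : 2 * (U i ⬝ᵥ fun k => (p a k + s * p b k) / 2) = U i ⬝ᵥ p a + s * (U i ⬝ᵥ p b) := by
      simp only [dot3]
      linear_combination U i 0 * e 0 + U i 1 * e 1 + U i 2 * e 2
    have k1 := (pg a ha).2 i hi
    have k2 := (pg b hb).2 i hi
    have k3 : |U i ⬝ᵥ p a| < T i ∨ |U i ⬝ᵥ p b| < T i := by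
      by_cases h : i = a
      · right; exact ps b hb i hi (h ▸ hab)
      · left; exact ps a ha i hi h
    generalize (U i ⬝ᵥ fun k => (p a k + s * p b k) / 2) = z at *
    generalize U i ⬝ᵥ p a = z1 at *
    generalize U i ⬝ᵥ p b = z2 at *
    rcases abs_cases z with h | h <;> rcases abs_cases z1 with h' | h' <;>
      rcases abs_cases z2 with h'' | h'' <;> rcases hs with rfl | rfl <;> omega
  obtain ⟨w1, w2, w3, g1, g2, g3, hd⟩ : ∃ w1 w2 w3, Good J U T x w1 ∧ Good J U T x w2 ∧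
      Good J U T x w3 ∧ d3 w1 w2 w3 ≠ 0 := by
    obtain ⟨j1, hj1, -⟩ := hol x fun _ => rfl
    obtain ⟨e, he⟩ := hprim j1 (hJ hj1)
    obtain ⟨j2, hj2, h2⟩ := hol (fun k => x k - 2 * (U j1 ⬝ᵥ x / 2 * e k)) fun k => by
      beta_reduce
      omega
    have n12 : j1 ≠ j2 := by
      rintro rfl
      have e1 : (U j1 ⬝ᵥ fun k => x k - 2 * (U j1 ⬝ᵥ x / 2 * e k)) =
          U j1 ⬝ᵥ x - 2 * (U j1 ⬝ᵥ x / 2) := by
        generalize U j1 ⬝ᵥ x / 2 = q
        simp only [dot3] at he ⊢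
        linear_combination -2 * q * he
      rw [e1] at h2
      have := hT j1 hj1
      rcases abs_cases (U j1 ⬝ᵥ x - 2 * (U j1 ⬝ᵥ x / 2)) with h | h <;> omega
    by_cases h3 : ∃ j3 ∈ J, j3 ≠ j1 ∧ j3 ≠ j2
    · obtain ⟨j3, hj3, n31, n32⟩ := h3
      refine ⟨_, _, _, pg j1 hj1, pg j2 hj2, pg j3 hj3, ?_⟩
      have s12 := hf_spec (po j1 hj1) (po j2 hj2)
      have s13 := hf_spec (po j1 hj1) (po j3 hj3)
      have e : d3 (p j1) (p j2) (p j3) = 4 * d3 (p j1) (hf (p j1) (p j2)) (hf (p j1) (p j3)) := by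
        have e2 : ∀ k, p j2 k = 2 * hf (p j1) (p j2) k - p j1 k := fun k => by
          have := s12 k; omega
        have e3 : ∀ k, p j3 k = 2 * hf (p j1) (p j3) k - p j1 k := fun k => by
          have := s13 k; omega
        generalize hf (p j1) (p j2) = α at *
        generalize hf (p j1) (p j3) = β at *
        simp only [d3, e2, e3]; ring
      rw [e]
      refine mul_ne_zero (by norm_num) (d3_ne_zero _ _ _ ?_ ?_ ?_ ?_ ?_ ?_ ?_)
      · intro h; refine h0 fun k => ?_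
        rw [← po j1 hj1 k, h k]; rfl
      · intro h; refine hmid j1 hj1 j2 hj2 n12 (-1) (by simp) fun k => ?_
        have := h k; have := s12 k; omega
      · intro h; refine hmid j1 hj1 j3 hj3 n31.symm (-1) (by simp) fun k => ?_
        have := h k; have := s13 k; omega
      · intro h; refine hmid j1 hj1 j2 hj2 n12 1 (by simp) fun k => ?_
        have := h k; have := s12 k; omega
      · intro h; refine hmid j1 hj1 j3 hj3 n31.symm 1 (by simp) fun k => ?_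
        have := h k; have := s13 k; omega
      · intro h; refine hmid j2 hj2 j3 hj3 n32.symm 1 (by simp) fun k => ?_
        have := h k; have := s12 k; have := s13 k; omega
      · intro h; refine hmid j2 hj2 j3 hj3 n32.symm (-1) (by simp) fun k => ?_
        have := h k; have := s12 k; have := s13 k; omega
    · push Not at h3
      refine ⟨_, _, fun k => p j1 k + 2 * cr (U j1) (U j2) k, pg j1 hj1, pg j2 hj2,
        ⟨fun k => ?_, fun j hj => ?_⟩, ?_⟩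
      · have := po j1 hj1 k; beta_reduce; omega
      · have e : (U j ⬝ᵥ fun k => p j1 k + 2 * cr (U j1) (U j2) k) = U j ⬝ᵥ p j1 := by
          by_cases h : j = j1
          · subst h; simp only [dot3, cr0, cr1, cr2]; ring
          · rw [h3 j hj h]; simp only [dot3, cr0, cr1, cr2]; ring
        rw [e]; exact (pg j1 hj1).2 j hj
      · have e : d3 (p j1) (p j2) (fun k => p j1 k + 2 * cr (U j1) (U j2) k) =
            2 * ((U j1 ⬝ᵥ p j1) * (U j2 ⬝ᵥ p j2) - (U j1 ⬝ᵥ p j2) * (U j2 ⬝ᵥ p j1)) := by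
          simp only [d3, dot3, cr0, cr1, cr2]; ring
        rw [e]
        refine mul_ne_zero (by norm_num) (sub_ne_zero.mpr fun h => ?_)
        have h4 := congrArg abs h
        rw [abs_mul, abs_mul, pt j1 hj1, pt j2 hj2] at h4
        have k1 := ps j2 hj2 j1 hj1 n12
        have k2 := ps j1 hj1 j2 hj2 n12.symm
        have := mul_lt_mul'' k1 k2 (abs_nonneg _) (abs_nonneg _)
        omega
  obtain ⟨v1, v2, v3, k1, k2, k3, hv⟩ := exists_basis h0 (|d3 w1 w2 w3|.toNat + 1) w1 w2 w3 g1 g2 g3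
    hd (by have := abs_nonneg (d3 w1 w2 w3); push_cast; omega)
  exact false_of_basis hJ hDT hol wide (fun j hj => by have := hT j hj; omega) k1 k2 k3 hv

end Pool.Agent.MP_8c130c_co.Hollow

end
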