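import Pool.Agent.MP_8c130c_co.Defs
import Pool.Agent.Mg.F8c130c.G0a4521
import Mathlib
import Pool.Agent.Mg.F8c130c.Gcadb89
import Pool.Agent.Mg.F8c130c.G986728

section

/-!
Degree reduction: in dimension `m`, a lattice point of `t P` with `t ≥ m` is a lattice point of `P`
plus a lattice point of `(t-1) P`.
-/

namespace Pool.Agent.MP_8c130c_co.Reduce

open Pool.Agent.MP_8c130c_co

variable {m : ℕ}

lemma toReal_sub (x y : Fin m → ℤ) : toReal (x - y) = toReal x - toReal y := by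
  funext i; simp [toReal]

lemma toReal_add (x y : Fin m → ℤ) : toReal (x + y) = toReal x + toReal y := by
  funext i; simp [toReal]

lemma toReal_sum {ι : Type*} [Fintype ι] (v : ι → Fin m → ℤ) :
    toReal (∑ i, v i) = ∑ i, toReal (v i) := by
  funext k; simp [toReal]

lemma base {ι : Type*} [Fintype ι] {P : Set (Fin m → ℝ)} (hP : Convex ℝ P) {s : ℝ} (hs : 0 < s)
    (v : ι → Fin m → ℤ) (hv : ∀ i, toReal (v i) ∈ P) (l : ι → ℝ) (hl : ∀ i, 0 ≤ l i)
    (hsum : ∑ i, l i = s + 1) (x : Fin m → ℤ) (hx : ∑ i, l i • toReal (v i) = toReal x)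
    (j : ι) (hj : 1 ≤ l j) : ∃ y, toReal y ∈ P ∧ s⁻¹ • toReal (x - y) ∈ P := by
  classical
  refine ⟨v j, hv j, ?_⟩
  have h := hP.sum_mem (t := Finset.univ) (w := fun i => s⁻¹ * (l i - if i = j then 1 else 0))
    (z := fun i => toReal (v i)) (fun i _ => by
      refine mul_nonneg (inv_nonneg.mpr hs.le) ?_
      split_ifs with h
      · rw [h]; linarith
      · simpa using hl i)
    (by rw [← Finset.mul_sum, Finset.sum_sub_distrib, hsum]; simp [hs.ne']) (fun i _ => hv i)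
  convert h using 1
  simp only [mul_smul, ← Finset.smul_sum, sub_smul, Finset.sum_sub_distrib, hx, toReal_sub]
  simp

lemma exists_one_le {ι : Type*} [Fintype ι] (l : ι → ℝ) {t : ℝ} (hsum : ∑ i, l i = t)
    (ht : (Fintype.card ι : ℝ) ≤ t) (ht0 : 0 < t) : ∃ j, 1 ≤ l j := by
  by_contra hc
  push Not at hc
  rcases isEmpty_or_nonempty ι with h | h
  · simp at hsum; linarith
  · have := Finset.sum_lt_sum_of_nonempty Finset.univ_nonempty fun i _ => hc i
    simp at this; linarith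

lemma exists_one_le_of_zero (l : Fin (m + 1) → ℝ) {t : ℝ} (hsum : ∑ i, l i = t)
    (ht : (m : ℝ) ≤ t) (ht0 : 0 < t) (j : Fin (m + 1)) (hj : l j = 0) : ∃ j, 1 ≤ l j := by
  rw [Fin.sum_univ_succAbove _ j, hj, zero_add] at hsum
  obtain ⟨k, hk⟩ := exists_one_le _ hsum (by simpa using ht) ht0
  exact ⟨_, hk⟩

/-- The homogenised matrix of a family of lattice points. -/
def mat (v : Fin (m + 1) → Fin m → ℤ) : Matrix (Fin (m + 1)) (Fin (m + 1)) ℝ :=
  Matrix.of fun i => Fin.cons 1 (toReal (v i))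

lemma mat_det_int (v : Fin (m + 1) → Fin m → ℤ) : ∃ d : ℤ, (mat v).det = d := by
  refine ⟨(Matrix.of fun i => (Fin.cons 1 (v i) : Fin (m + 1) → ℤ)).det, ?_⟩
  rw [Int.cast_det]
  congr 1
  ext i j
  refine Fin.cases ?_ (fun k => ?_) j <;> simp [mat, toReal]

lemma simplex {P : Set (Fin m → ℝ)} (hP : Convex ℝ P) {s : ℕ} (hs : 0 < s) (hm : m ≤ s + 1)
    (x : Fin m → ℤ) (n : ℕ) : ∀ (v : Fin (m + 1) → Fin m → ℤ) (l : Fin (m + 1) → ℝ),
    |(mat v).det| < n → (∀ i, toReal (v i) ∈ P) → (∀ i, 0 ≤ l i) → ∑ i, l i = s + 1 →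
    ∑ i, l i • toReal (v i) = toReal x → ∃ y, toReal y ∈ P ∧ (s : ℝ)⁻¹ • toReal (x - y) ∈ P := by
  have hs' : (0 : ℝ) < s := by exact_mod_cast hs
  have hm' : (m : ℝ) ≤ s + 1 := by exact_mod_cast hm
  induction n with
  | zero => intro v l h; exact absurd h (by simp)
  | succ n ih =>
    intro v l hdet hv hl hsum hx
    by_cases h1 : ∃ j, 1 ≤ l j
    · obtain ⟨j, hj⟩ := h1
      exact base hP hs' v hv l hl hsum x hx j hj
    have hl0 : ∀ j, 0 < l j := fun j => (hl j).lt_of_ne fun h =>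
      h1 (exists_one_le_of_zero l hsum hm' (by linarith) j h.symm)
    by_cases hd : (mat v).det = 0
    · obtain ⟨c, hc0, hc⟩ := Matrix.exists_vecMul_eq_zero_iff.mpr hd
      have hc1 : ∑ i, c i = 0 := by
        simpa [Matrix.vecMul, dotProduct, mat] using congrFun hc 0
      have hc2 : ∑ i, c i • toReal (v i) = 0 := by
        funext k
        simpa [Matrix.vecMul, dotProduct, mat] using congrFun hc k.succ
      have hpos : ∃ i, 0 < c i := by
        by_contra hn
        push Not at hn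
        exact hc0 (funext fun i =>
          (Finset.sum_eq_zero_iff_of_nonpos fun i _ => hn i).mp hc1 i (Finset.mem_univ i))
      obtain ⟨j, -, hj⟩ := Finset.exists_max_image Finset.univ (fun i => c i / l i)
        Finset.univ_nonempty
      have hcj : 0 < c j := by
        obtain ⟨i, hi⟩ := hpos
        have := (div_pos hi (hl0 i)).trans_le (hj i (Finset.mem_univ i))
        exact (div_pos_iff_of_pos_right (hl0 j)).mp this
      have hsum' : ∑ i, (l i - l j / c j * c i) = s + 1 := by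
        rw [Finset.sum_sub_distrib, ← Finset.mul_sum, hc1, hsum]; simp
      obtain ⟨k, hk⟩ := exists_one_le_of_zero _ hsum' hm' (by linarith) j
        (by field_simp; ring)
      refine base hP hs' v hv _ (fun i => ?_) hsum' x ?_ k hk
      · have := hj i (Finset.mem_univ i)
        rw [div_le_div_iff₀ (hl0 i) (hl0 j)] at this
        rw [sub_nonneg, div_mul_eq_mul_div, div_le_iff₀ hcj]
        linarith
      · simp only [sub_smul, mul_smul, Finset.sum_sub_distrib, ← Finset.smul_sum, hc2, hx]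
        simp
    push Not at h1
    have hμ : ∑ i, (1 - l i) = 1 := by
      have h2 : 0 < ∑ i, (1 - l i) :=
        Finset.sum_pos (fun i _ => sub_pos.mpr (h1 i)) Finset.univ_nonempty
      rw [Finset.sum_sub_distrib, hsum] at h2 ⊢
      simp only [Finset.sum_const, Finset.card_univ, Fintype.card_fin, nsmul_eq_mul, mul_one,
        Nat.cast_add, Nat.cast_one] at h2 ⊢
      have h3 : s < m := by exact_mod_cast (show (s : ℝ) < m by linarith)
      have h4 : m = s + 1 := by omega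
      rw [h4]; push_cast; ring
    set y : Fin m → ℤ := ∑ i, v i - x with hy
    have hyr : toReal y = ∑ i, (1 - l i) • toReal (v i) := by
      simp only [hy, toReal_sub, toReal_sum, sub_smul, Finset.sum_sub_distrib, hx, one_smul]
    have hyP : toReal y ∈ P := by
      rw [hyr]
      exact hP.sum_mem (fun i _ => (sub_pos.mpr (h1 i)).le) hμ fun i _ => hv i
    obtain ⟨j, -, hj⟩ := Finset.exists_min_image Finset.univ (fun i => l i / (1 - l i))
      Finset.univ_nonempty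
    set τ := l j / (1 - l j) with hτ
    have hτj : l j - τ * (1 - l j) = 0 := by
      have := (sub_pos.mpr (h1 j)).ne'
      rw [hτ]; field_simp; ring
    refine ih (Function.update v j y) (fun i => l i - τ * (1 - l i) + if i = j then τ else 0)
      ?_ ?_ ?_ ?_ ?_
    · have e : mat (Function.update v j y) =
          (mat v).updateRow j (∑ k, (1 - l k) • mat v k) := by
        ext i k
        by_cases hi : i = j
        · subst hi
          refine Fin.cases ?_ (fun k => ?_) k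
          · simpa [mat, Finset.sum_apply] using hμ.symm
          · simpa [mat, Finset.sum_apply] using congrFun hyr k
        · simp [mat, hi]
      obtain ⟨d, hd1⟩ := mat_det_int v
      obtain ⟨d', hd2⟩ := mat_det_int (Function.update v j y)
      have h3 : |(d' : ℝ)| < |(d : ℝ)| := by
        rw [← hd1, ← hd2, e, Matrix.det_updateRow_sum, smul_eq_mul, abs_mul,
          abs_of_pos (sub_pos.mpr (h1 j))]
        have := abs_pos.mpr hd
        have := hl0 j
        nlinarith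
      rw [hd1] at hdet
      rw [hd2]
      have h4 : |d'| < |d| := by exact_mod_cast h3
      have h5 : |d| < (n : ℤ) + 1 := by exact_mod_cast hdet
      exact_mod_cast (show |d'| < (n : ℤ) by omega)
    · intro i
      by_cases hi : i = j
      · subst hi; simpa using hyP
      · simpa [hi] using hv i
    · intro i
      have h2 := hj i (Finset.mem_univ i)
      rw [le_div_iff₀ (sub_pos.mpr (h1 i))] at h2
      have h3 : 0 ≤ τ := div_nonneg (hl j) (sub_pos.mpr (h1 j)).le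
      split_ifs <;> linarith
    · rw [Finset.sum_add_distrib, Finset.sum_sub_distrib, ← Finset.mul_sum, hμ, hsum]; simp
    · have e : ∀ i, (l i - τ * (1 - l i) + if i = j then τ else 0) •
          toReal (Function.update v j y i) = (l i - τ * (1 - l i)) • toReal (v i) +
            if i = j then τ • toReal y else 0 := by
        intro i
        by_cases hi : i = j
        · subst hi; simp [hτj]
        · simp [hi]
      simp only [e, Finset.sum_add_distrib, Finset.sum_ite_eq', Finset.mem_univ, if_true]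
      rw [hyr]
      simp only [sub_smul (l _), mul_smul, Finset.sum_sub_distrib, ← Finset.smul_sum, hx]
      abel

theorem reduce {P : Set (Fin m → ℝ)} (hP : Convex ℝ P) {s : ℕ} (hs : 0 < s) (hm : m ≤ s + 1)
    (V : Set (Fin m → ℤ)) (hV : ∀ v ∈ V, toReal v ∈ P) (x : Fin m → ℤ)
    (hx : ((s : ℝ) + 1)⁻¹ • toReal x ∈ convexHull ℝ (toReal '' V)) :
    ∃ y, toReal y ∈ P ∧ (s : ℝ)⁻¹ • toReal (x - y) ∈ P := by
  have hs' : (0 : ℝ) < s := by exact_mod_cast hs
  obtain ⟨ι, _, z, w, hz, hind, hw0, hw1, hwx⟩ := eq_pos_convex_span_of_mem_convexHull hx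
  have hz' : ∀ i, ∃ v ∈ V, toReal v = z i := fun i => hz (Set.mem_range_self i)
  choose v hvV hvz using hz'
  have hcard : Fintype.card ι ≤ m + 1 := by
    refine hind.card_le_finrank_succ.trans ?_
    have := Submodule.finrank_le (vectorSpan ℝ (Set.range z))
    simpa using this
  have hl : ∀ i, 0 ≤ ((s : ℝ) + 1) * w i := fun i => mul_nonneg (by linarith) (hw0 i).le
  have hsum : ∑ i, ((s : ℝ) + 1) * w i = s + 1 := by rw [← Finset.mul_sum, hw1, mul_one]
  have hx' : ∑ i, (((s : ℝ) + 1) * w i) • toReal (v i) = toReal x := by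
    simp only [mul_smul, ← Finset.smul_sum, hvz, hwx]
    rw [smul_inv_smul₀ (by linarith)]
  rcases hcard.lt_or_eq with h | h
  · obtain ⟨j, hj⟩ := exists_one_le _ hsum
      (by exact_mod_cast (show Fintype.card ι ≤ s + 1 by omega)) (by linarith)
    exact base hP hs' v (fun i => hV _ (hvV i)) _ hl hsum x hx' j hj
  · let e : Fin (m + 1) ≃ ι := (Fintype.equivFinOfCardEq h).symm
    obtain ⟨n, hn⟩ := exists_nat_gt |(mat (v ∘ e)).det|
    refine simplex hP hs hm x n (v ∘ e) (fun i => ((s : ℝ) + 1) * w (e i)) hn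
      (fun i => hV _ (hvV _)) (fun i => hl _) ?_ ?_
    · exact (e.sum_comp fun i => ((s : ℝ) + 1) * w i).trans hsum
    · exact (e.sum_comp fun i => (((s : ℝ) + 1) * w i) • toReal (v i)).trans hx'

end Pool.Agent.MP_8c130c_co.Reduce

end

section

/-!
Unimodular corners of a Delzant lattice polytope.
-/

namespace Pool.Agent.MP_8c130c_co

open Reduce

variable {d : ℕ}

/-- A lattice point of `P` with dual lattice bases `e` (edge directions) and `u` (inner facet
normals). -/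
structure Corner (P : Set (Fin d → ℝ)) where
  v : Fin d → ℤ
  e : Fin d → Fin d → ℤ
  u : Fin d → Fin d → ℤ
  dual : ∀ i j, u i ⬝ᵥ e j = if i = j then 1 else 0
  mem : toReal v ∈ P
  edge : ∀ i, toReal (v + e i) ∈ P
  ineq : ∀ i, ∀ y ∈ P, 0 ≤ toReal (u i) ⬝ᵥ (y - toReal v)

namespace Corner

variable {P : Set (Fin d → ℝ)} (c : Corner P)

lemma dual' (k l : Fin d) : ∑ j, c.e j k * c.u j l = if k = l then 1 else 0 := by
  have h : Matrix.of c.u * (Matrix.of c.e).transpose = 1 := by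
    ext i j
    simpa [Matrix.mul_apply, Matrix.one_apply, dotProduct] using c.dual i j
  have h1 : (Matrix.of c.e).transpose * Matrix.of c.u = 1 := mul_eq_one_comm.mp h
  have h2 : ((Matrix.of c.e).transpose * Matrix.of c.u) k l = (1 : Matrix _ _ ℤ) k l := by rw [h1]
  simpa [Matrix.mul_apply, Matrix.one_apply] using h2

lemma expandZ (a y : Fin d → ℤ) : a ⬝ᵥ y = ∑ j, (a ⬝ᵥ c.e j) * (c.u j ⬝ᵥ y) := by
  have : ∑ j, (a ⬝ᵥ c.e j) * (c.u j ⬝ᵥ y) = ∑ k, ∑ l, a k * (∑ j, c.e j k * c.u j l) * y l := by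
    simp only [dotProduct, Finset.sum_mul, Finset.mul_sum]
    rw [Finset.sum_comm]
    refine (Finset.sum_congr rfl fun l _ => Finset.sum_comm).trans ?_
    rw [Finset.sum_comm]
    refine Finset.sum_congr rfl fun k _ => Finset.sum_congr rfl fun l _ =>
      Finset.sum_congr rfl fun j _ => by ring
  rw [this]
  simp [c.dual', dotProduct]

lemma expand (a y : Fin d → ℝ) :
    a ⬝ᵥ y = ∑ j, (a ⬝ᵥ toReal (c.e j)) * (toReal (c.u j) ⬝ᵥ y) := by
  have hd : ∀ k l, ∑ j, (c.e j k : ℝ) * c.u j l = if k = l then 1 else 0 := by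
    intro k l
    have := congrArg (Int.cast : ℤ → ℝ) (c.dual' k l)
    push_cast at this
    exact this
  have : ∑ j, (a ⬝ᵥ toReal (c.e j)) * (toReal (c.u j) ⬝ᵥ y) =
      ∑ k, ∑ l, a k * (∑ j, (c.e j k : ℝ) * c.u j l) * y l := by
    simp only [dotProduct, toReal, Finset.sum_mul, Finset.mul_sum]
    rw [Finset.sum_comm]
    refine (Finset.sum_congr rfl fun l _ => Finset.sum_comm).trans ?_
    rw [Finset.sum_comm]
    refine Finset.sum_congr rfl fun k _ => Finset.sum_congr rfl fun l _ =>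
      Finset.sum_congr rfl fun j _ => by ring
  rw [this]
  simp [hd, dotProduct]

lemma ineqZ (i : Fin d) {y : Fin d → ℤ} (hy : toReal y ∈ P) : 0 ≤ c.u i ⬝ᵥ (y - c.v) := by
  have := c.ineq i _ hy
  rw [← toReal_sub, toReal_dot] at this
  exact_mod_cast this

lemma edge_nonneg {a : Fin d → ℝ} (h : ∀ y ∈ P, a ⬝ᵥ toReal c.v ≤ a ⬝ᵥ y) (j : Fin d) :
    0 ≤ a ⬝ᵥ toReal (c.e j) := by
  have := h _ (c.edge j)
  rw [toReal_add, dotProduct_add] at this
  linarith

end Corner

lemma mem_of_forall_le {P : Set (Fin d → ℝ)} (hP : Convex ℝ P) (hc : IsClosed P) {y : Fin d → ℝ}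
    (h : ∀ a : Fin d → ℝ, ∃ q ∈ P, a ⬝ᵥ q ≤ a ⬝ᵥ y) : y ∈ P := by
  by_contra hy
  obtain ⟨f, r, h1, h2⟩ := geometric_hahn_banach_point_closed hP hc hy
  obtain ⟨a, ha⟩ := exists_dot f
  obtain ⟨q, hq, h3⟩ := h a
  have := h2 q hq
  rw [ha] at h1 this
  linarith

lemma exists_strict (V : Finset (Fin d → ℤ)) (hV : V.Nonempty) (a : Fin d → ℝ) :
    ∃ v ∈ V, (∀ w ∈ V, a ⬝ᵥ toReal v ≤ a ⬝ᵥ toReal w) ∧
      ∃ l : Fin d → ℝ, ∀ w ∈ V, w ≠ v → l ⬝ᵥ toReal w < l ⬝ᵥ toReal v := by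
  classical
  obtain ⟨v0, hv0, hmin⟩ := V.exists_min_image (fun v => a ⬝ᵥ toReal v) hV
  obtain ⟨v, hv, hmax⟩ := (V.filter fun v => a ⬝ᵥ toReal v = a ⬝ᵥ toReal v0).exists_max_image
    (fun v => toReal v ⬝ᵥ toReal v) ⟨v0, by simp [hv0]⟩
  obtain ⟨hvV, hva⟩ := Finset.mem_filter.mp hv
  refine ⟨v, hvV, fun w hw => hva ▸ hmin w hw, ?_⟩
  have key : ∀ w ∈ V, ∀ᶠ N : ℝ in Filter.atTop, w ≠ v →
      (toReal v - N • a) ⬝ᵥ toReal w < (toReal v - N • a) ⬝ᵥ toReal v := by
    intro w hw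
    simp only [sub_dotProduct, smul_dotProduct, smul_eq_mul]
    rcases (hmin w hw).eq_or_lt with h | h
    · refine Filter.Eventually.of_forall fun N hne => ?_
      have h1 := hmax w (Finset.mem_filter.mpr ⟨hw, h.symm⟩)
      have h2 : 0 < (toReal v - toReal w) ⬝ᵥ (toReal v - toReal w) := by
        refine lt_of_le_of_ne (Finset.sum_nonneg fun i _ => mul_self_nonneg _) fun h3 => hne ?_
        have h4 := dotProduct_self_eq_zero.mp h3.symm
        funext k
        have := congrFun h4 k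
        simp only [toReal, Pi.sub_apply, Pi.zero_apply, sub_eq_zero] at this
        exact_mod_cast this.symm
      simp only [sub_dotProduct, dotProduct_sub] at h2
      rw [dotProduct_comm (toReal w) (toReal v)] at h2
      rw [hva, ← h]
      linarith
    · filter_upwards [Filter.eventually_gt_atTop ((toReal v ⬝ᵥ toReal w - toReal v ⬝ᵥ toReal v) /
        (a ⬝ᵥ toReal w - a ⬝ᵥ toReal v0))] with N hN _
      rw [div_lt_iff₀ (sub_pos.mpr h)] at hN
      rw [hva]
      linarith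
  obtain ⟨N, hN⟩ := ((Filter.eventually_all_finset V).mpr key).exists
  exact ⟨_, hN⟩

lemma le_of_vertices {V : Finset (Fin d → ℤ)} {a : Fin d → ℝ} {r : ℝ}
    (h : ∀ w ∈ V, a ⬝ᵥ toReal w ≤ r) :
    ∀ y ∈ convexHull ℝ (toReal '' (V : Set (Fin d → ℤ))), a ⬝ᵥ y ≤ r := by
  intro y hy
  have hne : V.Nonempty := by
    obtain ⟨_, v, hv, -⟩ := convexHull_nonempty_iff.1 ⟨y, hy⟩
    exact ⟨v, hv⟩
  obtain ⟨v, hv, hmax⟩ := exists_max_vertex V hne a
  exact (hmax y hy).trans (h v hv)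

lemma exists_corner {V : Finset (Fin d → ℤ)}
    (hD : IsDelzant (convexHull ℝ (toReal '' (V : Set (Fin d → ℤ))))) {v : Fin d → ℤ} (hv : v ∈ V)
    {l : Fin d → ℝ} (hl : ∀ w ∈ V, w ≠ v → l ⬝ᵥ toReal w < l ⬝ᵥ toReal v) :
    ∃ c : Corner (convexHull ℝ (toReal '' (V : Set (Fin d → ℤ)))), c.v = v := by
  classical
  set P := convexHull ℝ (toReal '' (V : Set (Fin d → ℤ))) with hP
  have hsub : ∀ w ∈ V, toReal w ∈ P := fun w hw => subset_convexHull ℝ _ ⟨w, hw, rfl⟩
  have hexp : IsExposed ℝ P {toReal v} := by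
    intro _
    refine ⟨LinearMap.toContinuousLinearMap ((dotProductBilin ℝ ℝ) l), ?_⟩
    have hconv : Convex ℝ {y : Fin d → ℝ | l ⬝ᵥ y < l ⬝ᵥ toReal v ∨ y = toReal v} := by
      intro x hx y hy s t hs ht hst
      simp only [Set.mem_ofPred_eq, dotProduct_add, dotProduct_smul, smul_eq_mul] at *
      obtain rfl : t = 1 - s := by linarith
      rcases hx with hx | rfl <;> rcases hy with hy | rfl
      · left
        rcases hs.eq_or_lt with rfl | hs'
        · simpa using hy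
        · nlinarith
      · rcases hs.eq_or_lt with rfl | hs'
        · right; simp
        · left; nlinarith
      · rcases ht.eq_or_lt with h | ht'
        · right; rw [← h, show s = 1 by linarith]; simp
        · left; nlinarith
      · right; rw [← add_smul]; simp
    have hall : ∀ y ∈ P, l ⬝ᵥ y < l ⬝ᵥ toReal v ∨ y = toReal v := by
      refine convexHull_min ?_ hconv
      rintro _ ⟨w, hw, rfl⟩
      by_cases h : w = v
      · right; rw [h]
      · left; exact hl w hw h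
    ext y
    simp only [Set.mem_singleton_iff, Set.mem_ofPred_eq, LinearMap.coe_toContinuousLinearMap',
      dotProductBilin_apply_apply]
    constructor
    · rintro rfl
      exact ⟨hsub v hv, fun z hz => (hall z hz).elim le_of_lt fun h => by rw [h]⟩
    · rintro ⟨hy, h⟩
      exact (hall y hy).resolve_left (not_lt.mpr (h _ (hsub v hv)))
  obtain ⟨b, S, hS⟩ := hD _ hexp (Set.singleton_nonempty _)
  have hN : ∀ w : Fin d → ℝ, w ∈ normalCone P {toReal v} ↔
      ∀ z ∈ V, w ⬝ᵥ toReal z ≤ w ⬝ᵥ toReal v := by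
    intro w
    constructor
    · intro h z hz; exact h _ rfl _ (hsub z hz)
    · rintro h _ rfl; exact le_of_vertices h
  let e : Fin d → Fin d → ℤ := fun j k => b.repr (Pi.single k 1) j
  have hdual : ∀ i j, b i ⬝ᵥ e j = if i = j then 1 else 0 := by
    have h : (Matrix.of e).transpose * Matrix.of b = 1 := by
      ext k m
      have := congrFun (b.sum_repr (Pi.single k 1)) m
      simpa [Matrix.mul_apply, Matrix.one_apply, e, Pi.single_apply, eq_comm] using this
    intro i j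
    have h1 : Matrix.of b * (Matrix.of e).transpose = 1 := mul_eq_one_comm.mp h
    have h2 : (Matrix.of b * (Matrix.of e).transpose) i j = (1 : Matrix _ _ ℤ) i j := by rw [h1]
    simpa [Matrix.mul_apply, Matrix.one_apply, dotProduct] using h2
  have hco : ∀ w ∈ normalCone P {toReal v}, ∀ j,
      0 ≤ w ⬝ᵥ toReal (e j) ∧ (j ∉ S → w ⬝ᵥ toReal (e j) = 0) := by
    intro w hw j
    rw [hS] at hw
    obtain ⟨c, hc, rfl⟩ := hw
    simp only [sum_dotProduct, smul_dotProduct, toReal_dot, hdual, smul_eq_mul]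
    simp only [Int.cast_ite, Int.cast_one, Int.cast_zero, mul_ite, mul_one, mul_zero,
      Finset.sum_ite_eq']
    split_ifs with h
    · exact ⟨hc j, fun h' => absurd h h'⟩
    · exact ⟨le_rfl, fun _ => rfl⟩
  have hSall : ∀ j, j ∈ S := by
    intro j
    by_contra hj
    have key : ∀ z ∈ V, ∀ᶠ N : ℝ in Filter.atTop,
        (toReal (b j) + N • l) ⬝ᵥ toReal z ≤ (toReal (b j) + N • l) ⬝ᵥ toReal v := by
      intro z hz
      by_cases h : z = v
      · rw [h]; exact Filter.Eventually.of_forall fun _ => le_rfl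
      · simp only [add_dotProduct, smul_dotProduct, smul_eq_mul]
        filter_upwards [Filter.eventually_gt_atTop ((toReal (b j) ⬝ᵥ toReal z -
          toReal (b j) ⬝ᵥ toReal v) / (l ⬝ᵥ toReal v - l ⬝ᵥ toReal z))] with N hN
        rw [div_lt_iff₀ (sub_pos.mpr (hl z hz h))] at hN
        linarith
    obtain ⟨N, hN'⟩ := ((Filter.eventually_all_finset V).mpr key).exists
    have h1 := (hco _ ((hN _).mpr hN') j).2 hj
    have h2 := (hco l ((hN _).mpr fun z hz => by
      by_cases h : z = v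
      · rw [h]
      · exact (hl z hz h).le) j).2 hj
    rw [add_dotProduct, smul_dotProduct, h2, toReal_dot, hdual] at h1
    simp at h1
  have hb : ∀ i, ∀ y ∈ P, toReal (b i) ⬝ᵥ y ≤ toReal (b i) ⬝ᵥ toReal v := by
    intro i
    have : toReal (b i) ∈ normalCone P {toReal v} := by
      rw [hS]
      refine ⟨Pi.single i 1, fun k => by by_cases h : k = i <;> simp [h], ?_⟩
      rw [Finset.sum_eq_single i (fun k _ hk => by simp [hk]) fun h => absurd (hSall i) h]
      simp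
    exact this _ rfl
  have hbZ : ∀ i, ∀ z ∈ V, 0 ≤ b i ⬝ᵥ (v - z) := by
    intro i z hz
    have := hb i _ (hsub z hz)
    rw [toReal_dot, toReal_dot] at this
    rw [dotProduct_sub, sub_nonneg]
    exact_mod_cast this
  have hexpand : ∀ y : Fin d → ℤ, y = ∑ j, (b j ⬝ᵥ y) • e j := by
    intro y
    funext k
    have h : ∀ m, ∑ j, e j k * b j m = if k = m then 1 else 0 := by
      intro m
      have := congrFun (b.sum_repr (Pi.single k 1)) m
      simpa [e, Pi.single_apply, eq_comm] using this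
    have : ∑ j, (b j ⬝ᵥ y) * e j k = ∑ m, (∑ j, e j k * b j m) * y m := by
      simp only [dotProduct, Finset.sum_mul]
      rw [Finset.sum_comm]
      exact Finset.sum_congr rfl fun m _ => Finset.sum_congr rfl fun j _ => by ring
    simp only [Finset.sum_apply, Pi.smul_apply, smul_eq_mul, this, h]
    simp
  refine ⟨⟨v, fun j => -e j, fun i => -b i, fun i j => by simp [hdual], hsub v hv, fun i => ?_,
    fun i y hy => ?_⟩, rfl⟩
  · obtain ⟨z, hz, hz1, hz2⟩ : ∃ z ∈ V, 0 < b i ⬝ᵥ (v - z) ∧ ∀ j, j ≠ i → b j ⬝ᵥ (v - z) = 0 := by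
      by_contra hc
      push Not at hc
      have key : ∀ z ∈ V, ∀ᶠ N : ℤ in Filter.atTop,
          b i ⬝ᵥ (v - z) ≤ N * ∑ j ∈ Finset.univ.erase i, b j ⬝ᵥ (v - z) := by
        intro z hz
        have h0 : 0 ≤ ∑ j ∈ Finset.univ.erase i, b j ⬝ᵥ (v - z) :=
          Finset.sum_nonneg fun j _ => hbZ j z hz
        rcases (hbZ i z hz).eq_or_lt with h | h
        · filter_upwards [Filter.eventually_ge_atTop 0] with N hN
          rw [← h]; exact mul_nonneg hN h0
        · obtain ⟨j, hj, hj0⟩ := hc z hz h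
          have h1 : 1 ≤ ∑ j ∈ Finset.univ.erase i, b j ⬝ᵥ (v - z) := by
            have h2 := Finset.single_le_sum (f := fun j => b j ⬝ᵥ (v - z))
              (fun j _ => hbZ j z hz) (show j ∈ Finset.univ.erase i by simp [hj])
            have := hbZ j z hz
            omega
          filter_upwards [Filter.eventually_ge_atTop (b i ⬝ᵥ (v - z))] with N hN
          nlinarith
      obtain ⟨N, hN'⟩ := ((Filter.eventually_all_finset V).mpr key).exists
      have h1 := (hco (toReal (N • ∑ j ∈ Finset.univ.erase i, b j - b i)) ((hN _).mpr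
        fun z hz => by
          rw [toReal_dot, toReal_dot]
          have := hN' z hz
          simp only [dotProduct_sub, Finset.sum_sub_distrib] at this
          simp only [sub_dotProduct, smul_dotProduct, sum_dotProduct, smul_eq_mul]
          exact_mod_cast (by linarith)) i).1
      rw [toReal_dot, sub_dotProduct, smul_dotProduct, sum_dotProduct,
        Finset.sum_eq_zero fun j hj => by rw [hdual, if_neg (Finset.ne_of_mem_erase hj)],
        hdual] at h1
      norm_num at h1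
    have h1 : v - z = (b i ⬝ᵥ (v - z)) • e i := by
      conv_lhs => rw [hexpand (v - z)]
      exact Finset.sum_eq_single i (fun j _ hj => by rw [hz2 j hj, zero_smul]) (by simp)
    generalize b i ⬝ᵥ (v - z) = n at h1 hz1
    have hn : (1 : ℝ) ≤ n := by exact_mod_cast hz1
    have h2 := convex_convexHull ℝ _ (hsub v hv) (hsub z hz) (a := 1 - (n : ℝ)⁻¹) (b := (n : ℝ)⁻¹)
      (sub_nonneg.mpr (inv_le_one_of_one_le₀ hn)) (by positivity) (by ring)
    convert h2 using 1
    funext k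
    have h3 : ((v k : ℝ) - z k) = n * e i k := by exact_mod_cast congrFun h1 k
    simp only [toReal, Pi.add_apply, Pi.neg_apply, Pi.smul_apply, smul_eq_mul]
    push_cast
    field_simp
    linarith
  · have := hb i y hy
    have e1 : toReal (-b i) = -toReal (b i) := by funext k; simp [toReal]
    rw [e1, neg_dotProduct, dotProduct_sub]
    linarith

theorem exists_corners {P : Set (Fin d → ℝ)} (hP : IsLatticePolytope P) (hD : IsDelzant P) :
    ∃ (σ : Type) (_ : Fintype σ) (c : σ → Corner P),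
      ∀ a : Fin d → ℝ, ∃ s, ∀ y ∈ P, a ⬝ᵥ toReal (c s).v ≤ a ⬝ᵥ y := by
  classical
  obtain ⟨⟨V, rfl⟩, hs⟩ := hP
  have hVne : V.Nonempty := by
    obtain ⟨x, hx⟩ := nonempty_of_span hs
    obtain ⟨_, v, hv, -⟩ := convexHull_nonempty_iff.1 ⟨x, hx⟩
    exact ⟨v, hv⟩
  let σ := {v // v ∈ V.filter fun v =>
    ∃ c : Corner (convexHull ℝ (toReal '' (V : Set (Fin d → ℤ)))), c.v = v}
  have h : ∀ s : σ, ∃ c : Corner (convexHull ℝ (toReal '' (V : Set (Fin d → ℤ)))), c.v = s.1 :=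
    fun s => (Finset.mem_filter.mp s.2).2
  choose c hc using h
  refine ⟨σ, inferInstance, c, fun a => ?_⟩
  obtain ⟨v, hv, hmin, l, hl⟩ := exists_strict V hVne a
  refine ⟨⟨v, Finset.mem_filter.mpr ⟨hv, exists_corner hD hv hl⟩⟩, fun y hy => ?_⟩
  rw [hc]
  have := le_of_vertices (a := -a) (r := -(a ⬝ᵥ toReal v))
    (fun w hw => by rw [neg_dotProduct]; linarith [hmin w hw]) y hy
  rw [neg_dotProduct] at this
  linarith

end Pool.Agent.MP_8c130c_co

end

section

/-!
A one-variable inequality for a convex piecewise linear function with integer slopes of fixed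
parity whose pieces of small slope are short.
-/

namespace Pool.Agent.MP_8c130c_co.Slope

structure PL (g : ℝ → ℝ) (Act : ℝ → ℤ → Prop) (ε : ℤ) : Prop where
  nonneg : ∀ s, 0 ≤ g s
  ex : ∀ s, ∃ k, Act s k
  supp : ∀ s k s', Act s k → g s + k * (s' - s) ≤ g s'
  par : ∀ s k, Act s k → k % 2 = ε
  len : ∀ s k s' s'', Act s k → |k| ≤ 2 → g s' ≤ g s + k * (s' - s) →
    g s'' ≤ g s + k * (s'' - s) → 3 * |s' - s''| ≤ g s'

variable {g : ℝ → ℝ} {Act : ℝ → ℤ → Prop} {ε : ℤ}

lemma PL.reflect (h : PL g Act ε) : PL (fun s => g (1 - s)) (fun s k => Act (1 - s) (-k)) ε where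
  nonneg := fun s => h.nonneg _
  ex := fun s => by
    obtain ⟨k, hk⟩ := h.ex (1 - s)
    exact ⟨-k, by simpa using hk⟩
  supp := fun s k s' hk => by
    have := h.supp _ _ (1 - s') hk
    push_cast at this
    linarith
  par := fun s k hk => by
    have := h.par _ _ hk
    omega
  len := fun s k s' s'' hk h1 h2 h3 => by
    have := h.len _ _ (1 - s') (1 - s'') hk (by simpa using h1) (by push_cast; linarith)
      (by push_cast; linarith)
    rwa [show 1 - s' - (1 - s'') = -(s' - s'') by ring, abs_neg] at this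

lemma le_of_near {a b x y c : ℝ} (hab : a < b) (hc : 0 ≤ c)
    (h : ∀ s, a < s → s ≤ b → x - c * (s - a) ≤ y) : x ≤ y := by
  refine le_of_forall_pos_le_add fun δ hδ => ?_
  have hc1 : 0 < c + 1 := by linarith
  have h1 : 0 < δ / (c + 1) := div_pos hδ hc1
  have h2 : c * (δ / (c + 1)) ≤ δ := by
    rw [mul_div_assoc', div_le_iff₀ hc1]; nlinarith
  rcases le_total (a + δ / (c + 1)) b with h3 | h3
  · have := h _ (by linarith) h3
    rw [add_sub_cancel_left] at this
    linarith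
  · have := h b hab le_rfl
    have h4 : c * (b - a) ≤ c * (δ / (c + 1)) := mul_le_mul_of_nonneg_left (by linarith) hc
    linarith

lemma PL.right (h : PL g Act ε) {r : ℝ} (hr1 : r ≤ 1) (hmin : ∀ s, r < s → s ≤ 1 → g r < g s)
    {k0 : ℤ} (hk0 : k0 = 1 ∨ k0 = 2) (hε : k0 % 2 = ε) :
    g r + 3 * (1 - r) - (3 - k0) * (g r / 3) ≤ g 1 := by
  have hk0' : (1 : ℝ) ≤ k0 ∧ (k0 : ℝ) ≤ 2 := by
    rcases hk0 with rfl | rfl <;> norm_num
  have hG := h.nonneg r
  have ha : ∀ s k, r < s → s ≤ 1 → Act s k → k0 ≤ k := by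
    intro s k h1 h2 hk
    have h3 := h.supp _ _ r hk
    have h4 := hmin s h1 h2
    have h5 : 0 < k := by
      by_contra hc
      have h6 : (k : ℝ) ≤ 0 := by exact_mod_cast not_lt.mp hc
      nlinarith
    have := h.par _ _ hk
    omega
  have hb : ∀ s, r ≤ s → s ≤ 1 → g r + k0 * (s - r) ≤ g s := by
    intro s h1 h2
    rcases h1.eq_or_lt with rfl | h1
    · simp
    refine le_of_near h1 (show (0 : ℝ) ≤ k0 by linarith) fun s' h3 h4 => ?_
    obtain ⟨k, hk⟩ := h.ex s'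
    have h5 : (k0 : ℝ) ≤ k := by exact_mod_cast ha s' k h3 (h4.trans h2) hk
    have h6 := h.supp _ _ s hk
    have h7 := hmin s' h3 (h4.trans h2)
    nlinarith [mul_le_mul_of_nonneg_right h5 (sub_nonneg.mpr h4)]
  rcases le_or_gt 1 (r + g r / 3) with h1 | h1
  · have := hb 1 hr1 le_rfl
    nlinarith [mul_le_mul_of_nonneg_left (show 1 - r ≤ g r / 3 by linarith)
      (show (0 : ℝ) ≤ 3 - k0 by linarith)]
  · refine le_of_near h1 (show (0 : ℝ) ≤ 3 - k0 by linarith) fun s h2 h3 => ?_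
    obtain ⟨k, hk⟩ := h.ex s
    have hrs : r < s := by linarith
    have h4 := hb s hrs.le h3
    have h5 : 3 ≤ k := by
      by_contra hc
      have h6 := ha s k hrs h3 hk
      have h7 := h.par _ _ hk
      obtain rfl : k = k0 := by omega
      have := h.len s k r s hk (by rcases hk0 with rfl | rfl <;> norm_num) (by linarith)
        (by simp)
      rw [abs_of_neg (by linarith)] at this
      linarith
    have h6 : (3 : ℝ) ≤ k := by exact_mod_cast h5
    have h7 := h.supp _ _ 1 hk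
    nlinarith [mul_le_mul_of_nonneg_right h6 (sub_nonneg.mpr h3)]

theorem PL.three_le (h : PL g Act ε) (hc : Continuous g) : 3 ≤ g 0 + g 1 := by
  obtain ⟨s0, hs0, hmin⟩ := (isCompact_Icc (a := (0 : ℝ)) (b := 1)).exists_isMinOn
    ⟨0, by simp⟩ hc.continuousOn
  have hK : IsCompact (Set.Icc (0 : ℝ) 1 ∩ {s | g s ≤ g s0}) :=
    isCompact_Icc.inter_right (isClosed_le hc continuous_const)
  obtain ⟨r, ⟨hr, hgr⟩, hrmax⟩ := hK.exists_isGreatest ⟨s0, hs0, le_refl (g s0)⟩
  obtain ⟨l, ⟨hl, hgl⟩, hlmin⟩ := hK.exists_isLeast ⟨s0, hs0, le_refl (g s0)⟩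
  have hgr' : g r = g s0 := le_antisymm hgr (hmin hr)
  have hgl' : g l = g s0 := le_antisymm hgl (hmin hl)
  have hlr : l ≤ r := hrmax ⟨hl, hgl⟩
  have hε : ε = 0 ∨ ε = 1 := by
    obtain ⟨k, hk⟩ := h.ex 0
    have := h.par _ _ hk
    omega
  have hR : ∀ s, r < s → s ≤ 1 → g r < g s := by
    intro s h1 h2
    by_contra h3
    exact absurd (hrmax ⟨⟨hr.1.trans h1.le, h2⟩, (not_lt.mp h3).trans hgr⟩) (not_le.mpr h1)
  have hL : ∀ s, 1 - l < s → s ≤ 1 → g (1 - (1 - l)) < g (1 - s) := by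
    intro s h1 h2
    by_contra h3
    rw [sub_sub_cancel] at h3
    have := hlmin ⟨⟨by linarith, by linarith [hl.2]⟩, (not_lt.mp h3).trans hgl⟩
    linarith
  have hG := h.nonneg s0
  have hmid : l < r → ε = 0 ∧ 3 * (r - l) ≤ g s0 := by
    intro hlt
    obtain ⟨k, hk⟩ := h.ex ((l + r) / 2)
    have h1 := h.supp _ _ l hk
    have h2 := h.supp _ _ r hk
    have h3 : g s0 ≤ g ((l + r) / 2) := hmin ⟨by linarith [hl.1], by linarith [hr.2]⟩
    have h4 : k = 0 := by
      rcases lt_trichotomy k 0 with h5 | h5 | h5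
      · have : (k : ℝ) < 0 := by exact_mod_cast h5
        nlinarith
      · exact h5
      · have : (0 : ℝ) < k := by exact_mod_cast h5
        nlinarith
    subst h4
    refine ⟨(h.par _ _ hk).symm, ?_⟩
    have := h.len _ _ r l hk (by simp) (by simp; linarith) (by simp; linarith)
    rwa [abs_of_pos (by linarith), hgr'] at this
  rcases hε with rfl | rfl
  · have h1 := h.right hr.2 hR (k0 := 2) (by simp) (by simp)
    have h2 := h.reflect.right (r := 1 - l) (by linarith [hl.1]) hL (k0 := 2) (by simp) (by simp)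
    simp only [sub_sub_cancel, sub_self] at h2
    rw [hgr'] at h1
    rw [hgl'] at h2
    push_cast at h1 h2
    rcases hlr.eq_or_lt with h3 | h3
    · rw [h3] at h2; linarith
    · linarith [(hmid h3).2]
  · have h1 := h.right hr.2 hR (k0 := 1) (by simp) (by simp)
    have h2 := h.reflect.right (r := 1 - l) (by linarith [hl.1]) hL (k0 := 1) (by simp) (by simp)
    simp only [sub_sub_cancel, sub_self] at h2
    rw [hgr'] at h1
    rw [hgl'] at h2
    push_cast at h1 h2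
    rcases hlr.eq_or_lt with h3 | h3
    · rw [h3] at h2; linarith
    · exact absurd (hmid h3).1 (by norm_num)

end Pool.Agent.MP_8c130c_co.Slope

end

section

/-!
If a lattice point `x` of `2P` has lattice distance at least three from all facets of `2P`, then
`P ∩ (x - P)` has lattice width at least three.
-/

namespace Pool.Agent.MP_8c130c_co

open Reduce

variable {d : ℕ} {P : Set (Fin d → ℝ)} {σ : Type} [Fintype σ] {c : σ → Corner P}

lemma toReal_two_smul (v : Fin d → ℤ) : toReal ((2 : ℤ) • v) = (2 : ℝ) • toReal v := by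
  funext k; simp [toReal]

lemma dot_sub_two (a : Fin d → ℝ) (x v : Fin d → ℤ) :
    a ⬝ᵥ toReal (x - (2 : ℤ) • v) = 2 * (a ⬝ᵥ ((2 : ℝ)⁻¹ • toReal x) - a ⬝ᵥ toReal v) := by
  rw [toReal_sub, toReal_two_smul, dotProduct_sub, dotProduct_smul, dotProduct_smul]
  simp only [smul_eq_mul]; ring

lemma three_le_support (hmin : ∀ a : Fin d → ℝ, ∃ s, ∀ y ∈ P, a ⬝ᵥ toReal (c s).v ≤ a ⬝ᵥ y)
    {x : Fin d → ℤ} (hx : (2 : ℝ)⁻¹ • toReal x ∈ P)
    (hD : ∀ s i, 3 ≤ (c s).u i ⬝ᵥ (x - (2 : ℤ) • (c s).v)) {u : Fin d → ℤ} (hu : u ≠ 0)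
    (a : Fin d → ℝ) : ∃ s t, 3 ≤ a ⬝ᵥ toReal (x - (2 : ℤ) • (c s).v) +
      (a + toReal u) ⬝ᵥ toReal (x - (2 : ℤ) • (c t).v) := by
  have hne : (Finset.univ : Finset σ).Nonempty := by
    obtain ⟨s, -⟩ := hmin 0
    exact ⟨s, Finset.mem_univ s⟩
  let w : σ → Fin d → ℤ := fun t => x - (2 : ℤ) • (c t).v
  let L : σ → ℝ → ℝ := fun t s => (a + s • toReal u) ⬝ᵥ toReal (w t)
  have hL : ∀ t s, L t s = a ⬝ᵥ toReal (w t) + s * (u ⬝ᵥ w t : ℤ) := by
    intro t s
    simp only [L, add_dotProduct, smul_dotProduct, toReal_dot, smul_eq_mul]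
  let g : ℝ → ℝ := fun s => Finset.univ.sup' hne fun t => L t s
  have hge : ∀ t s, L t s ≤ g s := fun t s =>
    Finset.le_sup' (fun t => L t s) (Finset.mem_univ t)
  have hex : ∀ s, ∃ t, g s = L t s := by
    intro s
    obtain ⟨t, -, ht⟩ := Finset.exists_mem_eq_sup' hne fun t => L t s
    exact ⟨t, ht⟩
  have hcont : Continuous g := by
    refine Continuous.finset_sup'_apply hne fun t _ => ?_
    rw [funext (hL t)]
    fun_prop
  have hact : ∀ t s, g s ≤ L t s → ∀ j, 0 ≤ (a + s • toReal u) ⬝ᵥ toReal ((c t).e j) := by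
    intro t s h
    refine (c t).edge_nonneg fun y hy => ?_
    obtain ⟨t', ht'⟩ := hmin (a + s • toReal u)
    have h1 := (hge t' s).trans h
    simp only [L, w, dot_sub_two] at h1
    linarith [ht' y hy]
  have hPL : Slope.PL g (fun s k => ∃ t, g s = L t s ∧ k = u ⬝ᵥ w t) ((u ⬝ᵥ x) % 2) := by
    refine ⟨fun s => ?_, fun s => ?_, ?_, ?_, ?_⟩
    · obtain ⟨t, ht⟩ := hmin (a + s • toReal u)
      refine le_trans ?_ (hge t s)
      simp only [L, w, dot_sub_two]
      linarith [ht _ hx]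
    · obtain ⟨t, ht⟩ := hex s
      exact ⟨_, t, ht, rfl⟩
    · rintro s k s' ⟨t, ht, rfl⟩
      refine le_trans (le_of_eq ?_) (hge t s')
      rw [ht, hL, hL]; ring
    · rintro s k ⟨t, -, rfl⟩
      simp only [w, dotProduct_sub, dotProduct_smul, smul_eq_mul]
      omega
    · rintro s k s' s'' ⟨t, ht, rfl⟩ hk h1 h2
      have e : ∀ r, g s + (u ⬝ᵥ w t : ℤ) * (r - s) = L t r := by
        intro r; rw [ht, hL, hL]; ring
      rw [e] at h1 h2
      have a1 := hact t s' h1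
      have a2 := hact t s'' h2
      have hk' : u ⬝ᵥ w t = ∑ j, (u ⬝ᵥ (c t).e j) * ((c t).u j ⬝ᵥ w t) := (c t).expandZ _ _
      have hn : ∃ j, u ⬝ᵥ (c t).e j ≠ 0 := by
        by_contra hc
        push Not at hc
        refine hu (funext fun k => ?_)
        have := (c t).expandZ u (Pi.single k 1)
        simpa [hc] using this
      have hDt : ∀ j, 3 ≤ (c t).u j ⬝ᵥ w t := hD t
      have hpos : ∃ j, 1 ≤ u ⬝ᵥ (c t).e j := by
        by_contra hc
        push Not at hc
        obtain ⟨j, hj⟩ := hn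
        have h3 := Finset.single_le_sum (f := fun j => -(u ⬝ᵥ (c t).e j) * ((c t).u j ⬝ᵥ w t))
          (fun j _ => mul_nonneg (by have := hc j; omega) (by have := hDt j; omega))
          (Finset.mem_univ j)
        simp only [neg_mul, Finset.sum_neg_distrib, ← hk'] at h3
        have h4 : 1 ≤ -(u ⬝ᵥ (c t).e j) := by have := hc j; omega
        have := (abs_le.mp hk).1
        nlinarith [hDt j]
      have hneg : ∃ j, u ⬝ᵥ (c t).e j ≤ -1 := by
        by_contra hc
        push Not at hc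
        obtain ⟨j, hj⟩ := hn
        have h3 := Finset.single_le_sum (f := fun j => (u ⬝ᵥ (c t).e j) * ((c t).u j ⬝ᵥ w t))
          (fun j _ => mul_nonneg (by have := hc j; omega) (by have := hDt j; omega))
          (Finset.mem_univ j)
        simp only [← hk'] at h3
        have h4 : 1 ≤ u ⬝ᵥ (c t).e j := by have := hc j; omega
        have := (abs_le.mp hk).2
        nlinarith [hDt j]
      have hg : ∀ j, 3 * ((a + s' • toReal u) ⬝ᵥ toReal ((c t).e j)) ≤ g s' := by
        intro j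
        refine le_trans ?_ (hge t s')
        simp only [L]
        rw [(c t).expand _ (toReal (w t))]
        have h3 : ∀ j, (3 : ℝ) ≤ toReal ((c t).u j) ⬝ᵥ toReal (w t) := by
          intro j; rw [toReal_dot]; exact_mod_cast hDt j
        refine le_trans ?_ (Finset.single_le_sum (f := fun j =>
          ((a + s' • toReal u) ⬝ᵥ toReal ((c t).e j)) * (toReal ((c t).u j) ⬝ᵥ toReal (w t)))
          (fun j _ => mul_nonneg (a1 j) (by linarith [h3 j])) (Finset.mem_univ j))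
        nlinarith [a1 j, h3 j]
      simp only [add_dotProduct, smul_dotProduct, toReal_dot, smul_eq_mul] at a1 a2 hg
      rcases le_total s' s'' with h | h
      · obtain ⟨j, hj⟩ := hneg
        have h3 : ((u ⬝ᵥ (c t).e j : ℤ) : ℝ) ≤ -1 := by exact_mod_cast hj
        rw [abs_of_nonpos (by linarith)]
        nlinarith [a2 j, hg j, mul_le_mul_of_nonneg_left h3 (sub_nonneg.mpr h)]
      · obtain ⟨j, hj⟩ := hpos
        have h3 : (1 : ℝ) ≤ ((u ⬝ᵥ (c t).e j : ℤ) : ℝ) := by exact_mod_cast hj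
        rw [abs_of_nonneg (by linarith)]
        nlinarith [a2 j, hg j, mul_le_mul_of_nonneg_left h3 (sub_nonneg.mpr h)]
  have h3 := hPL.three_le hcont
  obtain ⟨s, hs⟩ := hex 0
  obtain ⟨t, ht⟩ := hex 1
  refine ⟨s, t, ?_⟩
  rw [hs, ht] at h3
  simpa only [L, zero_smul, add_zero, one_smul] using h3

theorem wide (hP : Convex ℝ P) (hc : IsCompact P)
    (hmin : ∀ a : Fin d → ℝ, ∃ s, ∀ y ∈ P, a ⬝ᵥ toReal (c s).v ≤ a ⬝ᵥ y)
    {x : Fin d → ℤ} (hx : (2 : ℝ)⁻¹ • toReal x ∈ P)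
    (hD : ∀ s i, 3 ≤ (c s).u i ⬝ᵥ (x - (2 : ℤ) • (c s).v)) {u : Fin d → ℤ} (hu : u ≠ 0) :
    ∃ p : Fin d → ℝ, (∀ s i, |toReal ((c s).u i) ⬝ᵥ p| ≤
      ((c s).u i ⬝ᵥ (x - (2 : ℤ) • (c s).v) : ℤ)) ∧ 3 ≤ toReal u ⬝ᵥ p := by
  by_contra hno
  let F : (Fin d → ℝ) × (Fin d → ℝ) → (Fin d → ℝ) × ℝ := fun pq =>
    (pq.1 + pq.2 - toReal x, toReal u ⬝ᵥ (toReal x - (2 : ℝ) • pq.2))
  have hFc : Continuous F := by fun_prop
  have hconv : Convex ℝ (F '' (P ×ˢ P)) := by
    rintro _ ⟨⟨p, q⟩, ⟨hp, hq⟩, rfl⟩ _ ⟨⟨p', q'⟩, ⟨hp', hq'⟩, rfl⟩ s t hs ht hst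
    refine ⟨(s • p + t • p', s • q + t • q'), ⟨hP hp hp' hs ht hst, hP hq hq' hs ht hst⟩, ?_⟩
    obtain rfl : t = 1 - s := by linarith
    simp only [F, Prod.smul_mk, Prod.mk_add_mk, Prod.mk.injEq]
    constructor
    · module
    · simp only [dotProduct_sub, dotProduct_smul, dotProduct_add, smul_eq_mul]; ring
  have hR : Convex ℝ (({0} : Set (Fin d → ℝ)) ×ˢ Set.Ici (3 : ℝ)) :=
    (convex_singleton _).prod (convex_Ici _)
  obtain ⟨f, r, r', h1, h2, h3⟩ := geometric_hahn_banach_compact_closed hconv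
    ((hc.prod hc).image hFc) hR (isClosed_singleton.prod isClosed_Ici) (by
      rw [Set.disjoint_left]
      rintro _ ⟨⟨p, q⟩, ⟨hp, hq⟩, rfl⟩ ⟨h1, h2⟩
      refine hno ⟨toReal x - (2 : ℝ) • q, fun s i => ?_, h2⟩
      have h3 : p = toReal x - q := by
        have : p + q - toReal x = 0 := h1
        rw [sub_eq_zero] at this
        rw [← this]; simp
      have k1 := (c s).ineq i _ hp
      have k2 := (c s).ineq i _ hq
      rw [← toReal_dot, toReal_sub, toReal_two_smul]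
      simp only [h3, dotProduct_sub, dotProduct_smul, smul_eq_mul] at k1 k2 ⊢
      rw [abs_le]
      constructor <;> linarith)
  obtain ⟨a, ha⟩ := exists_dot (f.comp (ContinuousLinearMap.inl ℝ (Fin d → ℝ) ℝ))
  have hf : ∀ z t, f (z, t) = a ⬝ᵥ z + t * f (0, 1) := by
    intro z t
    rw [← ha, ← smul_eq_mul, ← map_smul]
    simp only [ContinuousLinearMap.comp_apply, ContinuousLinearMap.inl_apply, ← map_add]
    simp
  set μ := f (0, 1)
  have h4 := h3 (0, 3) ⟨rfl, le_refl (3 : ℝ)⟩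
  rw [hf, dotProduct_zero, zero_add] at h4
  have h5 := h1 _ ⟨((2 : ℝ)⁻¹ • toReal x, (2 : ℝ)⁻¹ • toReal x), ⟨hx, hx⟩, rfl⟩
  have e1 : (2 : ℝ)⁻¹ • toReal x + (2 : ℝ)⁻¹ • toReal x - toReal x = 0 := by module
  have e2 : toReal x - (2 : ℝ) • (2 : ℝ)⁻¹ • toReal x = 0 := by module
  simp only [F, hf, e1, e2, dotProduct_zero, zero_mul, add_zero] at h5
  have hμ : 0 < μ := by linarith
  obtain ⟨s, t, hst⟩ := three_le_support hmin hx hD hu (-(2 * μ)⁻¹ • a)
  have h6 := h1 _ ⟨(toReal (c s).v, toReal (c t).v), ⟨(c s).mem, (c t).mem⟩, rfl⟩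
  simp only [F, hf] at h6
  simp only [toReal_sub, toReal_two_smul, add_dotProduct, smul_dotProduct, dotProduct_sub,
    dotProduct_add, dotProduct_smul, smul_eq_mul] at hst h6
  have h7 := mul_le_mul_of_nonneg_left hst hμ.le
  have e3 : μ * (2 * μ)⁻¹ = 2⁻¹ := by field_simp
  generalize (2 * μ)⁻¹ = ν at h7 e3
  have e4 : ∀ z : ℝ, μ * (-ν * z) = -(2⁻¹ * z) := by
    intro z; rw [← e3]; ring
  simp only [mul_add, mul_sub, e4, mul_left_comm μ 2] at h7
  linarith

end Pool.Agent.MP_8c130c_co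

end

section

/-!
Oda's conjecture in dimension three.
-/

namespace Pool.Agent.MP_8c130c_co

open Reduce Pointwise

section facet

variable {d : ℕ} {P : Set (Fin d → ℝ)} {σ : Type} [Fintype σ] {c : σ → Corner P}

/-- The corner `t` lies on the facet of the corner `c0` with inner normal `c0.u i`, and this normal
is its `j`-th normal. -/
def OnFacet (c : σ → Corner P) (c0 : Corner P) (i : Fin d) (t : σ) (j : Fin d) : Prop :=
  c0.u i ⬝ᵥ ((c t).v - c0.v) = 0 ∧ (c t).u j = c0.u i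

lemma exists_facet (hmin : ∀ a : Fin d → ℝ, ∃ s, ∀ y ∈ P, a ⬝ᵥ toReal (c s).v ≤ a ⬝ᵥ y)
    (c0 : Corner P) (i : Fin d) (a : Fin d → ℝ) :
    ∃ t j, OnFacet c c0 i t j ∧ ∀ k, k ≠ j → 0 ≤ a ⬝ᵥ toReal ((c t).e k) := by
  obtain ⟨N, hN⟩ := Finite.exists_le fun t => a ⬝ᵥ toReal c0.v - a ⬝ᵥ toReal (c t).v + 1
  obtain ⟨t, ht⟩ := hmin (a + |N| • toReal (c0.u i))
  have h0 : c0.u i ⬝ᵥ ((c t).v - c0.v) = 0 := by
    refine le_antisymm ?_ (c0.ineqZ i (c t).mem)
    by_contra hc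
    have h1 : (1 : ℝ) ≤ (c0.u i ⬝ᵥ ((c t).v - c0.v) : ℤ) := by exact_mod_cast not_le.mp hc
    have h2 := ht _ c0.mem
    rw [← toReal_dot, toReal_sub, dotProduct_sub] at h1
    simp only [add_dotProduct, smul_dotProduct, smul_eq_mul] at h2
    have h3 := (hN t).trans (le_abs_self N)
    nlinarith [mul_le_mul_of_nonneg_left h1 (abs_nonneg N)]
  have hm : ∀ k, 0 ≤ c0.u i ⬝ᵥ (c t).e k := by
    intro k
    have := c0.ineqZ i ((c t).edge k)
    rw [add_sub_right_comm, dotProduct_add, h0, zero_add] at this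
    exact this
  obtain ⟨j, hj⟩ : ∃ j, 0 < c0.u i ⬝ᵥ (c t).e j := by
    by_contra hc
    push Not at hc
    have h1 := (c t).expandZ (c0.u i) (c0.e i)
    rw [c0.dual, if_pos rfl, Finset.sum_eq_zero fun k _ => by
      rw [le_antisymm (hc k) (hm k), zero_mul]] at h1
    exact one_ne_zero h1
  have hlev : ∀ y : Fin d → ℤ, toReal y ∈ P → c0.u i ⬝ᵥ (y - c0.v) = 0 →
      (c t).u j ⬝ᵥ (y - (c t).v) = 0 := by
    intro y hy hy0
    have h1 : c0.u i ⬝ᵥ (y - (c t).v) = 0 := by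
      rw [dotProduct_sub] at hy0 h0 ⊢; omega
    rw [(c t).expandZ] at h1
    have h2 := (Finset.sum_eq_zero_iff_of_nonneg fun k _ =>
      mul_nonneg (hm k) ((c t).ineqZ k hy)).mp h1 j (Finset.mem_univ j)
    exact (mul_eq_zero.mp h2).resolve_left hj.ne'
  have h1 : ∀ l, l ≠ i → (c t).u j ⬝ᵥ c0.e l = 0 := by
    intro l hl
    have k1 := hlev _ c0.mem (by simp)
    have k2 := hlev _ (c0.edge l) (by rw [add_sub_cancel_left, c0.dual, if_neg hl.symm])
    rw [add_sub_right_comm, dotProduct_add, k1, zero_add] at k2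
    exact k2
  have h2 : ∀ y, (c t).u j ⬝ᵥ y = ((c t).u j ⬝ᵥ c0.e i) * (c0.u i ⬝ᵥ y) := by
    intro y
    rw [c0.expandZ _ y]
    exact Finset.sum_eq_single i (fun l _ hl => by rw [h1 l hl, zero_mul]) (by simp)
  have h3 : (c t).u j ⬝ᵥ c0.e i = 1 := by
    have h4 := h2 ((c t).e j)
    rw [(c t).dual, if_pos rfl] at h4
    have h5 := Int.eq_one_of_mul_eq_one_left hj.le h4.symm
    rw [h5, mul_one] at h4
    exact h4.symm
  have h4 : (c t).u j = c0.u i := by
    funext k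
    have := h2 (Pi.single k 1)
    simpa [h3] using this
  refine ⟨t, j, ⟨h0, h4⟩, fun k hk => ?_⟩
  have h5 := (c t).edge_nonneg ht k
  rw [add_dotProduct, smul_dotProduct, toReal_dot, ← h4, (c t).dual, if_neg hk.symm] at h5
  simpa using h5

omit [Fintype σ] in
lemma facet_le {c0 : Corner P} {i : Fin d} {t : σ} {j : Fin d} (h : OnFacet c c0 i t j)
    {a : Fin d → ℝ} (ha : ∀ k, k ≠ j → 0 ≤ a ⬝ᵥ toReal ((c t).e k)) {z : Fin d → ℝ} {k : ℤ}
    (hz : toReal (c0.u i) ⬝ᵥ (z - toReal c0.v) = k)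
    (hz' : ∀ l, l ≠ j → 0 ≤ toReal ((c t).u l) ⬝ᵥ (z - toReal (c t).v)) :
    a ⬝ᵥ toReal ((c t).v + k • (c t).e j) ≤ a ⬝ᵥ z := by
  rw [← sub_nonneg, ← dotProduct_sub, (c t).expand]
  refine Finset.sum_nonneg fun l _ => ?_
  have e : toReal ((c t).u l) ⬝ᵥ (z - toReal ((c t).v + k • (c t).e j)) =
      toReal ((c t).u l) ⬝ᵥ (z - toReal (c t).v) - k * (if l = j then 1 else 0) := by
    rw [dotProduct_sub, dotProduct_sub, toReal_dot, toReal_dot, dotProduct_add, dotProduct_smul,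
      (c t).dual]
    push_cast [smul_eq_mul]
    ring
  rw [e]
  by_cases hl : l = j
  · subst hl
    have h1 : toReal (c0.u i) ⬝ᵥ (toReal (c t).v - toReal c0.v) = 0 := by
      rw [← toReal_sub, toReal_dot, h.1]; simp
    rw [h.2, if_pos rfl]
    rw [dotProduct_sub] at hz h1 ⊢
    apply le_of_eq
    rw [show toReal (c0.u i) ⬝ᵥ z - toReal (c0.u i) ⬝ᵥ toReal (c t).v - k * 1 = 0 by linarith,
      mul_zero]
  · rw [if_neg hl, mul_zero, sub_zero]
    exact mul_nonneg (ha l hl) (hz' l hl)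

omit [Fintype σ] in
lemma up_mem (t : σ) (j : Fin d) {k : ℤ} (hk : k = 0 ∨ k = 1) :
    toReal ((c t).v + k • (c t).e j) ∈ P := by
  rcases hk with rfl | rfl
  · simpa using (c t).mem
  · simpa using (c t).edge j

omit [Fintype σ] in
lemma up_level {c0 : Corner P} {i : Fin d} {t : σ} {j : Fin d} (h : OnFacet c c0 i t j) (k : ℤ) :
    c0.u i ⬝ᵥ ((c t).v + k • (c t).e j - c0.v) = k := by
  rw [add_sub_right_comm, dotProduct_add, h.1, dotProduct_smul, ← h.2, (c t).dual]
  simp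

lemma level_mem (hP : Convex ℝ P) (hc : IsClosed P)
    (hmin : ∀ a : Fin d → ℝ, ∃ s, ∀ y ∈ P, a ⬝ᵥ toReal (c s).v ≤ a ⬝ᵥ y)
    {c0 : Corner P} {i : Fin d} {z : Fin d → ℤ} {k : ℤ} (hk : k = 0 ∨ k = 1)
    (hz : c0.u i ⬝ᵥ (z - c0.v) = k)
    (hz' : ∀ t j l, OnFacet c c0 i t j → l ≠ j → 0 ≤ (c t).u l ⬝ᵥ (z - (c t).v)) :
    toReal z ∈ P := by
  refine mem_of_forall_le hP hc fun a => ?_
  obtain ⟨t, j, h, ha⟩ := exists_facet hmin c0 i a
  refine ⟨_, up_mem t j hk, facet_le h ha ?_ fun l hl => ?_⟩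
  · rw [← toReal_sub, toReal_dot, hz]
  · rw [← toReal_sub, toReal_dot]; exact_mod_cast hz' t j l h hl

omit [Fintype σ] in
lemma mem_of_ineq (hP : Convex ℝ P) (hc : IsClosed P)
    (hmin : ∀ a : Fin d → ℝ, ∃ s, ∀ y ∈ P, a ⬝ᵥ toReal (c s).v ≤ a ⬝ᵥ y) {z : Fin d → ℤ}
    (hz : ∀ t l, 0 ≤ (c t).u l ⬝ᵥ (z - (c t).v)) : toReal z ∈ P := by
  refine mem_of_forall_le hP hc fun a => ?_
  obtain ⟨t, ht⟩ := hmin a
  refine ⟨_, (c t).mem, ?_⟩
  rw [← sub_nonneg, ← dotProduct_sub, (c t).expand]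
  refine Finset.sum_nonneg fun l _ => mul_nonneg ((c t).edge_nonneg ht l) ?_
  rw [← toReal_sub, toReal_dot]; exact_mod_cast hz t l

lemma half_nonneg (c0 : Corner P) (i : Fin d) {x : Fin d → ℤ} (hx : (2 : ℝ)⁻¹ • toReal x ∈ P) :
    0 ≤ c0.u i ⬝ᵥ (x - (2 : ℤ) • c0.v) := by
  have h := c0.ineq i _ hx
  have h2 := dot_sub_two (toReal (c0.u i)) x c0.v
  rw [toReal_dot] at h2
  rw [dotProduct_sub] at h
  exact_mod_cast (show (0 : ℝ) ≤ (c0.u i ⬝ᵥ (x - (2 : ℤ) • c0.v) : ℤ) by linarith)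

end facet

variable {P : Set (Fin 3 → ℝ)} {σ : Type} [Fintype σ] {c : σ → Corner P}

lemma Corner.expand3 (c0 : Corner P) (i : Fin 3) (a y : Fin 3 → ℤ) :
    a ⬝ᵥ y = (a ⬝ᵥ c0.e i) * (c0.u i ⬝ᵥ y) +
      (a ⬝ᵥ c0.e (i.succAbove 0)) * (c0.u (i.succAbove 0) ⬝ᵥ y) +
      (a ⬝ᵥ c0.e (i.succAbove 1)) * (c0.u (i.succAbove 1) ⬝ᵥ y) := by
  rw [c0.expandZ, Fin.sum_univ_succAbove _ i, Fin.sum_univ_two, add_assoc]

lemma Corner.expandV (c0 : Corner P) (i : Fin 3) (y : Fin 3 → ℤ) (k : Fin 3) :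
    y k = (c0.u i ⬝ᵥ y) * c0.e i k + (c0.u (i.succAbove 0) ⬝ᵥ y) * c0.e (i.succAbove 0) k +
      (c0.u (i.succAbove 1) ⬝ᵥ y) * c0.e (i.succAbove 1) k := by
  have := c0.expand3 i (Pi.single k 1) y
  simp only [single_dotProduct, one_mul] at this
  rw [this]; ring

lemma even_case (hP : Convex ℝ P)
    (hmin : ∀ a : Fin 3 → ℝ, ∃ s, ∀ y ∈ P, a ⬝ᵥ toReal (c s).v ≤ a ⬝ᵥ y)
    {x : Fin 3 → ℤ} (hx : (2 : ℝ)⁻¹ • toReal x ∈ P) (c0 : Corner P) (i : Fin 3) {k : ℤ}
    (hk : k = 0 ∨ k = 1) (hD : c0.u i ⬝ᵥ (x - (2 : ℤ) • c0.v) = 2 * k) :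
    ∃ y, toReal y ∈ P ∧ toReal (x - y) ∈ P := by
  let emb : (Fin 2 → ℝ) → Fin 3 → ℝ := fun p => toReal c0.v + (k : ℝ) • toReal (c0.e i) +
    p 0 • toReal (c0.e (i.succAbove 0)) + p 1 • toReal (c0.e (i.succAbove 1))
  let embZ : (Fin 2 → ℤ) → Fin 3 → ℤ := fun p => c0.v + k • c0.e i +
    p 0 • c0.e (i.succAbove 0) + p 1 • c0.e (i.succAbove 1)
  have hemb : ∀ p, emb (toReal p) = toReal (embZ p) := by
    intro p; funext m; simp [emb, embZ, toReal]
  let co : (Fin 3 → ℤ) → Fin 2 → ℤ := fun y j => c0.u (i.succAbove j) ⬝ᵥ y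
  have hP' : Convex ℝ {p | emb p ∈ P} := by
    intro p hp q hq s t hs ht hst
    have := hP hp hq hs ht hst
    obtain rfl : t = 1 - s := by linarith
    simp only [Set.mem_ofPred_eq]
    convert this using 1
    simp only [emb, Pi.add_apply, Pi.smul_apply, smul_eq_mul]
    module
  let V : Set (Fin 2 → ℤ) := (fun tj : σ × Fin 3 =>
    co ((c tj.1).v + k • (c tj.1).e tj.2 - c0.v)) '' {tj | OnFacet c c0 i tj.1 tj.2}
  have hV : ∀ q ∈ V, toReal q ∈ {p | emb p ∈ P} := by
    rintro _ ⟨⟨t, j⟩, h, rfl⟩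
    simp only [Set.mem_ofPred_eq, hemb]
    convert up_mem (c := c) t j hk using 2
    funext m
    have h1 := c0.expandV i ((c t).v + k • (c t).e j - c0.v) m
    rw [up_level h] at h1
    simp only [embZ, co, Pi.add_apply, Pi.sub_apply, Pi.smul_apply, smul_eq_mul] at h1 ⊢
    linarith
  have hfin : (toReal '' V).Finite := ((Set.toFinite _).image _).image _
  obtain ⟨y, hy1, hy2⟩ := reduce hP' (s := 1) one_pos le_rfl V hV (co (x - (2 : ℤ) • c0.v)) (by
    refine mem_of_forall_le (convex_convexHull ℝ _) (hfin.isCompact_convexHull ℝ).isClosed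
      fun a => ?_
    obtain ⟨t, j, h, ha⟩ := exists_facet hmin c0 i
      (a 0 • toReal (c0.u (i.succAbove 0)) + a 1 • toReal (c0.u (i.succAbove 1)))
    refine ⟨_, subset_convexHull ℝ _ ⟨_, ⟨(t, j), h, rfl⟩, rfl⟩, ?_⟩
    have h1 := facet_le h ha (z := (2 : ℝ)⁻¹ • toReal x) (k := k) (by
      have h2 := dot_sub_two (toReal (c0.u i)) x c0.v
      rw [toReal_dot, hD] at h2
      rw [dotProduct_sub]
      push_cast at h2
      linarith) fun l _ => (c t).ineq l _ hx
    simp only [add_dotProduct, smul_dotProduct, dotProduct_smul, toReal_dot, smul_eq_mul] at h1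
    simp only [dotProduct, Fin.sum_univ_two, toReal, co, Pi.smul_apply, smul_eq_mul]
    simp only [← dotProduct.eq_def]
    simp only [dotProduct_sub, dotProduct_smul, smul_eq_mul]
    push_cast
    linarith)
  simp only [Set.mem_ofPred_eq, Nat.cast_one, inv_one, one_smul, hemb] at hy1 hy2
  refine ⟨embZ y, hy1, ?_⟩
  convert hy2 using 2
  funext m
  have h1 := c0.expandV i (x - (2 : ℤ) • c0.v) m
  rw [hD] at h1
  simp only [embZ, co, Pi.add_apply, Pi.sub_apply, Pi.smul_apply, smul_eq_mul] at h1 ⊢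
  linarith

lemma exists_third : ∀ j l : Fin 3, l ≠ j → ∃ m, m ≠ j ∧ l ≠ m := by decide

lemma one_case (hP : Convex ℝ P) (hc : IsClosed P)
    (hmin : ∀ a : Fin 3 → ℝ, ∃ s, ∀ y ∈ P, a ⬝ᵥ toReal (c s).v ≤ a ⬝ᵥ y)
    {x : Fin 3 → ℤ} (hx : (2 : ℝ)⁻¹ • toReal x ∈ P) (c0 : Corner P) (i : Fin 3)
    (hD : c0.u i ⬝ᵥ (x - (2 : ℤ) • c0.v) = 1) :
    ∃ y, toReal y ∈ P ∧ toReal (x - y) ∈ P := by
  classical
  let I : Finset (σ × Fin 3 × Fin 3) :=
    Finset.univ.filter fun κ => OnFacet c c0 i κ.1 κ.2.1 ∧ κ.2.2 ≠ κ.2.1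
  let n : σ × Fin 3 × Fin 3 → Fin 3 → ℤ := fun κ => (c κ.1).u κ.2.2
  let U : σ × Fin 3 × Fin 3 → ℤ × ℤ := fun κ =>
    (n κ ⬝ᵥ c0.e (i.succAbove 0), n κ ⬝ᵥ c0.e (i.succAbove 1))
  let co : (Fin 3 → ℤ) → ℤ × ℤ := fun y =>
    (c0.u (i.succAbove 0) ⬝ᵥ (y - c0.v), c0.u (i.succAbove 1) ⬝ᵥ (y - c0.v))
  have hev : ∀ κ y, c0.u i ⬝ᵥ (y - c0.v) = 0 → Plane.ev (U κ) (co y) = n κ ⬝ᵥ (y - c0.v) := by
    intro κ y hy
    rw [c0.expand3 i (n κ), hy]
    simp [Plane.ev, U, co]
  have hG : ∀ y, toReal y ∈ P → c0.u i ⬝ᵥ (y - c0.v) = 0 →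
      ∀ m ∈ I, n m ⬝ᵥ ((c m.1).v - c0.v) ≤ Plane.ev (U m) (co y) := by
    intro y hy hy0 m _
    have := (c m.1).ineqZ m.2.2 hy
    rw [hev _ _ hy0]
    simp only [n, dotProduct_sub] at this ⊢
    omega
  have hQ : ∀ y, toReal (x - y) ∈ P → c0.u i ⬝ᵥ (y - c0.v) = 0 →
      ∀ m ∈ I, Plane.ev (U m) (co y) ≤ n m ⬝ᵥ (x - (c m.1).v - c0.v) := by
    intro y hy hy0 m _
    have := (c m.1).ineqZ m.2.2 hy
    rw [hev _ _ hy0]
    simp only [n, dotProduct_sub] at this ⊢
    omega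
  have hq0 : ∀ t j, OnFacet c c0 i t j → c0.u i ⬝ᵥ (x - ((c t).v + (c t).e j) - c0.v) = 0 := by
    intro t j h
    have h1 := up_level h 1
    simp only [dotProduct_sub, dotProduct_add, dotProduct_smul, smul_eq_mul] at h1 hD ⊢
    omega
  have hqP : ∀ t j, toReal (x - (x - ((c t).v + (c t).e j))) ∈ P := by
    intro t j; rw [sub_sub_cancel]; exact (c t).edge j
  obtain ⟨g, hg⟩ := Plane.plane I U (fun κ => n κ ⬝ᵥ ((c κ.1).v - c0.v))
    (fun κ => n κ ⬝ᵥ (x - (c κ.1).v - c0.v)) (by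
      intro κ _
      have := half_nonneg (c κ.1) κ.2.2 hx
      simp only [n, dotProduct_sub, dotProduct_smul, smul_eq_mul] at this ⊢
      omega) (by
      rintro ⟨t, j, l⟩ hκ
      obtain ⟨h, hl⟩ := (Finset.mem_filter.mp hκ).2
      obtain ⟨m, hmj, hlm⟩ := exists_third j l hl
      have h0 : c0.u i ⬝ᵥ (c t).e m = 0 := by rw [← h.2, (c t).dual, if_neg hmj.symm]
      have h1 : c0.u i ⬝ᵥ ((c t).v + (c t).e m - c0.v) = 0 := by
        rw [add_sub_right_comm, dotProduct_add, h.1, h0, add_zero]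
      refine ⟨co (c t).v, co ((c t).v + (c t).e m), fun he => ?_, hG _ (c t).mem h.1,
        hG _ ((c t).edge m) h1, hev _ _ h.1, ?_⟩
      · simp only [co, Prod.mk.injEq, add_sub_right_comm, dotProduct_add, left_eq_add] at he
        have h2 := c0.expand3 i ((c t).u m) ((c t).e m)
        rw [h0, he.1, he.2, (c t).dual] at h2
        simp at h2
      · rw [hev _ _ h1, add_sub_right_comm, dotProduct_add]
        simp only [n]
        rw [(c t).dual, if_neg hlm, add_zero]) (by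
      rintro ⟨t, j, l⟩ hκ
      obtain ⟨h, hl⟩ := (Finset.mem_filter.mp hκ).2
      refine ⟨co (x - ((c t).v + (c t).e j)), hQ _ (hqP t j) (hq0 t j h), ?_⟩
      rw [hev _ _ (hq0 t j h)]
      have := (c t).dual l j
      rw [if_neg hl] at this
      simp only [n, dotProduct_sub, dotProduct_add, this]
      ring) (by
      intro φ
      obtain ⟨t, j, h, ha⟩ := exists_facet hmin c0 i
        (toReal (-(φ.1 • c0.u (i.succAbove 0) + φ.2 • c0.u (i.succAbove 1))))
      refine ⟨co (c t).v, co (x - ((c t).v + (c t).e j)), hG _ (c t).mem h.1,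
        hQ _ (hqP t j) (hq0 t j h), ?_⟩
      have h1 := facet_le h ha (z := toReal (x - (c t).v)) (k := 1) (by
        rw [← toReal_sub, toReal_dot]
        have := h.1
        simp only [dotProduct_sub, dotProduct_smul, smul_eq_mul] at this hD ⊢
        exact_mod_cast (by omega)) fun l _ => by
          rw [← toReal_sub, toReal_dot]
          have := half_nonneg (c t) l hx
          simp only [dotProduct_sub, dotProduct_smul, smul_eq_mul] at this ⊢
          exact_mod_cast (by omega)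
      rw [toReal_dot, toReal_dot, Int.cast_le] at h1
      simp only [Plane.ev, co, neg_dotProduct, add_dotProduct, smul_dotProduct, dotProduct_sub,
        dotProduct_add, one_smul, smul_eq_mul] at h1 ⊢
      linarith)
  let y : Fin 3 → ℤ := c0.v + (g.1 • c0.e (i.succAbove 0) + g.2 • c0.e (i.succAbove 1))
  have hy : ∀ a, a ⬝ᵥ (y - c0.v) =
      g.1 * (a ⬝ᵥ c0.e (i.succAbove 0)) + g.2 * (a ⬝ᵥ c0.e (i.succAbove 1)) := by
    intro a
    simp only [y, add_sub_cancel_left, dotProduct_add, dotProduct_smul, smul_eq_mul]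
  have hy0 : c0.u i ⬝ᵥ (y - c0.v) = 0 := by
    rw [hy, c0.dual, c0.dual, if_neg (Fin.succAbove_ne i 0).symm,
      if_neg (Fin.succAbove_ne i 1).symm]
    simp
  have hg' : ∀ t j l, OnFacet c c0 i t j → l ≠ j →
      0 ≤ (c t).u l ⬝ᵥ (y - (c t).v) ∧ 0 ≤ (c t).u l ⬝ᵥ (x - y - (c t).v) := by
    intro t j l h hl
    have h1 := hg (t, j, l) (Finset.mem_filter.mpr ⟨Finset.mem_univ _, h, hl⟩)
    have h2 := hy ((c t).u l)
    simp only [Plane.ev, U, n, dotProduct_sub] at h1 h2 ⊢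
    constructor <;> linarith [h1.1, h1.2]
  refine ⟨y, level_mem hP hc hmin (Or.inl rfl) hy0 fun t j l h hl => (hg' t j l h hl).1,
    level_mem hP hc hmin (c0 := c0) (i := i) (Or.inr rfl) ?_ fun t j l h hl => (hg' t j l h hl).2⟩
  simp only [dotProduct_sub, dotProduct_smul, smul_eq_mul] at hy0 hD ⊢
  omega

lemma degree_two (hP : Convex ℝ P) (hc : IsCompact P)
    (hmin : ∀ a : Fin 3 → ℝ, ∃ s, ∀ y ∈ P, a ⬝ᵥ toReal (c s).v ≤ a ⬝ᵥ y)
    {x : Fin 3 → ℤ} (hx : (2 : ℝ)⁻¹ • toReal x ∈ P) :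
    ∃ y, toReal y ∈ P ∧ toReal (x - y) ∈ P := by
  by_cases hD : ∀ s i, 3 ≤ (c s).u i ⬝ᵥ (x - (2 : ℤ) • (c s).v)
  · obtain ⟨w, hw, hw'⟩ := Hollow.hollow (Finset.univ : Finset (σ × Fin 3))
      (fun κ => (c κ.1).u κ.2) (fun κ => (c κ.1).u κ.2 ⬝ᵥ (x - (2 : ℤ) • (c κ.1).v)) x
      (fun κ _ => by have := hD κ.1 κ.2; omega)
      (fun κ _ => ⟨(c κ.1).e κ.2, by rw [(c κ.1).dual, if_pos rfl]⟩) fun u hu => by
        obtain ⟨p, hp, hu⟩ := wide hP hc hmin hx hD hu
        exact ⟨p, fun κ _ => hp κ.1 κ.2, hu⟩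
    have hy : (2 : ℤ) • Hollow.hf x w = x + w := by
      funext k
      exact Hollow.hf_spec (x := x) (fun _ => rfl) hw k
    have key : ∀ t l, 0 ≤ (c t).u l ⬝ᵥ (Hollow.hf x w - (c t).v) ∧
        0 ≤ (c t).u l ⬝ᵥ (x - Hollow.hf x w - (c t).v) := by
      intro t l
      have h1 := abs_le.mp (hw' (t, l) (Finset.mem_univ _))
      have h2 := congrArg ((c t).u l ⬝ᵥ ·) hy
      simp only [dotProduct_sub, dotProduct_add, dotProduct_smul, smul_eq_mul] at h1 h2 ⊢
      omega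
    exact ⟨_, mem_of_ineq hP hc.isClosed hmin fun t l => (key t l).1,
      mem_of_ineq hP hc.isClosed hmin fun t l => (key t l).2⟩
  · push Not at hD
    obtain ⟨s, i, h⟩ := hD
    have h0 := half_nonneg (c s) i hx
    obtain h1 | h1 | h1 : (c s).u i ⬝ᵥ (x - (2 : ℤ) • (c s).v) = 2 * 0 ∨
        (c s).u i ⬝ᵥ (x - (2 : ℤ) • (c s).v) = 1 ∨
        (c s).u i ⬝ᵥ (x - (2 : ℤ) • (c s).v) = 2 * 1 := by omega
    · exact even_case hP hmin hx _ i (Or.inl rfl) h1
    · exact one_case hP hc.isClosed hmin hx _ i h1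
    · exact even_case hP hmin hx _ i (Or.inr rfl) h1

theorem oda_three (P : Set (Fin 3 → ℝ)) (hP : IsLatticePolytope P) (hD : IsDelzant P) :
    IsIDP P := by
  obtain ⟨σ, _, c, hmin⟩ := exists_corners hP hD
  have hc := hP.isCompact
  obtain ⟨⟨V, hV⟩, -⟩ := hP
  have hconv : Convex ℝ P := hV ▸ convex_convexHull ℝ _
  have key : ∀ t : ℕ, ∀ z : Fin 3 → ℤ, ((t : ℝ) + 1)⁻¹ • toReal z ∈ P →
      ∃ x : Fin (t + 1) → Fin 3 → ℤ, (∀ j, toReal (x j) ∈ P) ∧ z = ∑ j, x j := by
    intro t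
    induction t with
    | zero => exact fun z hz => ⟨fun _ => z, fun _ => by simpa using hz, by simp⟩
    | succ t ih =>
      intro z hz
      obtain ⟨y, hy1, hy2⟩ : ∃ y, toReal y ∈ P ∧ ((t : ℝ) + 1)⁻¹ • toReal (z - y) ∈ P := by
        rcases Nat.eq_zero_or_pos t with rfl | ht
        · obtain ⟨y, h1, h2⟩ := degree_two hconv hc hmin (x := z) (by
            convert hz using 3; norm_num)
          exact ⟨y, h1, by simpa using h2⟩
        · have := reduce hconv (s := t + 1) (by omega) (by omega) (V : Set (Fin 3 → ℤ))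
            (fun v hv => hV ▸ subset_convexHull ℝ _ ⟨v, hv, rfl⟩) z (hV ▸ hz)
          simpa using this
      obtain ⟨x, hx1, hx2⟩ := ih _ hy2
      refine ⟨Fin.cons y x, fun j => Fin.cases hy1 hx1 j, ?_⟩
      rw [Fin.sum_univ_succ]
      simp only [Fin.cons_zero, Fin.cons_succ, ← hx2]
      abel
  intro t ht z hz
  obtain ⟨t, rfl⟩ : ∃ s, t = s + 1 := ⟨t - 1, by omega⟩
  refine key t z ?_
  obtain ⟨p, hp, hz⟩ := hz
  have h0 : (t : ℝ) + 1 ≠ 0 := by positivity
  simp only [Nat.cast_add, Nat.cast_one] at hz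
  rw [← hz, inv_smul_smul₀ h0]
  exact hp

end Pool.Agent.MP_8c130c_co

end
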